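import Pool.Agent.BPN.S.Fib
import Pool.Agent.BPN.S.Conn

/-!
# Products of group spectra (project BPN, module R/PiG)
-/

namespace BPN

open GSp

/-- A product of group spectra, of which only finitely many are nonzero in each degree. -/
def piG {ι : Type} (G : ι → GSp) (hf : ∀ r : ℤ, {i | ∃ x : (G i).G r, x ≠ 0}.Finite) : GSp where
  G := fun q => ∀ i, (G i).G q
  d := fun j {_ _} h =>
    { toFun := fun x i => (G i).d j h (x i)
      map_zero' := funext fun _ => map_zero _
      map_add' := fun _ _ => funext fun _ => map_add _ _ _ }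
  s := fun j {_ _} h =>
    { toFun := fun x i => (G i).s j h (x i)
      map_zero' := funext fun _ => map_zero _
      map_add' := fun _ _ => funext fun _ => map_add _ _ _ }
  dd := fun hij _ _ _ h₁ h₂ x => funext fun i => (G i).dd hij h₁ h₂ (x i)
  ds_lt := fun hij _ _ _ h₁ h₂ x => funext fun i => (G i).ds_lt hij h₁ h₂ (x i)
  ds_eq := fun j _ _ h x => funext fun i => (G i).ds_eq j h (x i)
  ds_succ := fun j _ _ h x => funext fun i => (G i).ds_succ j h (x i)
  ds_gt := fun hij _ _ _ h₁ h₂ x => funext fun i => (G i).ds_gt hij h₁ h₂ (x i)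
  ss := fun hij _ _ _ h₁ h₂ x => funext fun i => (G i).ss hij h₁ h₂ (x i)
  fin := by
    intro q r h x
    have hn : ∀ i, ∃ n : ℕ, ∀ j, n ≤ j → (G i).d j h (x i) = 0 := fun i => (G i).fin h (x i)
    choose n hn using hn
    refine ⟨(hf r).toFinset.sup n, fun j hj => funext fun i => ?_⟩
    by_cases hi : x i = 0
    · change (G i).d j h (x i) = 0
      rw [hi, map_zero]
    · refine hn i j (le_trans (Finset.le_sup (f := n) ?_) hj)
      rw [Set.Finite.mem_toFinset]
      exact ⟨x i, hi⟩

namespace piG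

variable {ι : Type} {G : ι → GSp} {hf : ∀ r : ℤ, {i | ∃ x : (G i).G r, x ≠ 0}.Finite}

/-- Projections. -/
def proj (G : ι → GSp) (hf : ∀ r : ℤ, {i | ∃ x : (G i).G r, x ≠ 0}.Finite) (i : ι) :
    Hom (piG G hf) (G i) where
  f := fun _ =>
    { toFun := fun x => x i
      map_zero' := rfl
      map_add' := fun _ _ => rfl }
  map_d := fun _ _ _ _ _ => rfl
  map_s := fun _ _ _ _ _ => rfl

/-- Maps into the product. -/
def toPiG {X : PSp} (hf : ∀ r : ℤ, {i | ∃ x : (G i).G r, x ≠ 0}.Finite)
    (a : ∀ i, Map X (G i)) : Map X (piG G hf) where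
  f := fun q x i => (a i).f q x
  map_pt := fun q => funext fun i => (a i).map_pt q
  map_d := fun j _ _ h x => funext fun i => (a i).map_d j h x
  map_s := fun j _ _ h x => funext fun i => (a i).map_s j h x

theorem post_proj_toPiG {X : PSp} (a : ∀ i, Map X (G i)) (i : ι) :
    Map.post (proj G hf i) (toPiG hf a) = a i := rfl

theorem mem_Z {q : ℤ} {z : (piG G hf).G q} : z ∈ (piG G hf).Z q ↔ ∀ i, z i ∈ (G i).Z q :=
  ⟨fun h i j _ hr => congrFun (h j hr) i, fun h j _ hr => funext fun i => h i j hr⟩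

theorem mem_B {q : ℤ} {z : (piG G hf).G q} : z ∈ (piG G hf).B q ↔ ∀ i, z i ∈ (G i).B q := by
  constructor
  · rintro ⟨y, hy, rfl⟩ i
    exact ⟨y i, fun j _ hr => congrFun (hy j hr) i, rfl⟩
  · intro h
    choose y hy hyz using h
    exact ⟨y, fun j _ hr => funext fun i => hy i j hr, funext fun i => hyz i⟩

/-- If only the factor `i₀` has homotopy in degree `r`, the projection is an isomorphism on `π_r`. -/
theorem proj_bijective (i₀ : ι) (r : ℤ) (hv : ∀ i, i ≠ i₀ → (G i).Vanish r) :
    Function.Bijective ((Map.ofHom (proj G hf i₀)).pi r) := by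
  classical
  constructor
  · rw [injective_iff_map_eq_zero]
    intro x hx
    obtain ⟨z, rfl⟩ := (piG G hf).piMk_surj r x
    rw [Map.pi_mk, piMk_eq_zero] at hx
    rw [piMk_eq_zero, mem_B]
    intro i
    by_cases hi : i = i₀
    · subst hi
      exact hx
    · exact hv i hi _ (mem_Z.1 z.2 i)
  · intro y
    obtain ⟨w, rfl⟩ := (G i₀).piMk_surj r y
    obtain ⟨u, hu1, hu2⟩ : ∃ u : (piG G hf).G r, u i₀ = w.1 ∧ ∀ i, i ≠ i₀ → u i = 0 :=
      ⟨Function.update (0 : ∀ i, (G i).G r) i₀ w.1, Function.update_self _ _ _,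
        fun i hi => Function.update_of_ne hi _ _⟩
    have hz : u ∈ (piG G hf).Z r := by
      rw [mem_Z]
      intro i
      by_cases hi : i = i₀
      · subst hi
        rw [hu1]
        exact w.2
      · rw [hu2 i hi]
        exact zero_mem _
    refine ⟨(piG G hf).piMk r ⟨u, hz⟩, ?_⟩
    rw [Map.pi_mk]
    congr 1
    exact Subtype.ext hu1

theorem vanish (r : ℤ) (hv : ∀ i, (G i).Vanish r) : (piG G hf).Vanish r := by
  intro z hz
  rw [mem_B]
  exact fun i => hv i _ (mem_Z.1 hz i)

theorem below (m : ℤ) (h : ∀ i, (G i).Below m) : (piG G hf).Below m := by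
  intro q hq x
  exact funext fun i => h i q hq (x i)

end piG

end BPN
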