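import Pool.Agent.BPN.R.Rat
import Pool.Agent.BPN.R.PiG

/-!
# Lifting through rational fibrations (project BPN, module R/Lift)
-/

namespace BPN

open GSp

/-! ### pullbacks of surjective homomorphisms -/

section pull

variable {G H E : GSp}

private def pbFst (f : Hom G E) (g : Hom H E) : Hom (pb f g) G :=
  ⟨fun _ => (AddMonoidHom.fst _ _).comp (AddSubgroup.subtype _), fun _ _ _ _ _ => rfl,
    fun _ _ _ _ _ => rfl⟩

private def pbSnd (f : Hom G E) (g : Hom H E) : Hom (pb f g) H :=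
  ⟨fun _ => (AddMonoidHom.snd _ _).comp (AddSubgroup.subtype _), fun _ _ _ _ _ => rfl,
    fun _ _ _ _ _ => rfl⟩

private theorem pbFst_surj (f : Hom G E) (g : Hom H E) (hg : g.Surj) : (pbFst f g).Surj := by
  intro q x
  obtain ⟨y, hy⟩ := hg q (f.f q x)
  exact ⟨⟨(x, y), hy.symm⟩, rfl⟩

/-- The kernel of `g` in the kernel of the projection. -/
private def pbK (f : Hom G E) (g : Hom H E) : Hom (ker g) (ker (pbFst f g)) where
  f := fun q =>
    { toFun := fun y => ⟨⟨((0 : G.G q), y.1), (map_zero (f.f q)).trans (y.2 : g.f q y.1 = 0).symm⟩,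
        rfl⟩
      map_zero' := rfl
      map_add' := fun _ _ => Subtype.ext (Subtype.ext (Prod.ext (add_zero 0).symm rfl)) }
  map_d := fun i _ _ h _ => Subtype.ext (Subtype.ext (Prod.ext (map_zero (G.d i h)).symm rfl))
  map_s := fun i _ _ h _ => Subtype.ext (Subtype.ext (Prod.ext (map_zero (G.s i h)).symm rfl))

private theorem pbK_we (f : Hom G E) (g : Hom H E) : (Map.ofHom (pbK f g)).WE := by
  have h2 : (pbK f g).Surj := by
    intro q y
    have h3 : y.1.1.1 = 0 := y.2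
    have h4 : f.f q y.1.1.1 = g.f q y.1.1.2 := y.1.2
    rw [h3, map_zero] at h4
    exact ⟨⟨y.1.1.2, h4.symm⟩, Subtype.ext (Subtype.ext (Prod.ext h3.symm rfl))⟩
  rw [GSp.we_iff _ h2]
  intro q x _
  have h5 : (pbK f g).f q x.1 = 0 := x.2
  have h6 : x.1.1 = 0 := congrArg (fun z : (ker (pbFst f g)).G q => z.1.1.2) h5
  have hx : x = 0 := Subtype.ext (Subtype.ext h6)
  rw [hx]
  exact zero_mem _

/-- Naturality of the boundary. -/
private theorem pb_bdry (f : Hom G E) (g : Hom H E) (hg : g.Surj) {q r : ℤ} (h : q + 1 = r)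
    (x : G.pi r) : bdry (pbFst f g) (pbFst_surj f g hg) h x =
      (Map.ofHom (pbK f g)).pi q (bdry g hg h ((Map.ofHom f).pi r x)) := by
  obtain ⟨z, rfl⟩ := G.piMk_surj r x
  have hfz : f.f r z.1 ∈ E.Z r := f.map_Z z.2
  obtain ⟨y, hy, hyz⟩ := exists_N_lift g hg (f.f r z.1) (pi_Z_le_N hfz)
  have hda : H.d 0 h y ∈ (g.f q).ker := by
    rw [AddMonoidHom.mem_ker, g.map_d, hyz]
    exact hfz 0 h
  have hda' : (⟨H.d 0 h y, hda⟩ : (ker g).G q) ∈ (ker g).Z q := fun i t ht =>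
    Subtype.ext (by
      change H.d i ht (H.d 0 h y) = 0
      rw [← H.dd (Nat.zero_le i), hy i h, map_zero])
  have e1 : bdry g hg h ((Map.ofHom f).pi r (G.piMk r z)) =
      (ker g).piMk q ⟨⟨H.d 0 h y, hda⟩, hda'⟩ :=
    bdry_mk g hg h ⟨f.f r z.1, hfz⟩ y hy hyz ⟨⟨H.d 0 h y, hda⟩, hda'⟩ rfl
  rw [e1, Map.pi_mk]
  refine bdry_mk (pbFst f g) (pbFst_surj f g hg) h z ⟨(z.1, y), hyz.symm⟩ ?_ rfl _ ?_
  · intro i t ht
    exact Subtype.ext (Prod.ext (z.2 (i + 1) ht) (hy i ht))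
  · exact Subtype.ext (Prod.ext (z.2 0 h).symm rfl)

private theorem pb_sbb (f : Hom G E) (g : Hom H E) (hG : G.SBB) (hH : H.SBB) : (pb f g).SBB := by
  obtain ⟨m, hm⟩ := hG
  obtain ⟨n, hn⟩ := hH
  refine ⟨min m n, fun q hq x => ?_⟩
  exact Subtype.ext (Prod.ext (hm q (by omega) x.1.1) (hn q (by omega) x.1.2))

private theorem lf_below {X : PSp} {m : ℤ} (hX : ∀ q, q < m → ∀ x : X.X q, x = X.pt q) :
    X.F.Below m := by
  intro q hq x
  have h1 : (AddMonoidHom.id (FrG (X.X q) (X.pt q))) = 0 := by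
    refine FrG.hom_ext fun y => ?_
    rw [hX q hq y, FrG.of_pt, map_zero, map_zero]
  exact DFunLike.congr_fun h1 x

private theorem lf_cyl_sbb (c : Map G.U H) (hG : G.SBB) (hH : H.SBB) : c.Cyl.SBB := by
  obtain ⟨m, hm⟩ := hG
  obtain ⟨n, hn⟩ := hH
  refine ⟨min m (n - 1), lf_below fun q hq x => ?_⟩
  exact Prod.ext (hm q (by omega) x.1) (hn (q + 1) (by omega) x.2)

private theorem lf_F_sbb (hG : G.SBB) : G.U.F.SBB := by
  obtain ⟨m, hm⟩ := hG
  exact ⟨m, lf_below fun q hq x => hm q hq x⟩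

end pull

/-- **Splitting.**  Let `p : E → G` be a surjective homomorphism whose kernel has uniquely divisible
homotopy groups which inject into `π_* E`.  Then `p` has a section up to homotopy.
PROOF: `V_q = π_q (ker p)` is a rational vector space (`exists_ratModule`) and there are retractions
`ρ_q : π_q E → V_q` (`exists_retraction`); realise them by `a_q : E → EM V_q q` (`rat_exists`; take `V_q`
replaced by the zero group for `q` below the bound of `E`, where `V_q = 0` anyway), let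
`a : E → piG (EM V_q q)`.  `π_q (a.Fib) → π_q E` is injective with image `ker ρ_q` (`fib_exact_*`,
`piG.proj_bijective`, `EM.vanish`, `ρ_q` surjective), and `ker ρ_q → π_q G` is bijective; so
`a.Fib → E → G` is a weak equivalence; use `Map.WE.exists_inv`. -/
theorem rat_split {E G : GSp} (p : Hom E G) (hp : p.Surj) (hE : E.SBB)
    (hdiv : ∀ q (n : ℕ), 0 < n → Function.Bijective (fun x : (ker p).pi q => n • x))
    (hinj : ∀ q, Function.Injective ((Map.ofHom (kerIncl p)).pi q)) :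
    ∃ s : Map G.U E, HC.mk (Map.post p s) = HC.mk (Map.id G) := by
  obtain ⟨m, hm⟩ := hE
  have hmod : ∀ q, Nonempty (Module ℚ ((ker p).pi q)) := fun q => exists_ratModule (hdiv q)
  have hret : ∀ q, ∃ ρ : E.pi q →+ (ker p).pi q,
      ∀ v, ρ ((Map.ofHom (kerIncl p)).pi q v) = v := by
    intro q
    refine exists_retraction (fun n hn v => ?_) _ (hinj q)
    obtain ⟨w, hw⟩ := (hdiv q n hn).2 v
    exact ⟨w, hw.symm⟩
  choose ρ hρ using hret
  have hex : ∀ q, ∃ a : Map E.U (EM ((ker p).pi q) q),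
      ∀ x, EM.piHom ((ker p).pi q) q (a.pi q x) = ρ q x := by
    intro q
    obtain ⟨inst⟩ := hmod q
    exact rat_exists E ⟨m, hm⟩ q (ρ q)
  choose a ha using hex
  have hV : ∀ i, i < m → ∀ v : (ker p).pi i, v = 0 := by
    intro i hi
    refine vanish_iff.1 fun z _ => ?_
    have hz : z = 0 := Subtype.ext (hm i hi z.1)
    rw [hz]
    exact zero_mem _
  have hf : ∀ r : ℤ, {i : ℤ | ∃ x : (EM ((ker p).pi i) i).G r, x ≠ 0}.Finite := by
    intro r
    refine (Set.finite_Icc m r).subset ?_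
    rintro i ⟨x, hx⟩
    refine ⟨?_, ?_⟩
    · by_contra hi
      exact hx (Subtype.ext (funext fun f => hV i (not_le.1 hi) _))
    · by_contra hi
      exact hx (EMG.eq_zero_of_lt (not_le.1 hi) x)
  let A : GSp := piG (fun i => EM ((ker p).pi i) i) hf
  let c : Map E.U A := piG.toPiG hf a
  have hθ : ∀ q, Function.Bijective (fun y : A.pi q => EM.piHom ((ker p).pi q) q
      ((Map.ofHom (piG.proj (fun i => EM ((ker p).pi i) i) hf q)).pi q y)) := fun q =>
    (EM.piHom_bijective q).comp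
      (piG.proj_bijective q q fun i hi => EM.vanish (Ne.symm hi))
  have hθc : ∀ q x, EM.piHom ((ker p).pi q) q
      ((Map.ofHom (piG.proj (fun i => EM ((ker p).pi i) i) hf q)).pi q (c.pi q x)) = ρ q x := by
    intro q x
    have h1 := DFunLike.congr_fun
      (Map.pi_comp (Map.ofHom (piG.proj (fun i => EM ((ker p).pi i) i) hf q)) c q) x
    exact (congrArg (EM.piHom ((ker p).pi q) q) h1.symm).trans (ha q x)
  have hc0 : ∀ q x, c.pi q x = 0 ↔ ρ q x = 0 := by
    intro q x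
    rw [← hθc q x]
    constructor
    · intro h
      rw [h, map_zero, map_zero]
    · intro h
      apply (hθ q).1
      change EM.piHom _ q _ = EM.piHom _ q _
      rw [h, map_zero, map_zero]
  have hcs : ∀ q, Function.Surjective (c.pi q) := by
    intro q y
    refine ⟨(Map.ofHom (kerIncl p)).pi q (EM.piHom ((ker p).pi q) q
      ((Map.ofHom (piG.proj (fun i => EM ((ker p).pi i) i) hf q)).pi q y)), ?_⟩
    apply (hθ q).1
    change EM.piHom _ q _ = EM.piHom _ q _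
    rw [hθc, hρ]
  have hFi : ∀ q, Function.Injective ((Map.ofHom c.fibP).pi q) := by
    intro q
    rw [injective_iff_map_eq_zero]
    intro y hy
    obtain ⟨w, rfl⟩ := (c.fib_exact_Fib q y).1 hy
    exact (c.fib_exact_Om q w).2 (hcs (q + 1) (omPi A q w))
  have hFr : ∀ q x, ρ q x = 0 ↔ ∃ y : c.Fib.pi q, (Map.ofHom c.fibP).pi q y = x := fun q x =>
    (hc0 q x).symm.trans (c.fib_exact_G q x)
  have hps : ∀ q, Function.Surjective ((Map.ofHom p).pi q) := by
    intro q x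
    refine (exact_G p hp (show q - 1 + 1 = q by omega) x).1 ?_
    apply hinj (q - 1)
    rw [map_zero]
    exact (exact_K p hp (show q - 1 + 1 = q by omega) _).2 ⟨x, rfl⟩
  have hWE : (Map.comp (Map.ofHom p) (Map.ofHom c.fibP)).WE := by
    intro q
    rw [Map.pi_comp]
    constructor
    · rw [injective_iff_map_eq_zero]
      intro y hy
      obtain ⟨k, hk⟩ := (exact_E p hp _).1 hy
      have h1 : ρ q ((Map.ofHom c.fibP).pi q y) = 0 := (hFr q _).2 ⟨y, rfl⟩
      rw [← hk, hρ] at h1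
      rw [h1, map_zero] at hk
      apply hFi q
      rw [← hk, map_zero]
    · intro x
      obtain ⟨e, rfl⟩ := hps q x
      have h1 : ρ q (e - (Map.ofHom (kerIncl p)).pi q (ρ q e)) = 0 := by
        rw [map_sub, hρ, sub_self]
      obtain ⟨y, hy⟩ := (hFr q _).1 h1
      refine ⟨y, ?_⟩
      rw [AddMonoidHom.comp_apply, hy, map_sub,
        (exact_E p hp ((Map.ofHom (kerIncl p)).pi q (ρ q e))).2 ⟨_, rfl⟩, sub_zero]
  obtain ⟨v, hv, _⟩ := hWE.exists_inv
  exact ⟨Map.comp (Map.ofHom c.fibP) v, hv⟩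

/-- **Rational lifting.**  PROOF: let `c = ξ.cylP : Cyl ξ → Y` (surjective, `Cyl ξ ≃ X`), `K = ker c`; by
`exact_*` and the injectivity of `ξ_*`, `π_q K` is the cokernel of `π_{q+1} X → π_{q+1} Y`, uniquely
divisible.  `E = pb g.ext' c`, `e : E → B.U.F` the first projection, surjective, with kernel isomorphic
to `K`; `π_q (ker e) → π_q E` is injective: an element of the kernel is the boundary of some
`x ∈ π_{q+1} (B.U.F)`, which maps to the boundary in `π_q K` of `g_* x ∈ ξ_* π_{q+1} X`, i.e. to `0`.  Let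
`s` be a section of `e` up to homotopy (`rat_split`); `h` is the composite of `B.U.eta`, `s`,
`E → Cyl ξ` and a homotopy inverse of `ξ.cylI`. -/
theorem rat_lift {X B Y : GSp} (hX : X.SBB) (hB : B.SBB) (hY : Y.SBB) (ξ : Map X.U Y)
    (g : Map B.U Y) (hinj : ∀ q, Function.Injective (ξ.pi q))
    (hdiv : ∀ q (n : ℕ), 0 < n → ∀ y : Y.pi q, ∃ (z : Y.pi q) (x : X.pi q),
      y = n • z + ξ.pi q x)
    (htf : ∀ q (n : ℕ), 0 < n → ∀ (y : Y.pi q) (x : X.pi q), n • y = ξ.pi q x →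
      ∃ x' : X.pi q, y = ξ.pi q x')
    (him : ∀ q (b : B.pi q), ∃ x : X.pi q, g.pi q b = ξ.pi q x) :
    ∃ h : Map B.U X, HC.mk (Map.comp ξ h) = HC.mk g := by
  have hcs : ξ.cylP.Surj := ξ.cylP_surj
  have hcc : ∀ q (x : X.pi q), (Map.ofHom ξ.cylP).pi q (ξ.cylI.pi q x) = ξ.pi q x := by
    intro q x
    have h1 := DFunLike.congr_fun (Map.pi_comp (Map.ofHom ξ.cylP) ξ.cylI q) x
    rw [ξ.cylP_cylI] at h1
    exact h1.symm
  have hci : ∀ q, Function.Injective ((Map.ofHom ξ.cylP).pi q) := by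
    intro q x y hxy
    obtain ⟨x', rfl⟩ := (ξ.cylI_we q).2 x
    obtain ⟨y', rfl⟩ := (ξ.cylI_we q).2 y
    rw [hcc, hcc] at hxy
    rw [hinj q hxy]
  have hb0 : ∀ q (y : Y.pi (q + 1)),
      bdry ξ.cylP hcs rfl y = 0 ↔ ∃ x : X.pi (q + 1), ξ.pi (q + 1) x = y := by
    intro q y
    rw [exact_G ξ.cylP hcs (rfl : q + 1 = q + 1)]
    constructor
    · rintro ⟨e, rfl⟩
      obtain ⟨x, rfl⟩ := (ξ.cylI_we (q + 1)).2 e
      exact ⟨x, (hcc (q + 1) x).symm⟩
    · rintro ⟨x, rfl⟩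
      exact ⟨_, hcc (q + 1) x⟩
  have hbs : ∀ q (k : (ker ξ.cylP).pi q), ∃ y : Y.pi (q + 1), bdry ξ.cylP hcs rfl y = k := by
    intro q k
    refine (exact_K ξ.cylP hcs (rfl : q + 1 = q + 1) k).1 ?_
    apply hci q
    rw [map_zero]
    exact (exact_E ξ.cylP hcs _).2 ⟨k, rfl⟩
  have hKdiv : ∀ q (n : ℕ), 0 < n →
      Function.Bijective (fun x : (ker ξ.cylP).pi q => n • x) := by
    intro q n hn
    constructor
    · have h1 : ∀ k : (ker ξ.cylP).pi q, n • k = 0 → k = 0 := by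
        intro k hk
        obtain ⟨y, rfl⟩ := hbs q k
        rw [← map_nsmul, hb0] at hk
        obtain ⟨x, hx⟩ := hk
        obtain ⟨x', hx'⟩ := htf (q + 1) n hn y x hx.symm
        exact (hb0 q y).2 ⟨x', hx'.symm⟩
      intro k k' hkk
      have h2 : n • (k - k') = 0 := by
        rw [nsmul_sub]
        exact sub_eq_zero.2 hkk
      exact sub_eq_zero.1 (h1 _ h2)
    · intro k
      obtain ⟨y, rfl⟩ := hbs q k
      obtain ⟨z, x, hy⟩ := hdiv (q + 1) n hn y
      refine ⟨bdry ξ.cylP hcs rfl z, ?_⟩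
      change n • bdry ξ.cylP hcs rfl z = bdry ξ.cylP hcs rfl y
      rw [hy, map_add, map_nsmul, (hb0 q (ξ.pi (q + 1) x)).2 ⟨x, rfl⟩, add_zero]
  have hk'div : ∀ q (n : ℕ), 0 < n →
      Function.Bijective (fun x : (ker (pbFst g.ext' ξ.cylP)).pi q => n • x) := by
    intro q n hn
    have h1 := pbK_we g.ext' ξ.cylP q
    have h2 := h1.comp (hKdiv q n hn)
    have h3 : (Map.ofHom (pbK g.ext' ξ.cylP)).pi q ∘ (fun x : (ker ξ.cylP).pi q => n • x) =
        (fun x : (ker (pbFst g.ext' ξ.cylP)).pi q => n • x) ∘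
          (Map.ofHom (pbK g.ext' ξ.cylP)).pi q := by
      funext x
      exact map_nsmul _ n x
    rw [h3] at h2
    exact (Function.Bijective.of_comp_iff _ h1).1 h2
  have hk'inj : ∀ q, Function.Injective
      ((Map.ofHom (kerIncl (pbFst g.ext' ξ.cylP))).pi q) := by
    intro q
    rw [injective_iff_map_eq_zero]
    intro k hk
    obtain ⟨x, rfl⟩ := (exact_K (pbFst g.ext' ξ.cylP) (pbFst_surj g.ext' ξ.cylP hcs)
      (rfl : q + 1 = q + 1) k).1 hk
    obtain ⟨b, rfl⟩ := (GSp.eta_we B (q + 1)).2 x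
    obtain ⟨x', hx'⟩ := him (q + 1) b
    rw [pb_bdry g.ext' ξ.cylP hcs rfl]
    have h1 : (Map.ofHom g.ext').pi (q + 1) ((PSp.eta B.U).pi (q + 1) b) = g.pi (q + 1) b := by
      have h2 := DFunLike.congr_fun (Map.pi_comp (Map.ofHom g.ext') (PSp.eta B.U) (q + 1)) b
      have h3 : Map.comp (Map.ofHom g.ext') (PSp.eta B.U) = g := g.post_ext'_eta
      rw [h3] at h2
      exact h2.symm
    rw [h1, (hb0 q _).2 ⟨x', hx'.symm⟩, map_zero]
  obtain ⟨s, hs⟩ := rat_split (pbFst g.ext' ξ.cylP) (pbFst_surj g.ext' ξ.cylP hcs)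
    (pb_sbb g.ext' ξ.cylP (lf_F_sbb hB) (lf_cyl_sbb ξ hX hY)) hk'div hk'inj
  obtain ⟨v, hv, _⟩ := ξ.cylI_we.exists_inv
  let t : Map B.U ξ.Cyl := Map.comp (Map.ofHom (pbSnd g.ext' ξ.cylP)) (Map.comp s (PSp.eta B.U))
  refine ⟨Map.comp v t, ?_⟩
  have e1 : Map.comp ξ (Map.comp v t) =
      Map.comp (Map.ofHom ξ.cylP) (Map.comp ξ.cylI (Map.comp v t)) :=
    congrArg (fun z => Map.comp z (Map.comp v t)) ξ.cylP_cylI.symm
  have e2 : HC.mk (Map.comp ξ.cylI (Map.comp v t)) = HC.mk t :=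
    DFunLike.congr_fun (HC.comp_congr (X := B.U) hv) (HC.mk t)
  have e3 : HC.mk (Map.comp (Map.ofHom ξ.cylP) (Map.comp ξ.cylI (Map.comp v t))) =
      HC.mk (Map.comp (Map.ofHom ξ.cylP) t) := congrArg (HC.comp (Map.ofHom ξ.cylP)) e2
  have e4 : Map.comp (Map.ofHom ξ.cylP) t = Map.comp (Map.ofHom g.ext')
      (Map.comp (Map.ofHom (pbFst g.ext' ξ.cylP)) (Map.comp s (PSp.eta B.U))) :=
    Map.ext2 fun q x => (s.f q ((PSp.eta B.U).f q x)).2.symm
  have e5 : HC.mk (Map.comp (Map.ofHom (pbFst g.ext' ξ.cylP)) (Map.comp s (PSp.eta B.U))) =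
      HC.mk (PSp.eta B.U) :=
    DFunLike.congr_fun (HC.comp_congr (X := B.U) hs) (HC.mk (PSp.eta B.U))
  have e6 : HC.mk (Map.comp (Map.ofHom g.ext')
      (Map.comp (Map.ofHom (pbFst g.ext' ξ.cylP)) (Map.comp s (PSp.eta B.U)))) =
      HC.mk (Map.comp (Map.ofHom g.ext') (PSp.eta B.U)) :=
    congrArg (HC.comp (Map.ofHom g.ext')) e5
  have e7 : Map.comp (Map.ofHom g.ext') (PSp.eta B.U) = g := g.post_ext'_eta
  rw [e1, e3, e4, e6, e7]

end BPN
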