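import Pool.Agent.BPN.S.Ext

/-!
# Normalisation for levelwise abelian group spectra (project BPN, module R/DK)
-/

namespace BPN

namespace GSp

/-- `∑_{i < m} s_i (y i)` -/
private def dkS (A : GSp) {q r : ℤ} (h : q + 1 = r) (y : ℕ → A.G q) : ℕ → A.G r
  | 0 => 0
  | m + 1 => dkS A h y m + A.s m h (y m)

private theorem dk_comm4 {G : Type} [AddGroup G] (hc : ∀ x y : G, x + y = y + x) (a b c d : G) :
    a + b + (c + d) = (a + c) + (b + d) := by
  rw [← add_assoc, add_assoc a b c, hc b c, ← add_assoc, add_assoc]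

private theorem dkS_d (A : GSp) {t q r : ℤ} (h₁ : t + 1 = q) (h₂ : q + 1 = r) (m : ℕ)
    (y : ℕ → A.G q) (n : ℕ) (hn : n ≤ m) :
    A.d (m + 1) h₂ (dkS A h₂ y n) = dkS A h₁ (fun i => A.d m h₁ (y i)) n := by
  induction n with
  | zero => exact map_zero _
  | succ n ih =>
    change A.d (m + 1) h₂ (dkS A h₂ y n + A.s n h₂ (y n)) =
      dkS A h₁ (fun i => A.d m h₁ (y i)) n + A.s n h₁ (A.d m h₁ (y n))
    rw [map_add, ih (by omega), A.ds_gt (by omega : n < m) h₁ h₂]

private theorem dkS_s (A : GSp) {t q r : ℤ} (h₁ : t + 1 = q) (h₂ : q + 1 = r) (m : ℕ)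
    (z : ℕ → A.G t) (n : ℕ) (hn : n ≤ m) :
    A.s m h₂ (dkS A h₁ z n) = dkS A h₂ (fun i => A.s (m - 1) h₁ (z i)) n := by
  induction n with
  | zero => exact map_zero _
  | succ n ih =>
    change A.s m h₂ (dkS A h₁ z n + A.s n h₁ (z n)) =
      dkS A h₂ (fun i => A.s (m - 1) h₁ (z i)) n + A.s n h₂ (A.s (m - 1) h₁ (z n))
    obtain ⟨j, rfl⟩ : ∃ j, m = j + 1 := ⟨m - 1, by omega⟩
    rw [map_add, ih (by omega), Nat.add_sub_cancel, A.ss (by omega : n ≤ j) h₁ h₂ (z n)]

private theorem dkS_add (A : GSp) (hc : ∀ q (x y : A.G q), x + y = y + x) {q r : ℤ}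
    (h : q + 1 = r) (y z : ℕ → A.G q) (n : ℕ) :
    dkS A h y n + dkS A h z n = dkS A h (fun i => y i + z i) n := by
  induction n with
  | zero => exact add_zero _
  | succ n ih =>
    change dkS A h y n + A.s n h (y n) + (dkS A h z n + A.s n h (z n)) =
      dkS A h (fun i => y i + z i) n + A.s n h (y n + z n)
    rw [dk_comm4 (hc r), ih, map_add]

private theorem dkS_neg (A : GSp) (hc : ∀ q (x y : A.G q), x + y = y + x) {q r : ℤ}
    (h : q + 1 = r) (y : ℕ → A.G q) (n : ℕ) :
    -dkS A h y n = dkS A h (fun i => -y i) n := by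
  induction n with
  | zero => exact neg_zero
  | succ n ih =>
    change -(dkS A h y n + A.s n h (y n)) = dkS A h (fun i => -y i) n + A.s n h (-y n)
    rw [hc r (dkS A h y n), neg_add_rev, ih, map_neg]

private theorem dkS_zero (A : GSp) {q r : ℤ} (h : q + 1 = r) (y : ℕ → A.G q) (n : ℕ)
    (hy : ∀ i, i < n → y i = 0) : dkS A h y n = 0 := by
  induction n with
  | zero => rfl
  | succ n ih =>
    change dkS A h y n + A.s n h (y n) = 0
    rw [ih fun i hi => hy i (by omega), hy n (by omega), map_zero, add_zero]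

private theorem dkS_pad (A : GSp) {q r : ℤ} (h : q + 1 = r) (y : ℕ → A.G q) (m : ℕ)
    (hy : ∀ i, m ≤ i → y i = 0) (n : ℕ) (hn : m ≤ n) : dkS A h y n = dkS A h y m := by
  induction n with
  | zero =>
    obtain rfl : m = 0 := by omega
    rfl
  | succ n ih =>
    rcases Nat.eq_or_lt_of_le hn with h1 | h1
    · rw [h1]
    · change dkS A h y n + A.s n h (y n) = dkS A h y m
      rw [ih (by omega), hy n (by omega), map_zero, add_zero]

private theorem dk_mem (A : GSp) (hc : ∀ q (x y : A.G q), x + y = y + x) {q r : ℤ}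
    (h : q + 1 = r) (x : A.G r)
    (hD : x ∈ AddSubgroup.closure {z | ∃ (i : ℕ) (y : A.G q), z = A.s i h y}) :
    ∃ (m : ℕ) (y : ℕ → A.G q), (∀ i, m ≤ i → y i = 0) ∧ x = dkS A h y m := by
  induction hD using AddSubgroup.closure_induction with
  | mem x hx =>
    obtain ⟨i, y, rfl⟩ := hx
    refine ⟨i + 1, fun j => if j = i then y else 0, fun j hj => if_neg (by omega), ?_⟩
    change A.s i h y = dkS A h (fun j => if j = i then y else 0) i +
      A.s i h (if i = i then y else 0)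
    rw [dkS_zero A h _ i (fun j hj => if_neg (by omega)), if_pos rfl, zero_add]
  | zero => exact ⟨0, fun _ => 0, fun _ _ => rfl, rfl⟩
  | add x x' _ _ ih ih' =>
    obtain ⟨m, y, h1, rfl⟩ := ih
    obtain ⟨m', y', h1', rfl⟩ := ih'
    refine ⟨max m m', fun i => y i + y' i, fun i hi => ?_, ?_⟩
    · change y i + y' i = 0
      rw [h1 i (le_trans (le_max_left _ _) hi), h1' i (le_trans (le_max_right _ _) hi), add_zero]
    · rw [← dkS_add A hc, dkS_pad A h y m h1 _ (le_max_left _ _),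
        dkS_pad A h y' m' h1' _ (le_max_right _ _)]
  | neg x _ ih =>
    obtain ⟨m, y, h1, rfl⟩ := ih
    refine ⟨m, fun i => -y i, fun i hi => ?_, dkS_neg A hc h y m⟩
    change -y i = 0
    rw [h1 i hi, neg_zero]

private theorem dk_sum (A : GSp) (hc : ∀ q (x y : A.G q), x + y = y + x) {q r : ℤ}
    (h : q + 1 = r) (m : ℕ) (y : ℕ → A.G q) (hx : dkS A h y m ∈ A.N r) : dkS A h y m = 0 := by
  obtain ⟨t, ht⟩ : ∃ t : ℤ, t + 1 = q := ⟨q - 1, by omega⟩
  induction m generalizing y with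
  | zero => rfl
  | succ m ih =>
    have h1 : A.d (m + 1) h (dkS A h y m + A.s m h (y m)) = 0 := hx m h
    rw [map_add, A.ds_succ, dkS_d A ht h m y m le_rfl] at h1
    have h2 : y m = -dkS A ht (fun i => A.d m ht (y i)) m := eq_neg_of_add_eq_zero_right h1
    have h3 : dkS A h y (m + 1) =
        dkS A h (fun i => y i + -A.s (m - 1) ht (A.d m ht (y i))) m := by
      change dkS A h y m + A.s m h (y m) = _
      rw [h2, map_neg, dkS_s A ht h m _ m le_rfl, dkS_neg A hc, dkS_add A hc]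
    rw [h3] at hx ⊢
    exact ih _ hx

/-- **Degenerate Moore chains vanish.**  Let `A` be levelwise commutative.  A Moore chain which is a sum
of degenerate elements is `0`.  PROOF: as `LSp.N_sum` / `LSp.N_inf_D` in L/LSp (with `red1`, `red2`,
`red3`): write `x = ∑_{i < n} s_i y_i` with `n` minimal; `d_n x = 0` (Moore chain, `n ≥ 1`) allows one to
eliminate the last term. -/
theorem N_eq_zero (A : GSp) (hc : ∀ q (x y : A.G q), x + y = y + x) {q r : ℤ} (h : q + 1 = r)
    (x : A.G r) (hx : x ∈ A.N r)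
    (hD : x ∈ AddSubgroup.closure {z | ∃ (i : ℕ) (y : A.G q), z = A.s i h y}) : x = 0 := by
  obtain ⟨m, y, -, rfl⟩ := dk_mem A hc h x hD
  exact dk_sum A hc h m y hx

/-- If all elements of degree `r` are sums of degenerate ones then `π_r = 0`, and all boundaries in degree
`q`, `q + 1 = r`, vanish. -/
theorem vanish_of_deg (A : GSp) (hc : ∀ q (x y : A.G q), x + y = y + x) {q r : ℤ}
    (h : q + 1 = r)
    (hD : ∀ x : A.G r, x ∈ AddSubgroup.closure {z | ∃ (i : ℕ) (y : A.G q), z = A.s i h y}) :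
    A.Vanish r ∧ ∀ x ∈ A.B q, x = 0 := by
  constructor
  · intro z hz
    rw [A.N_eq_zero hc h z (fun i t ht => hz (i + 1) ht) (hD z)]
    exact zero_mem _
  · subst h
    rintro _ ⟨y, hy, rfl⟩
    rw [A.N_eq_zero hc rfl y hy (hD y), map_zero]

end GSp

end BPN
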