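import Mathlib

/-!
# Divisible groups (project BPN, module R/Div)
-/

namespace BPN

/-- **Divisible groups are injective** (Mathlib: `AddCommGrpCat.injective_of_divisible`, or Baer's
criterion `Module.Baer`). -/
theorem exists_ext_div {A B V : Type} [AddCommGroup A] [AddCommGroup B] [AddCommGroup V]
    (hV : ∀ n : ℕ, 0 < n → ∀ v : V, ∃ w : V, v = n • w) (i : A →+ B)
    (hi : Function.Injective i) (φ : A →+ V) : ∃ ψ : B →+ V, ∀ a, ψ (i a) = φ a := by
  classical
  let _ : DivisibleBy V ℤ := divisibleByOfSMulRightSurj V ℤ (by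
    intro n hn v
    obtain ⟨w, hw⟩ := hV n.natAbs (Int.natAbs_pos.2 hn) v
    rcases Int.natAbs_eq n with h | h
    · refine ⟨w, ?_⟩
      simp only []
      rw [h, natCast_zsmul, ← hw]
    · refine ⟨-w, ?_⟩
      simp only []
      rw [h, neg_smul, smul_neg, neg_neg, natCast_zsmul, ← hw])
  obtain ⟨h, hh⟩ := Module.Baer.extension_property_addMonoidHom (Module.Baer.of_divisible V) i hi φ
  exact ⟨h, fun a => by rw [← hh]; rfl⟩

theorem exists_retraction {B V : Type} [AddCommGroup B] [AddCommGroup V]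
    (hV : ∀ n : ℕ, 0 < n → ∀ v : V, ∃ w : V, v = n • w) (i : V →+ B)
    (hi : Function.Injective i) : ∃ ρ : B →+ V, ∀ v, ρ (i v) = v :=
  exists_ext_div hV i hi (AddMonoidHom.id V)

/-- A uniquely divisible group is a rational vector space. -/
theorem exists_ratModule {V : Type} [AddCommGroup V]
    (h : ∀ n : ℕ, 0 < n → Function.Bijective (fun v : V => n • v)) : Nonempty (Module ℚ V) := by
  classical
  have hb : ∀ n : ℤ, n ≠ 0 → Function.Bijective (fun v : V => n • v) := by
    intro n hn
    have h1 := h n.natAbs (Int.natAbs_pos.2 hn)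
    rcases Int.natAbs_eq n with h2 | h2
    · have h3 : (fun v : V => n • v) = fun v : V => n.natAbs • v := by
        funext v
        conv_lhs => rw [h2]
        exact natCast_zsmul _ _
      rw [h3]
      exact h1
    · have h3 : (fun v : V => n • v) = (fun v => -v) ∘ fun v : V => n.natAbs • v := by
        funext v
        conv_lhs => rw [h2]
        rw [neg_smul, natCast_zsmul]
        rfl
      rw [h3]
      exact (Equiv.neg V).bijective.comp h1
  have : IsLocalizedModule (nonZeroDivisors ℤ) (LinearMap.id : V →ₗ[ℤ] V) := by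
    refine ⟨fun x => ?_, fun y => ⟨(y, 1), ?_⟩, fun {x₁ x₂} hx => ⟨1, ?_⟩⟩
    · rw [Module.End.isUnit_iff]
      exact hb x.1 (nonZeroDivisors.ne_zero x.2)
    · simp
    · simpa using hx
  exact ⟨IsLocalizedModule.module (nonZeroDivisors ℤ) (A := ℚ) (LinearMap.id : V →ₗ[ℤ] V)⟩

theorem div_of_rat {V : Type} [AddCommGroup V] [Module ℚ V] (n : ℕ) (hn : 0 < n) (v : V) :
    ∃ w : V, v = n • w := by
  refine ⟨(n : ℚ)⁻¹ • v, ?_⟩
  rw [← Nat.cast_smul_eq_nsmul ℚ n, smul_smul, mul_inv_cancel₀, one_smul]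
  exact_mod_cast hn.ne'

end BPN
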