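import Pool.Agent.BPN.R.Gen

/-!
# Group completion (project BPN, module R/Gc)
-/

namespace BPN

open GSp Classical

/-- The inclusion of free commutative monoids into free abelian groups. -/
noncomputable def Fc.cast {X : Type} {x₀ : X} : Fc ℕ X x₀ →+ Fc ℤ X x₀ :=
  Finsupp.mapRange.addMonoidHom (Nat.castAddMonoidHom ℤ)

theorem Fc.cast_of {X : Type} {x₀ : X} (x : X) (n : ℕ) :
    Fc.cast (Fc.of x₀ x n) = Fc.of x₀ x (n : ℤ) := by
  by_cases h : x = x₀
  · subst h
    rw [Fc.of_pt, Fc.of_pt, map_zero]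
  · rw [Fc.of_ne h, Fc.of_ne h, Fc.cast, Finsupp.mapRange.addMonoidHom_apply,
      Finsupp.mapRange_single]
    rfl

theorem Fc.cast_map {X Y : Type} {x₀ : X} {y₀ : Y} (f : X → Y) (hf : f x₀ = y₀)
    (x : Fc ℕ X x₀) : Fc.cast (Fc.map (y₀ := y₀) f x) = Fc.map (y₀ := y₀) f (Fc.cast x) := by
  refine DFunLike.congr_fun (f := (Fc.cast).comp (Fc.map f)) (g := (Fc.map f).comp Fc.cast)
    (Fc.hom_ext fun x n => ?_) x
  rw [AddMonoidHom.comp_apply, AddMonoidHom.comp_apply, Fc.map_of f hf, Fc.cast_of, Fc.cast_of,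
    Fc.map_of f hf]

/-- The positive part. -/
noncomputable def Fc.pos {X : Type} {x₀ : X} (z : Fc ℤ X x₀) : Fc ℕ X x₀ :=
  z.mapRange (fun n : ℤ => n.toNat) (by simp)

/-- The negative part. -/
noncomputable def Fc.neg {X : Type} {x₀ : X} (z : Fc ℤ X x₀) : Fc ℕ X x₀ :=
  z.mapRange (fun n : ℤ => (-n).toNat) (by simp)

theorem Fc.pos_sub_neg {X : Type} {x₀ : X} (z : Fc ℤ X x₀) :
    Fc.cast z.pos - Fc.cast z.neg = z := by
  refine Finsupp.ext fun x => ?_
  change ((z x).toNat : ℤ) - ((-(z x)).toNat : ℤ) = z x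
  omega

theorem Fc.pos_inf {X : Type} {x₀ : X} (a b : Fc ℕ X x₀) :
    (Fc.cast a - Fc.cast b).pos + a ⊓ b = a := by
  refine Finsupp.ext fun x => ?_
  have h1 : (a ⊓ b) x = a x ⊓ b x := Finsupp.inf_apply a b x
  change ((a x : ℤ) - (b x : ℤ)).toNat + (a ⊓ b) x = a x
  rw [h1]
  omega

theorem Fc.neg_inf {X : Type} {x₀ : X} (a b : Fc ℕ X x₀) :
    (Fc.cast a - Fc.cast b).neg + a ⊓ b = b := by
  refine Finsupp.ext fun x => ?_
  have h1 : (a ⊓ b) x = a x ⊓ b x := Finsupp.inf_apply a b x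
  change (-((a x : ℤ) - (b x : ℤ))).toNat + (a ⊓ b) x = b x
  rw [h1]
  omega

theorem Fc.free {X : Type} {x₀ : X} (a b : Fc ℕ X x₀) :
    ∃! m : Fc ℕ X x₀, ((Fc.cast a - Fc.cast b).pos + m, (Fc.cast a - Fc.cast b).neg + m) =
      (a, b) := by
  refine ⟨a ⊓ b, Prod.ext (Fc.pos_inf a b) (Fc.neg_inf a b), fun m hm => ?_⟩
  have h1 : (Fc.cast a - Fc.cast b).pos + m = a := congrArg Prod.fst hm
  exact add_left_cancel (h1.trans (Fc.pos_inf a b).symm)

theorem Fc.cast_act {X : Type} {x₀ : X} (a b m : Fc ℕ X x₀) :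
    Fc.cast (a + m) - Fc.cast (b + m) = Fc.cast a - Fc.cast b := by
  rw [map_add, map_add, add_sub_add_right_eq_sub]

theorem Fc.cast_mapRange {X : Type} {x₀ : X} (x : Fc ℕ X x₀) :
    x.mapRange (fun n : ℕ => (n : ℤ)) (by simp) = Fc.cast x := rfl

/-- The free action of `N~[X]` on `N~[X] × N~[X]` by the diagonal; the quotient is `Z~[X]`, the
projection is `(a, b) ↦ a - b`, the section `z ↦ (z⁺, z⁻)`.  PROOF of `free`: `(a, b) =
((a - b)⁺ + c, (a - b)⁻ + c)` for exactly one `c`, namely `c = a ⊓ b` (pointwise minimum). -/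
noncomputable def gcAct (X : PSp) :
    FreeAct (nl X) (PSp.prodP (nl X).U (nl X).U) (zl X).U where
  act := fun q x m => ((x.1 + m : Fc ℕ (X.X q) (X.pt q)), (x.2 + m : Fc ℕ (X.X q) (X.pt q)))
  act_zero := fun q x => Prod.ext (add_zero (x.1 : Fc ℕ (X.X q) (X.pt q))) (add_zero x.2)
  act_add := fun q x m m' => Prod.ext (add_assoc (x.1 : Fc ℕ (X.X q) (X.pt q)) m m').symm
    (add_assoc (x.2 : Fc ℕ (X.X q) (X.pt q)) m m').symm
  act_d := fun i _ _ h x m => Prod.ext (map_add ((nl X).d i h) x.1 m)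
    (map_add ((nl X).d i h) x.2 m)
  act_s := fun i _ _ h x m => Prod.ext (map_add ((nl X).s i h) x.1 m)
    (map_add ((nl X).s i h) x.2 m)
  π :=
    { f := fun q x =>
        ((x.1 : Fc ℕ (X.X q) (X.pt q)).mapRange (fun n : ℕ => (n : ℤ)) (by simp) -
          (x.2 : Fc ℕ (X.X q) (X.pt q)).mapRange (fun n : ℕ => (n : ℤ)) (by simp) :
          Fc ℤ (X.X q) (X.pt q))
      map_pt := fun q => by
        change Fc.cast (0 : Fc ℕ (X.X q) (X.pt q)) - Fc.cast (0 : Fc ℕ (X.X q) (X.pt q)) = 0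
        rw [sub_self]
      map_d := fun i q r h x => by
        have h1 : ∀ y : Fc ℕ (X.X r) (X.pt r), Fc.cast (Fc.map (y₀ := X.pt q) (X.d i h) y) =
          Fc.map (y₀ := X.pt q) (X.d i h) (Fc.cast y) := Fc.cast_map _ (X.d_pt i h)
        change Fc.cast (Fc.map (y₀ := X.pt q) (X.d i h) x.1) -
          Fc.cast (Fc.map (y₀ := X.pt q) (X.d i h) x.2) =
          Fc.map (y₀ := X.pt q) (X.d i h) (Fc.cast x.1 - Fc.cast x.2)
        rw [h1, h1, map_sub]
      map_s := fun i q r h x => by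
        have h1 : ∀ y : Fc ℕ (X.X q) (X.pt q), Fc.cast (Fc.map (y₀ := X.pt r) (X.s i h) y) =
          Fc.map (y₀ := X.pt r) (X.s i h) (Fc.cast y) := Fc.cast_map _ (X.s_pt i h)
        change Fc.cast (Fc.map (y₀ := X.pt r) (X.s i h) x.1) -
          Fc.cast (Fc.map (y₀ := X.pt r) (X.s i h) x.2) =
          Fc.map (y₀ := X.pt r) (X.s i h) (Fc.cast x.1 - Fc.cast x.2)
        rw [h1, h1, map_sub] }
  π_act := fun q x m => Fc.cast_act x.1 x.2 m
  t := fun q z => ((z : Fc ℤ (X.X q) (X.pt q)).mapRange (fun n : ℤ => n.toNat) (by simp),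
    (z : Fc ℤ (X.X q) (X.pt q)).mapRange (fun n : ℤ => (-n).toNat) (by simp))
  t_pt := fun q => Prod.ext (Finsupp.ext fun _ => rfl) (Finsupp.ext fun _ => rfl)
  π_t := fun q z => Fc.pos_sub_neg z
  free := fun q x => Fc.free x.1 x.2

private theorem gx {k : Type} [Field k] {X : PSp} {q : ℤ} {V : Type} [AddCommGroup V]
    [Module k V] {f g : (lin k X).V q →ₗ[k] V}
    (h : ∀ x : X.X q, f (Fr.of k (X.pt q) x) = g (Fr.of k (X.pt q) x)) : f = g := Fr.hom_ext h

/-- **Abstract form.**  Let `M` act freely on `E` with quotient `Y`, and let `φ : E → M` be a map of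
pointed-set spectra (not equivariant) which is a retraction of the orbit map of the base point.  If
the homology of `E` vanishes in degree `m`, so does that of `Y`. -/
theorem FreeAct.vanish_of (k : Type) [Field k] {M : MSp} {E Y : PSp} (A : FreeAct M E Y)
    (hE : ∃ b : ℤ, ∀ q, q < b → ∀ x : E.X q, x = E.pt q) (φ : PSp.Hom E M.U)
    (hφ : ∀ q m, φ.f q (A.orb.f q m) = m) {m : ℤ} (h : (lin k E).toG.Vanish m) :
    (lin k Y).toG.Vanish m := by
  obtain ⟨r, rfl⟩ : ∃ r, m = r + 1 := ⟨m - 1, by omega⟩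
  have hp : (linMap k A.π).toG.Surj := by
    intro q z
    have h1 : LinearMap.range ((linMap k A.π).f q) = ⊤ := by
      rw [← Submodule.ker_mkQ (LinearMap.range ((linMap k A.π).f q)),
        LinearMap.ker_eq_top]
      refine gx fun y => ?_
      rw [LinearMap.zero_apply, Submodule.mkQ_apply, Submodule.Quotient.mk_eq_zero]
      refine ⟨Fr.of k (E.pt q) (A.t q y), ?_⟩
      rw [linMap_of, A.π_t]
    have h2 : z ∈ LinearMap.range ((linMap k A.π).f q) := by
      rw [h1]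
      trivial
    exact h2
  -- the retraction
  have hret : ∀ q (w : (lin k M.U).V q), (linMap k φ).f q ((linMap k A.orb).f q w) = w := by
    intro q w
    refine DFunLike.congr_fun (f := ((linMap k φ).f q).comp ((linMap k A.orb).f q))
      (g := LinearMap.id) (gx fun x => ?_) w
    rw [LinearMap.comp_apply, LinearMap.id_apply, linMap_of, linMap_of, hφ]
  have hpo : ∀ q (w : (lin k M.U).V q), (linMap k A.π).f q ((linMap k A.orb).f q w) = 0 := by
    intro q w
    refine DFunLike.congr_fun (f := ((linMap k A.π).f q).comp ((linMap k A.orb).f q))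
      (g := 0) (gx fun x => ?_) w
    rw [LinearMap.comp_apply, LinearMap.zero_apply, linMap_of, linMap_of]
    have h1 : A.π.f q (A.orb.f q x) = Y.pt q := A.pt_act q x
    rw [h1, Fr.of_pt]
    rfl
  intro z hz
  obtain ⟨y, hyN, hyz⟩ := exists_N_lift (linMap k A.π).toG hp z (fun i t ht => hz (i + 1) ht)
  have hyz' : (linMap k A.π).f (r + 1) y = z := hyz
  have hyN' : ∀ (i : ℕ) {t : ℤ} (ht : t + 1 = r + 1), (lin k E).d (i + 1) ht y = 0 :=
    fun i t ht => hyN i ht
  -- the boundary of `y` as an element of `R`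
  obtain ⟨x, hx⟩ : ∃ x : (A.R k).V r, (linMap k A.π).kerS.incl.f r x = (lin k E).d 0 rfl y := by
    refine ⟨⟨(lin k E).d 0 rfl y, ?_⟩, rfl⟩
    change (linMap k A.π).f r ((lin k E).d 0 rfl y) = 0
    rw [(linMap k A.π).map_d, hyz']
    exact hz 0 rfl
  have hinj : ∀ q (a b : (A.R k).V q), (linMap k A.π).kerS.incl.f q a =
      (linMap k A.π).kerS.incl.f q b → a = b := fun q a b hab => Subtype.ext hab
  have hi0 : ∀ q, (linMap k A.π).kerS.incl.f q (0 : (A.R k).V q) = 0 :=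
    fun q => map_zero ((linMap k A.π).kerS.incl.f q)
  have hxZ : ∀ (i : ℕ) {t : ℤ} (ht : t + 1 = r), (A.R k).d i ht x = 0 := by
    intro i t ht
    apply hinj
    have h1 : (linMap k A.π).kerS.incl.f t ((A.R k).d i ht x) =
      (lin k E).d i ht ((linMap k A.π).kerS.incl.f r x) := (linMap k A.π).kerS.incl.map_d i ht x
    rw [h1, hx, hi0, ← (lin k E).dd (Nat.zero_le i) ht rfl y, hyN' i rfl, map_zero]
  obtain ⟨v, hvN, hv⟩ := A.quot_acyclic k hE r ((A.R₀ k).proj.f r x) (fun i t ht => by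
    change (A.R₀ k).quot.d i ht ((A.R₀ k).proj.f r x) = 0
    rw [← (A.R₀ k).proj.map_d, hxZ i ht, map_zero])
  have hv' : (A.R₀ k).quot.d 0 rfl v = (A.R₀ k).proj.f r x := hv
  obtain ⟨u, huN, huv⟩ := exists_N_lift (A.R₀ k).proj.toG
    (fun q => Submodule.mkQ_surjective ((A.R₀ k).S q)) v hvN
  have huv' : (A.R₀ k).proj.f (r + 1) u = v := huv
  have hmem : x - (A.R k).d 0 rfl u ∈ (A.R₀ k).S r := by
    rw [← Submodule.Quotient.mk_eq_zero]
    have h1 : (A.R₀ k).proj.f r (x - (A.R k).d 0 rfl u) = 0 := by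
      rw [map_sub, (A.R₀ k).proj.map_d, huv', hv', sub_self]
    exact h1
  obtain ⟨w, hw⟩ : ∃ w, (linMap k A.orb).f r w =
      (linMap k A.π).kerS.incl.f r (x - (A.R k).d 0 rfl u) := hmem
  -- change `y`
  obtain ⟨y', hy'⟩ : ∃ y' : (lin k E).V (r + 1),
      y' = y - (linMap k A.π).kerS.incl.f (r + 1) u := ⟨_, rfl⟩
  have hy'N : ∀ (i : ℕ) {t : ℤ} (ht : t + 1 = r + 1), (lin k E).d (i + 1) ht y' = 0 := by
    intro i t ht
    have h1 : (A.R k).d (i + 1) ht u = 0 := huN i ht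
    have h2 : (linMap k A.π).kerS.incl.f t ((A.R k).d (i + 1) ht u) =
      (lin k E).d (i + 1) ht ((linMap k A.π).kerS.incl.f (r + 1) u) :=
      (linMap k A.π).kerS.incl.map_d (i + 1) ht u
    rw [hy', map_sub, hyN' i ht, ← h2, h1, hi0, sub_zero]
  have hy'z : (linMap k A.π).f (r + 1) y' = z := by
    have h1 : (linMap k A.π).f (r + 1) ((linMap k A.π).kerS.incl.f (r + 1) u) = 0 := u.2
    rw [hy', map_sub, hyz', h1, sub_zero]
  have hy'd : (lin k E).d 0 rfl y' = (linMap k A.orb).f r w := by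
    have h2 : (linMap k A.π).kerS.incl.f r ((A.R k).d 0 rfl u) =
      (lin k E).d 0 rfl ((linMap k A.π).kerS.incl.f (r + 1) u) :=
      (linMap k A.π).kerS.incl.map_d 0 rfl u
    have h3 : (linMap k A.π).kerS.incl.f r (x - (A.R k).d 0 rfl u) =
      (linMap k A.π).kerS.incl.f r x - (linMap k A.π).kerS.incl.f r ((A.R k).d 0 rfl u) :=
      map_sub ((linMap k A.π).kerS.incl.f r) x ((A.R k).d 0 rfl u)
    rw [hw, h3, hx, h2, hy', map_sub]
  have hwf : w = (lin k M.U).d 0 rfl ((linMap k φ).f (r + 1) y') := by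
    rw [← (linMap k φ).map_d, hy'd, hret]
  -- change `y'`
  obtain ⟨y'', hy''⟩ : ∃ y'' : (lin k E).V (r + 1),
      y'' = y' - (linMap k A.orb).f (r + 1) ((linMap k φ).f (r + 1) y') := ⟨_, rfl⟩
  have hy''z : (linMap k A.π).f (r + 1) y'' = z := by
    rw [hy'', map_sub, hy'z, hpo, sub_zero]
  have hZ : ∀ (i : ℕ) {t : ℤ} (ht : t + 1 = r + 1), (lin k E).d i ht y'' = 0 := by
    intro i t ht
    rw [hy'', map_sub, ← (linMap k A.orb).map_d, ← (linMap k φ).map_d]
    rcases i with _ | i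
    · obtain rfl : t = r := by omega
      rw [hy'd, hret, sub_self]
    · rw [hy'N i ht, map_zero, map_zero, sub_zero]
  obtain ⟨g, hg, hgy⟩ := h y'' (fun i t ht => hZ i ht)
  have hgy' : (lin k E).d 0 rfl g = y'' := hgy
  refine ⟨(linMap k A.π).f (r + 1 + 1) g, fun i t ht => ?_, ?_⟩
  · have h1 : (lin k E).d (i + 1) ht g = 0 := hg i ht
    have h2 : (lin k Y).d (i + 1) ht ((linMap k A.π).f (r + 1 + 1) g) = 0 := by
      rw [← (linMap k A.π).map_d, h1, map_zero]
    exact h2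
  · have h2 : (lin k Y).d 0 rfl ((linMap k A.π).f (r + 1 + 1) g) = z := by
      rw [← (linMap k A.π).map_d, hgy', hy''z]
    exact h2

/-- **Group completion.**  If the homology of `N~[X]` vanishes in degree `m`, so does the homology of
`Z~[X]`.  PROOF: `E = N~ × N~`, `R = ker (lin E → lin Z~)`, `R₀ ≅ lin N~` (embedded by the orbit of the
base point = the diagonal), `R / R₀` is acyclic (`FreeAct.quot_acyclic`).  Let `z` be a cycle of degree
`m` of `lin Z~`, `y` a Moore chain of `lin E` over `z` (`exists_N_lift`).  `d₀ y` is a cycle of `R`,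
homologous in `R` to `orb w`, `w` a cycle of `lin N~`; change `y` by an element of `R` so that
`d₀ y = orb w`.  The first projection maps `orb w` to `w`, so `w = d₀ (fst y)`; replacing `y` by
`y - orb (fst y)` one may assume `d₀ y = 0`.  Then `y` is a cycle, hence a boundary
(`lin_prod_vanish`), and so is its image `z`. -/
theorem zl_vanish (k : Type) [Field k] (X : PSp)
    (hX : ∃ b : ℤ, ∀ q, q < b → ∀ x : X.X q, x = X.pt q) {m : ℤ}
    (h : (lin k (nl X).U).toG.Vanish m) : (lin k (zl X).U).toG.Vanish m := by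
  have hX' : ∃ b : ℤ, ∀ q, q < b → ∀ x : (PSp.prodP (nl X).U (nl X).U).X q,
      x = (PSp.prodP (nl X).U (nl X).U).pt q := by
    obtain ⟨b, hb⟩ := hX
    refine ⟨b, fun q hq x => ?_⟩
    have h0 : ∀ y : Fc ℕ (X.X q) (X.pt q), y = 0 := fun y => by
      ext ⟨u, hu⟩
      exact absurd (hb q hq u) hu
    exact Prod.ext (h0 x.1) (h0 x.2)
  exact (gcAct X).vanish_of k hX' (PSp.fstP (nl X).U (nl X).U)
    (fun q m => zero_add (m : Fc ℕ (X.X q) (X.pt q))) (lin_prod_vanish _ _ h h)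

end BPN
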