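import Pool.Agent.BPN.R.Zl
import Pool.Agent.BPN.L.LEM

/-!
# Homology of pointed-set spectra: general lemmas (project BPN, module R/Gen)

`(lin k X).toG.Vanish m` says that the reduced homology of `X` with coefficients in the field `k`
vanishes in degree `m`.
-/

namespace BPN

open GSp Classical

variable {k : Type} [Field k]

/-- Product of pointed-set spectra. -/
def PSp.prodP (X Y : PSp) : PSp where
  X := fun q => X.X q × Y.X q
  pt := fun q => (X.pt q, Y.pt q)
  d := fun i _ _ h x => (X.d i h x.1, Y.d i h x.2)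
  s := fun i _ _ h x => (X.s i h x.1, Y.s i h x.2)
  d_pt := fun i _ _ h => Prod.ext (X.d_pt i h) (Y.d_pt i h)
  s_pt := fun i _ _ h => Prod.ext (X.s_pt i h) (Y.s_pt i h)
  dd := fun hij _ _ _ h₁ h₂ x => Prod.ext (X.dd hij h₁ h₂ x.1) (Y.dd hij h₁ h₂ x.2)
  ds_lt := fun hij _ _ _ h₁ h₂ x => Prod.ext (X.ds_lt hij h₁ h₂ x.1) (Y.ds_lt hij h₁ h₂ x.2)
  ds_eq := fun i _ _ h x => Prod.ext (X.ds_eq i h x.1) (Y.ds_eq i h x.2)
  ds_succ := fun i _ _ h x => Prod.ext (X.ds_succ i h x.1) (Y.ds_succ i h x.2)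
  ds_gt := fun hij _ _ _ h₁ h₂ x => Prod.ext (X.ds_gt hij h₁ h₂ x.1) (Y.ds_gt hij h₁ h₂ x.2)
  ss := fun hij _ _ _ h₁ h₂ x => Prod.ext (X.ss hij h₁ h₂ x.1) (Y.ss hij h₁ h₂ x.2)
  fin := fun {q r} h x => by
    obtain ⟨n, hn⟩ := X.fin h x.1
    obtain ⟨m, hm⟩ := Y.fin h x.2
    exact ⟨max n m, fun i hi => Prod.ext (hn i (le_trans (le_max_left _ _) hi))
      (hm i (le_trans (le_max_right _ _) hi))⟩

/-- First projection. -/
def PSp.fstP (X Y : PSp) : PSp.Hom (X.prodP Y) X :=
  ⟨fun _ x => x.1, fun _ => rfl, fun _ _ _ _ _ => rfl, fun _ _ _ _ _ => rfl⟩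

/-- Second projection. -/
def PSp.sndP (X Y : PSp) : PSp.Hom (X.prodP Y) Y :=
  ⟨fun _ x => x.2, fun _ => rfl, fun _ _ _ _ _ => rfl, fun _ _ _ _ _ => rfl⟩

/-- The generators. -/
private noncomputable def ofl (k : Type) [Field k] (X : PSp) (q : ℤ) (x : X.X q) : (lin k X).V q :=
  Fr.of k (X.pt q) x

private theorem ofl_pt (X : PSp) (q : ℤ) : ofl k X q (X.pt q) = 0 := Fr.of_pt

private theorem ext_l {X : PSp} {q : ℤ} {V : Type} [AddCommGroup V] [Module k V]
    {f g : (lin k X).V q →ₗ[k] V} (h : ∀ x, f (ofl k X q x) = g (ofl k X q x))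
    (y : (lin k X).V q) : f y = g y :=
  DFunLike.congr_fun (Fr.hom_ext h) y

private noncomputable def liftl {X : PSp} {q : ℤ} {V : Type} [AddCommGroup V] [Module k V]
    (f : X.X q → V) : (lin k X).V q →ₗ[k] V := Fr.lift f

private theorem liftl_of {X : PSp} {q : ℤ} {V : Type} [AddCommGroup V] [Module k V]
    (f : X.X q → V) (hf : f (X.pt q) = 0) (x : X.X q) : liftl f (ofl k X q x) = f x :=
  Fr.lift_of f hf x

private theorem linMap_ofl {X Y : PSp} (φ : PSp.Hom X Y) (q : ℤ) (x : X.X q) :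
    (linMap k φ).f q (ofl k X q x) = ofl k Y q (φ.f q x) := linMap_of k φ q x

private theorem lin_ofl {X : PSp} {L : LSp k} (f : Map X L.toG) (q : ℤ)
    (x : X.X q) : f.lin.f q (ofl k X q x) = f.f q x := Map.lin_of f q x

private theorem d_ofl (X : PSp) (i : ℕ) {q r : ℤ} (h : q + 1 = r) (w : X.X r) :
    (lin k X).d i h (ofl k X r w) = ofl k X q (X.d i h w) := Fr.map_of _ (X.d_pt i h) w

private theorem s_ofl (X : PSp) (i : ℕ) {q r : ℤ} (h : q + 1 = r) (w : X.X q) :
    (lin k X).s i h (ofl k X q w) = ofl k X r (X.s i h w) := Fr.map_of _ (X.s_pt i h) w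

/-- Boundaries are closed under scalars. -/
private theorem smul_B (L : LSp k) {q : ℤ} (c : k) {z : L.V q} (hz : z ∈ L.toG.B q) :
    c • z ∈ L.toG.B q := by
  obtain ⟨w, hw, hwz⟩ := AddSubgroup.mem_map.1 hz
  refine AddSubgroup.mem_map.2 ⟨(c • w : L.V (q + 1)), fun i r h => ?_, ?_⟩
  · change L.d (i + 1) h (c • w) = 0
    have h1 : L.d (i + 1) h w = 0 := hw i h
    rw [map_smul, h1, smul_zero]
  · change L.d 0 rfl (c • w) = c • z
    have h1 : L.d 0 rfl w = z := hwz
    rw [map_smul, h1]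

/-- Homomorphisms preserve cycles. -/
private theorem hom_Z {L K : LSp k} (f : LSp.Hom L K) {q : ℤ} {z : L.V q} (hz : z ∈ L.toG.Z q) :
    f.f q z ∈ K.toG.Z q :=
  Map.map_Z (Map.ofHom f.toG) hz

/-- Homomorphisms preserve boundaries. -/
private theorem hom_B {L K : LSp k} (f : LSp.Hom L K) {q : ℤ} {z : L.V q} (hz : z ∈ L.toG.B q) :
    f.f q z ∈ K.toG.B q :=
  Map.map_B (Map.ofHom f.toG) hz

/-- If a map `a : X → L` is null, its linear extension sends cycles to boundaries. -/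
private theorem null_B {X : PSp} {L : LSp k} {a : Map X L.toG} (ha : a.Null) {q : ℤ}
    {z : (lin k X).V q} (hz : z ∈ (lin k X).toG.Z q) : a.lin.f q z ∈ L.toG.B q := by
  obtain ⟨b, hb⟩ := ha
  let b' : Map X L.P.toG := b
  have h1 : ∀ y : (lin k X).V q, L.dP.f q (b'.lin.f q y) = a.lin.f q y := by
    refine ext_l (f := (L.dP.f q).comp (b'.lin.f q)) (g := a.lin.f q) fun x => ?_
    rw [LinearMap.comp_apply, lin_ofl, lin_ofl, ← hb]
    rfl
  rw [← h1]
  refine hom_B L.dP ?_
  exact (GSp.P_acyclic L.toG) q _ (hom_Z b'.lin hz)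

/-- The linear extension of `eta` is the identity. -/
private theorem eta_lin (X : PSp) (q : ℤ) (z : (lin k X).V q) :
    (lin.eta k X).lin.f q z = z := by
  refine ext_l (f := (lin.eta k X).lin.f q) (g := LinearMap.id) (fun x => ?_) z
  rw [lin_ofl]
  rfl

/-- A partial inverse of `linMap`. -/
private noncomputable def rho {X Y : PSp} (φ : PSp.Hom X Y) (q : ℤ) :
    (lin k Y).V q →ₗ[k] (lin k X).V q :=
  liftl (fun y => if h : ∃ x, φ.f q x = y then ofl k X q h.choose else 0)

private theorem rho_aux {X Y : PSp} (φ : PSp.Hom X Y) (q : ℤ)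
    (hφ : Function.Injective (φ.f q)) (x' : X.X q) :
    (if h : ∃ x, φ.f q x = φ.f q x' then ofl k X q h.choose else 0) = ofl k X q x' := by
  have h : ∃ x, φ.f q x = φ.f q x' := ⟨x', rfl⟩
  rw [dif_pos h, hφ h.choose_spec]

private theorem rho_pt {X Y : PSp} (φ : PSp.Hom X Y) (q : ℤ)
    (hφ : Function.Injective (φ.f q)) :
    (if h : ∃ x, φ.f q x = Y.pt q then ofl k X q h.choose else 0) = 0 := by
  have h1 := rho_aux (k := k) φ q hφ (X.pt q)
  rw [φ.map_pt, ofl_pt] at h1
  exact h1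

private theorem rho_of {X Y : PSp} (φ : PSp.Hom X Y) (q : ℤ)
    (hφ : Function.Injective (φ.f q)) (x : X.X q) :
    rho φ q (ofl k Y q (φ.f q x)) = ofl k X q x := by
  unfold rho
  rw [liftl_of _ (rho_pt φ q hφ)]
  exact rho_aux φ q hφ x

private theorem rho_of_not {X Y : PSp} (φ : PSp.Hom X Y) (q : ℤ) {y : Y.X q}
    (hφ : Function.Injective (φ.f q)) (hy : ¬ ∃ x, φ.f q x = y) :
    rho φ q (ofl k Y q y) = 0 := by
  unfold rho
  rw [liftl_of _ (rho_pt φ q hφ), dif_neg hy]

private theorem linMap_inj_aux {X Y : PSp} (φ : PSp.Hom X Y) (q : ℤ)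
    (hφ : Function.Injective (φ.f q)) : Function.Injective ((linMap k φ).f q) := by
  have h1 : ∀ y : (lin k X).V q, rho φ q ((linMap k φ).f q y) = y := by
    refine ext_l (f := (rho φ q).comp ((linMap k φ).f q)) (g := LinearMap.id) fun b => ?_
    rw [LinearMap.comp_apply, linMap_ofl, rho_of φ q hφ, LinearMap.id_apply]
  exact Function.LeftInverse.injective h1

/-- The homology of a levelwise smash product vanishes.  PROOF: the map
`lin.eta k (X.smash Y) = post ext' eta` is null because `(X.smash Y).F` is acyclic (`smash_acyclic`,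
`Map.null_of_acyclic`, `Map.Null.post`); so there is `b : Map (X.smash Y) (lin ..).P` with
`post dP b = lin.eta`; its linear extension is a section of `dP`; the path spectrum is acyclic
(`P_acyclic`), hence so is `lin`. -/
theorem lin_smash_acyclic (X Y : PSp) : (lin k (X.smash Y)).toG.Acyclic := by
  intro q z hz
  have h1 : (lin.eta k (X.smash Y)).Null := by
    have h2 := (Map.null_of_acyclic (smash_acyclic X Y) (X.smash Y).eta).post
      (lin.eta k (X.smash Y)).ext'
    rwa [Map.post_ext'_eta] at h2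
  have h3 := null_B h1 hz
  rwa [eta_lin] at h3

/-- A retract (up to a nonzero factor) of a spectrum without homology in degree `m` has no homology in
degree `m`. -/
theorem LSp.vanish_of_retract {A B : LSp k} (f : LSp.Hom A B) (g : LSp.Hom B A) (c : k)
    (hc : c ≠ 0) (h : ∀ q x, g.f q (f.f q x) = c • x) {m : ℤ} (hB : B.toG.Vanish m) :
    A.toG.Vanish m := by
  intro z hz
  have h1 : f.f m z ∈ B.toG.B m := hB _ (hom_Z f hz)
  have h2 := smul_B A c⁻¹ (hom_B g h1)
  rw [h, smul_smul, inv_mul_cancel₀ hc, one_smul] at h2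
  exact h2

/-- The homology of `A → B → B / A`.  PROOF: `ψ` induces a surjection `lin B → lin C` whose kernel is
the image of the injection `lin A → lin B`; `GSp.exact_E` (kernel ≅ `lin A`), `vanish_iff`. -/
theorem lin_vanish_ext {A B C : PSp} (φ : PSp.Hom A B) (ψ : PSp.Hom B C)
    (hφ : ∀ q, Function.Injective (φ.f q)) (hψ : ∀ q, Function.Surjective (ψ.f q))
    (h1 : ∀ q x, ψ.f q (φ.f q x) = C.pt q)
    (h2 : ∀ q b b', ψ.f q b = ψ.f q b' → b = b' ∨ ((∃ a, φ.f q a = b) ∧ ∃ a, φ.f q a = b'))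
    {m : ℤ} (hA : (lin k A).toG.Vanish m) (hC : (lin k C).toG.Vanish m) :
    (lin k B).toG.Vanish m := by
  intro z hz
  -- the splitting
  have hpt : ∀ q, ψ.f q (B.pt q) = C.pt q := fun q => ψ.map_pt q
  let sg : (lin k C).V m →ₗ[k] (lin k B).V m :=
    liftl (fun c => if h : ∃ b, (¬ ∃ a, φ.f m a = b) ∧ ψ.f m b = c then
      ofl k B m h.choose else 0)
  have hptn : ¬ ∃ b, (¬ ∃ a, φ.f m a = b) ∧ ψ.f m b = C.pt m := by
    rintro ⟨b, hb, hbc⟩
    rcases h2 m b (B.pt m) (by rw [hbc, hpt]) with h | ⟨h, -⟩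
    · exact hb ⟨A.pt m, by rw [φ.map_pt, h]⟩
    · exact hb h
  have hsg : ∀ c, sg (ofl k C m c) =
      if h : ∃ b, (¬ ∃ a, φ.f m a = b) ∧ ψ.f m b = c then ofl k B m h.choose else 0 :=
    fun c => liftl_of _ (dif_neg hptn) c
  have hsplit : ∀ y : (lin k B).V m,
      (linMap k φ).f m (rho φ m y) + sg ((linMap k ψ).f m y) = y := by
    refine ext_l (f := ((linMap k φ).f m).comp (rho φ m) +
      sg.comp ((linMap k ψ).f m)) (g := LinearMap.id) fun b => ?_
    rw [LinearMap.add_apply, LinearMap.comp_apply, LinearMap.comp_apply, LinearMap.id_apply,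
      linMap_ofl, hsg]
    by_cases hb : ∃ a, φ.f m a = b
    · obtain ⟨a, rfl⟩ := hb
      rw [rho_of φ m (hφ m), linMap_ofl, h1, dif_neg hptn, add_zero]
    · rw [rho_of_not φ m (hφ m) hb, map_zero, zero_add]
      have h : ∃ b', (¬ ∃ a, φ.f m a = b') ∧ ψ.f m b' = ψ.f m b := ⟨b, hb, rfl⟩
      rw [dif_pos h]
      rcases h2 m _ _ h.choose_spec.2 with h3 | ⟨-, h3⟩
      · rw [h3]
      · exact absurd h3 hb
  have hsurj : (linMap k ψ).toG.Surj := by
    intro q y
    let sq : (lin k C).V q →ₗ[k] (lin k B).V q :=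
      liftl (fun c => if c = C.pt q then 0 else ofl k B q (hψ q c).choose)
    have h3 : ∀ y : (lin k C).V q, (linMap k ψ).f q (sq y) = y := by
      refine ext_l (f := ((linMap k ψ).f q).comp sq) (g := LinearMap.id) fun c => ?_
      rw [LinearMap.comp_apply, LinearMap.id_apply]
      have h4 : sq (ofl k C q c) = if c = C.pt q then 0 else ofl k B q (hψ q c).choose :=
        liftl_of (fun c => if c = C.pt q then (0 : (lin k B).V q) else
          ofl k B q (hψ q c).choose) (if_pos rfl) c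
      rw [h4]
      by_cases hc : c = C.pt q
      · rw [if_pos hc, map_zero, hc, ofl_pt]
      · rw [if_neg hc, linMap_ofl, (hψ q c).choose_spec]
    exact ⟨sq y, h3 y⟩
  -- the image of the cycle
  have hzC : (linMap k ψ).f m z ∈ (lin k C).toG.B m := hC _ (hom_Z (linMap k ψ) hz)
  obtain ⟨w, hw, hwz⟩ := AddSubgroup.mem_map.1 hzC
  obtain ⟨v, hv, hvw⟩ := exists_N_lift (linMap k ψ).toG hsurj w (fun i t ht => hw i ht)
  have hvB : (lin k B).toG.d 0 rfl v ∈ (lin k B).toG.B m :=
    AddSubgroup.mem_map.2 ⟨v, fun i r h => hv i h, rfl⟩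
  have hvZ : (lin k B).toG.d 0 rfl v ∈ (lin k B).toG.Z m := by
    intro i t ht
    rw [← (lin k B).toG.dd (Nat.zero_le i), hv i rfl, map_zero]
  set y : (lin k B).V m := z - (lin k B).toG.d 0 rfl v with hy
  have hyZ : y ∈ (lin k B).toG.Z m := by
    intro i t ht
    change (lin k B).d i ht y = 0
    have e1 : (lin k B).d i ht z = 0 := hz i ht
    have e2 : (lin k B).d i ht ((lin k B).toG.d 0 rfl v) = 0 := hvZ i ht
    rw [hy, map_sub, e1, e2, sub_zero]
  have hyk : (linMap k ψ).f m y = 0 := by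
    have e1 : (linMap k ψ).f m ((lin k B).toG.d 0 rfl v) =
        (lin k C).d 0 rfl ((linMap k ψ).f (m + 1) v) := (linMap k ψ).map_d 0 rfl v
    have e2 : (linMap k ψ).f (m + 1) v = w := hvw
    have e3 : (lin k C).d 0 rfl w = (linMap k ψ).f m z := hwz
    rw [hy, map_sub, e1, e2, e3, sub_self]
  have hya : (linMap k φ).f m (rho φ m y) = y := by
    have e1 := hsplit y
    rwa [hyk, map_zero, add_zero] at e1
  have haZ : (rho φ m y : (lin k A).V m) ∈ (lin k A).toG.Z m := by
    intro i t ht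
    apply linMap_inj_aux φ t (hφ t)
    have e1 : (linMap k φ).f t ((lin k A).d i ht (rho φ m y)) =
        (lin k B).d i ht ((linMap k φ).f m (rho φ m y)) := (linMap k φ).map_d i ht _
    have e2 : (lin k B).d i ht y = 0 := hyZ i ht
    change (linMap k φ).f t ((lin k A).d i ht (rho φ m y)) = (linMap k φ).f t 0
    rw [e1, hya, e2, map_zero]
  have haB := hom_B (linMap k φ) (hA _ haZ)
  rw [hya] at haB
  have hz2 : z = y + (lin k B).toG.d 0 rfl v := by
    rw [hy, sub_add_cancel]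
  rw [hz2]
  exact add_mem haB hvB

/-- Invariance under isomorphisms. -/
theorem lin_vanish_iso {X Y : PSp} (φ : PSp.Hom X Y) (hφ : ∀ q, Function.Bijective (φ.f q))
    {m : ℤ} (h : (lin k X).toG.Vanish m) : (lin k Y).toG.Vanish m := by
  intro z hz
  let ψ : PSp.Hom Y X :=
    { f := fun q y => (hφ q).2 y |>.choose
      map_pt := fun q => (hφ q).1 (by rw [((hφ q).2 (Y.pt q)).choose_spec, φ.map_pt])
      map_d := fun i q r e y => (hφ q).1 (by
        rw [((hφ q).2 (Y.d i e y)).choose_spec, φ.map_d, ((hφ r).2 y).choose_spec])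
      map_s := fun i q r e y => (hφ r).1 (by
        rw [((hφ r).2 (Y.s i e y)).choose_spec, φ.map_s, ((hφ q).2 y).choose_spec]) }
  have h1 : ∀ y : (lin k Y).V m, (linMap k φ).f m ((linMap k ψ).f m y) = y := by
    refine ext_l (f := ((linMap k φ).f m).comp ((linMap k ψ).f m))
      (g := LinearMap.id) fun b => ?_
    rw [LinearMap.comp_apply, linMap_ofl, linMap_ofl, LinearMap.id_apply]
    congr 1
    exact ((hφ m).2 b).choose_spec
  have h2 := hom_B (linMap k φ) (h _ (hom_Z (linMap k ψ) hz))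
  rwa [h1] at h2

/-- An injective map of pointed sets induces an injection. -/
theorem linMap_inj {X Y : PSp} (φ : PSp.Hom X Y) (q : ℤ) (hφ : Function.Injective (φ.f q)) :
    Function.Injective ((linMap k φ).f q) := by
  exact linMap_inj_aux φ q hφ

/-- The homology of a product.  PROOF: the map `X × Y → lin (X × Y)`,
`(x, y) ↦ of (x, y) - of (x, pt) - of (pt, y)` (base points: `of pt = 0`) vanishes if `x = pt` or
`y = pt`, so it is the composite of `X × Y → X.smash Y` (`PSp.Hom.toSmash fstP sndP`) and a map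
(`Map.ofSmash`), hence null (`Map.null_of_smash`); let `b` be a lift to the path spectrum.  For a cycle
`z` the element `b.lin z` is a cycle of the acyclic path spectrum, so
`z - lin (x ↦ (x, pt)) (lin fst z) - lin (y ↦ (pt, y)) (lin snd z)` is a boundary. -/
theorem lin_prod_vanish (X Y : PSp) {m : ℤ} (hX : (lin k X).toG.Vanish m)
    (hY : (lin k Y).toG.Vanish m) : (lin k (X.prodP Y)).toG.Vanish m := by
  intro z hz
  let i₁ : PSp.Hom X (X.prodP Y) :=
    ⟨fun q x => (x, Y.pt q), fun _ => rfl, fun i _ _ h _ => Prod.ext rfl (Y.d_pt i h).symm,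
      fun i _ _ h _ => Prod.ext rfl (Y.s_pt i h).symm⟩
  let i₂ : PSp.Hom Y (X.prodP Y) :=
    ⟨fun q y => (X.pt q, y), fun _ => rfl, fun i _ _ h _ => Prod.ext (X.d_pt i h).symm rfl,
      fun i _ _ h _ => Prod.ext (X.s_pt i h).symm rfl⟩
  let W : PSp := X.prodP Y
  let φ : ∀ q, X.X q → Y.X q → (lin k W).V q := fun q x y =>
    ofl k W q (x, y) - ofl k W q (x, Y.pt q) - ofl k W q (X.pt q, y)
  have hpt : ∀ q, ofl k W q ((X.pt q, Y.pt q) : W.X q) = 0 := fun q => ofl_pt W q
  have hl : ∀ q y, φ q (X.pt q) y = 0 := by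
    intro q y
    change ofl k W q (X.pt q, y) - ofl k W q (X.pt q, Y.pt q) -
      ofl k W q (X.pt q, y) = 0
    rw [hpt, sub_zero, sub_self]
  have hr : ∀ q x, φ q x (Y.pt q) = 0 := by
    intro q x
    change ofl k W q (x, Y.pt q) - ofl k W q (x, Y.pt q) -
      ofl k W q (X.pt q, Y.pt q) = 0
    rw [hpt, sub_zero, sub_self]
  have hdo : ∀ (i : ℕ) {q r : ℤ} (h : q + 1 = r) (w : W.X r),
      (lin k W).d i h (ofl k W r w) = ofl k W q (W.d i h w) :=
    fun i q r h w => d_ofl W i h w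
  have hso : ∀ (i : ℕ) {q r : ℤ} (h : q + 1 = r) (w : W.X q),
      (lin k W).s i h (ofl k W q w) = ofl k W r (W.s i h w) :=
    fun i q r h w => s_ofl W i h w
  have hd : ∀ (i : ℕ) {q r : ℤ} (h : q + 1 = r) x y, φ q (X.d i h x) (Y.d i h y) =
      (lin k W).toG.d i h (φ r x y) := fun i q r h x y => by
    change ofl k W q (X.d i h x, Y.d i h y) - ofl k W q (X.d i h x, Y.pt q) -
      ofl k W q (X.pt q, Y.d i h y) = (lin k W).d i h (φ r x y)
    change _ = (lin k W).d i h (ofl k W r (x, y) - ofl k W r (x, Y.pt r) -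
      ofl k W r (X.pt r, y))
    rw [map_sub, map_sub, hdo, hdo, hdo]
    change _ = ofl k W q (X.d i h x, Y.d i h y) -
      ofl k W q (X.d i h x, Y.d i h (Y.pt r)) -
      ofl k W q (X.d i h (X.pt r), Y.d i h y)
    rw [X.d_pt, Y.d_pt]
  have hs : ∀ (i : ℕ) {q r : ℤ} (h : q + 1 = r) x y, φ r (X.s i h x) (Y.s i h y) =
      (lin k W).toG.s i h (φ q x y) := fun i q r h x y => by
    change ofl k W r (X.s i h x, Y.s i h y) - ofl k W r (X.s i h x, Y.pt r) -
      ofl k W r (X.pt r, Y.s i h y) = (lin k W).s i h (φ q x y)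
    change _ = (lin k W).s i h (ofl k W q (x, y) - ofl k W q (x, Y.pt q) -
      ofl k W q (X.pt q, y))
    rw [map_sub, map_sub, hso, hso, hso]
    change _ = ofl k W r (X.s i h x, Y.s i h y) -
      ofl k W r (X.s i h x, Y.s i h (Y.pt q)) -
      ofl k W r (X.s i h (X.pt q), Y.s i h y)
    rw [X.s_pt, Y.s_pt]
  have hN := Map.null_of_smash (Map.ofSmash (X := X) (Y := Y) (G := (lin k W).toG) φ hl hr hd hs)
    (PSp.fstP X Y) (PSp.sndP X Y)
  have hB := null_B hN hz
  have he : ∀ y : (lin k W).V m, (Map.pre ((PSp.fstP X Y).toSmash (PSp.sndP X Y))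
      (Map.ofSmash (X := X) (Y := Y) (G := (lin k W).toG) φ hl hr hd hs)).lin.f m y =
      y - (linMap k i₁).f m ((linMap k (PSp.fstP X Y)).f m y) -
        (linMap k i₂).f m ((linMap k (PSp.sndP X Y)).f m y) := by
    refine ext_l (g := LinearMap.id -
      ((linMap k i₁).f m).comp ((linMap k (PSp.fstP X Y)).f m) -
        ((linMap k i₂).f m).comp ((linMap k (PSp.sndP X Y)).f m)) fun w => ?_
    rw [lin_ofl, LinearMap.sub_apply, LinearMap.sub_apply, LinearMap.comp_apply,
      LinearMap.comp_apply, linMap_ofl, linMap_ofl, linMap_ofl, linMap_ofl, LinearMap.id_apply]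
    exact Map.ofSmash_nrm (X := X) (Y := Y) (G := (lin k W).toG) φ hl hr m w.1 w.2
  rw [he] at hB
  have h1 := hom_B (linMap k i₁) (hX _ (hom_Z (linMap k (PSp.fstP X Y)) hz))
  have h2 := hom_B (linMap k i₂) (hY _ (hom_Z (linMap k (PSp.sndP X Y)) hz))
  have h3 := add_mem (add_mem hB h2) h1
  have h4 : z - (linMap k i₁).f m ((linMap k (PSp.fstP X Y)).f m z) -
      (linMap k i₂).f m ((linMap k (PSp.sndP X Y)).f m z) +
      (linMap k i₂).f m ((linMap k (PSp.sndP X Y)).f m z) +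
      (linMap k i₁).f m ((linMap k (PSp.fstP X Y)).f m z) = z := by
    rw [sub_add_cancel, sub_add_cancel]
  rw [← h4]
  exact h3

/-- If the homology of `X` vanishes in degree `m`, all classes of degree `m` are null
(`LSp.null_iff`). -/
theorem null_of_lin_vanish (X : PSp) {m : ℤ} {V : Type} [AddCommGroup V] [Module k V]
    (h : (lin k X).toG.Vanish m) (a : Map X (EM V m)) : a.Null := by
  let a' : Map X (EML k V m).toG := a
  refine (LSp.null_iff (k := k) X m a').2 fun x hx => ?_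
  have h1 : x ∈ (lin k X).toG.Z m := fun i t ht => hx i ht
  have h2 : a'.lin.f m x ∈ (EML k V m).toG.B m := hom_B _ (h x h1)
  have h3 : a'.lin.f m x ∈ (EML k V m).toG.Z m := hom_Z _ h1
  have h4 := EM.piHom_mk (M := V) m ⟨a'.lin.f m x, h3⟩
  have h5 : (EM V m).piMk m ⟨a'.lin.f m x, h3⟩ = 0 :=
    GSp.piMk_eq_zero.2 h2
  rw [h5, map_zero] at h4
  exact h4.symm

end BPN
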