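import Pool.Agent.BPN.R.DK
import Pool.Agent.BPN.R.Gen

/-!
# Wedges of spheres (project BPN, module R/Sph)

The sphere spectrum `S^m` in degree `q`: the monotone surjective maps `f : ℕ → ℕ` with
`f i = i + (m - q)` for large `i`, and a base point; `d i f = f ∘ dl i` (the base point if this is not
surjective), `s i f = f ∘ sg i`.
-/

namespace BPN

open GSp Classical

/-- Monotone surjective maps which are eventually the shift by `k`. -/
abbrev SMap (k : ℤ) : Type := {f : ℕ → ℕ // Monotone f ∧ Function.Surjective f ∧ Shift f k}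

/-- A map as a simplex of the sphere (the base point if it is not surjective). -/
noncomputable def SMap.mk' (S : Type) (s : S) (k : ℤ) (f : ℕ → ℕ) : Option (S × SMap k) :=
  if h : Monotone f ∧ Function.Surjective f ∧ Shift f k then some (s, ⟨f, h⟩) else none

private theorem pre_dl {f : ℕ → ℕ} {k l : ℤ} (hf : Shift f k) (i : ℕ) (h : k + 1 = l) :
    Shift (f ∘ dl i) l := by
  obtain ⟨N, hN⟩ := hf
  refine ⟨max N i, fun j hj => ?_⟩
  have h1 : N ≤ j := le_trans (le_max_left _ _) hj
  have h2 : i ≤ j := le_trans (le_max_right _ _) hj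
  simp only [Function.comp_apply, dl]
  rw [if_neg (by omega), hN (j + 1) (by omega)]
  push_cast
  omega

private theorem pre_sg {f : ℕ → ℕ} {k l : ℤ} (hf : Shift f l) (i : ℕ) (h : k + 1 = l) :
    Shift (f ∘ sg i) k := by
  obtain ⟨N, hN⟩ := hf
  refine ⟨max (N + 1) (i + 1), fun j hj => ?_⟩
  have h1 : N + 1 ≤ j := le_trans (le_max_left _ _) hj
  have h2 : i + 1 ≤ j := le_trans (le_max_right _ _) hj
  simp only [Function.comp_apply, sg]
  rw [if_neg (by omega), hN (j - 1) (by omega)]
  omega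

private def OkM (k l : ℤ) (a : ℕ → ℕ) : Prop :=
  ∀ f : ℕ → ℕ, Monotone f → Shift f k → Monotone (f ∘ a) ∧ Shift (f ∘ a) l

private theorem ok_dl (i : ℕ) {k l : ℤ} (h : k + 1 = l) : OkM k l (dl i) := fun _ hf hs =>
  ⟨hf.comp (dl_strictMono i).monotone, pre_dl hs i h⟩

private theorem ok_sg (i : ℕ) {k l : ℤ} (h : k + 1 = l) : OkM l k (sg i) := fun _ hf hs =>
  ⟨hf.comp (sg_mono i), pre_sg hs i h⟩

private theorem mk_self {S : Type} {k : ℤ} (s : S) (f : SMap k) :
    SMap.mk' S s k f.1 = some (s, f) := dif_pos f.2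

private theorem bind_mk {S : Type} (s : S) {k : ℤ} (k' : ℤ) {g : ℕ → ℕ} (h : ℕ → ℕ)
    (hg : Monotone g ∧ Shift g k) :
    ((SMap.mk' S s k g).bind fun y => SMap.mk' S y.1 k' (y.2.1 ∘ h)) =
      SMap.mk' S s k' (g ∘ h) := by
  by_cases hsur : Function.Surjective g
  · have h1 : SMap.mk' S s k g = some (s, ⟨g, hg.1, hsur, hg.2⟩) := dif_pos ⟨hg.1, hsur, hg.2⟩
    rw [h1]
    rfl
  · have h1 : SMap.mk' S s k g = none := dif_neg (fun e => hsur e.2.1)
    have h2 : SMap.mk' S s k' (g ∘ h) = none := dif_neg (fun e => hsur (e.2.1.of_comp))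
    rw [h1, h2]
    rfl

private theorem two {S : Type} {k k1 k2 k3 : ℤ} (x : Option (S × SMap k)) {a b a' b' : ℕ → ℕ}
    (ha : OkM k k1 a) (ha' : OkM k k3 a') (hab : ∀ x, a (b x) = a' (b' x)) :
    ((x.bind fun y => SMap.mk' S y.1 k1 (y.2.1 ∘ a)).bind
        fun y => SMap.mk' S y.1 k2 (y.2.1 ∘ b)) =
      (x.bind fun y => SMap.mk' S y.1 k3 (y.2.1 ∘ a')).bind
        fun y => SMap.mk' S y.1 k2 (y.2.1 ∘ b') := by
  rcases x with _ | ⟨s, f⟩
  · rfl
  · change ((SMap.mk' S s k1 (f.1 ∘ a)).bind fun y => SMap.mk' S y.1 k2 (y.2.1 ∘ b)) =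
      (SMap.mk' S s k3 (f.1 ∘ a')).bind fun y => SMap.mk' S y.1 k2 (y.2.1 ∘ b')
    rw [bind_mk s k2 b (ha _ f.2.1 f.2.2.2), bind_mk s k2 b' (ha' _ f.2.1 f.2.2.2)]
    congr 1
    funext t
    exact congrArg f.1 (hab t)

private theorem one {S : Type} {k k1 : ℤ} (x : Option (S × SMap k)) {a b : ℕ → ℕ}
    (ha : OkM k k1 a) (hab : ∀ x, a (b x) = x) :
    ((x.bind fun y => SMap.mk' S y.1 k1 (y.2.1 ∘ a)).bind
        fun y => SMap.mk' S y.1 k (y.2.1 ∘ b)) = x := by
  rcases x with _ | ⟨s, f⟩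
  · rfl
  · change ((SMap.mk' S s k1 (f.1 ∘ a)).bind fun y => SMap.mk' S y.1 k (y.2.1 ∘ b)) = _
    rw [bind_mk s k b (ha _ f.2.1 f.2.2.2), ← mk_self s f]
    congr 1
    funext t
    exact congrArg f.1 (hab t)

private theorem fin_mk {S : Type} {k l : ℤ} (x : Option (S × SMap k)) :
    ∃ n : ℕ, ∀ i, n ≤ i → (x.bind fun y => SMap.mk' S y.1 l (y.2.1 ∘ dl i)) = none := by
  rcases x with _ | ⟨s, f⟩
  · exact ⟨0, fun _ _ => rfl⟩
  · obtain ⟨N, hN⟩ := f.2.2.2
    refine ⟨N + 1, fun i hi => dif_neg fun e => ?_⟩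
    obtain ⟨j, hj⟩ := e.2.1 (f.1 i)
    have h0 := hN (i - 1) (by omega)
    have h1 := hN i (by omega)
    have h2 := hN (i + 1) (by omega)
    simp only [Function.comp_apply, dl] at hj
    split_ifs at hj with h3
    · have h4 := f.2.1 (show j ≤ i - 1 by omega)
      omega
    · have h4 := f.2.1 (show i + 1 ≤ j + 1 by omega)
      push_cast at h2
      omega

/-- The wedge of spheres of dimension `m` indexed by `S`. -/
noncomputable def sph (S : Type) (m : ℤ) : PSp where
  X := fun q => Option (S × SMap (m - q))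
  pt := fun _ => none
  d := fun i {q _} _ x => x.bind fun y => SMap.mk' S y.1 (m - q) (y.2.1 ∘ dl i)
  s := fun i {_ r} _ x => x.bind fun y => SMap.mk' S y.1 (m - r) (y.2.1 ∘ sg i)
  d_pt := fun _ _ _ _ => rfl
  s_pt := fun _ _ _ _ => rfl
  dd := fun {i j} hij {_ _ _} _ _ x =>
    two x (ok_dl (j + 1) (by omega)) (ok_dl i (by omega)) (fun a => dl_dl hij a)
  ds_lt := fun {i j} hij {_ _ _} _ _ x =>
    two x (ok_sg (j + 1) (by omega)) (ok_dl i (by omega)) (fun a => sg_dl_lt hij a)
  ds_eq := fun i {_ _} _ x => one x (ok_sg i (by omega)) (fun a => sg_dl_eq i a)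
  ds_succ := fun i {_ _} _ x => one x (ok_sg i (by omega)) (fun a => sg_dl_succ i a)
  ds_gt := fun {i j} hij {_ _ _} _ _ x =>
    two x (ok_sg j (by omega)) (ok_dl i (by omega)) (fun a => sg_dl_gt hij a)
  ss := fun {i j} hij {_ _ _} _ _ x =>
    two x (ok_sg j (by omega)) (ok_sg i (by omega)) (fun a => sg_sg hij a)
  fin := fun {_ _} _ x => fin_mk x

private theorem sm_succ {f : ℕ → ℕ} (hf : Monotone f) (hs : Function.Surjective f) (i : ℕ) :
    f (i + 1) ≤ f i + 1 := by
  by_contra hn
  obtain ⟨j, hj⟩ := hs (f i + 1)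
  rcases le_or_gt j i with h | h
  · have := hf h
    omega
  · have := hf (show i + 1 ≤ j from h)
    omega

private theorem sm_le {f : ℕ → ℕ} (hf : Monotone f) (hs : Function.Surjective f) (i : ℕ) :
    f i ≤ i := by
  induction i with
  | zero =>
    obtain ⟨j, hj⟩ := hs 0
    have := hf (Nat.zero_le j)
    omega
  | succ i ih =>
    have := sm_succ hf hs i
    omega

private theorem sm_id {f : ℕ → ℕ} (hf : Monotone f) (hs : Function.Surjective f) {k : ℤ}
    (h0 : Shift f k) (hk : k = 0) : f = id := by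
  subst hk
  obtain ⟨N, hN⟩ := h0
  funext x
  have h1 : ∀ t, f (x + t) ≤ f x + t := by
    intro t
    induction t with
    | zero => exact le_rfl
    | succ t ih =>
      have := sm_succ hf hs (x + t)
      rw [show x + t + 1 = x + (t + 1) from rfl] at this
      omega
  have h2 := h1 N
  have h3 := hN (x + N) (by omega)
  have h4 := sm_le hf hs x
  rw [id_eq]
  omega

private theorem sm_rep {f : ℕ → ℕ} (hf : Monotone f) {k : ℤ} (h0 : Shift f k) (hk : k < 0) :
    ∃ i, f i = f (i + 1) := by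
  by_contra hn
  push Not at hn
  have h1 : StrictMono f := strictMono_nat_of_lt_succ fun i =>
    lt_of_le_of_ne (hf (Nat.le_succ i)) (hn i)
  obtain ⟨N, hN⟩ := h0
  have h2 := hN N le_rfl
  have h3 := h1.le_apply (x := N)
  omega

private theorem sm_fac {f : ℕ → ℕ} {i : ℕ} (h : f i = f (i + 1)) : (f ∘ dl i) ∘ sg i = f := by
  funext j
  simp only [Function.comp_apply, dl, sg]
  split_ifs with h1 h2 h3
  · rfl
  · have : j = i := by omega
    rw [this, h]
  · omega
  · congr 1
    omega

/-- Below degree `m` there is only the base point: a monotone surjective `f` satisfies `f i ≤ i`. -/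
theorem sph_low (S : Type) {m q : ℤ} (h : q < m) (x : (sph S m).X q) : x = (sph S m).pt q := by
  rcases x with _ | ⟨s, f⟩
  · rfl
  · exfalso
    obtain ⟨N, hN⟩ := f.2.2.2
    have h1 := hN N le_rfl
    have h2 := sm_le f.2.1 f.2.2.1 N
    omega

/-- In degree `m` there are the base point and the simplices `(s, id)`. -/
theorem sph_mid (S : Type) (m : ℤ) (x : (sph S m).X m) :
    x = none ∨ ∃ s : S, x = SMap.mk' S s (m - m) id := by
  rcases x with _ | ⟨s, f⟩
  · exact Or.inl rfl
  · refine Or.inr ⟨s, ?_⟩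
    have h1 : f.1 = id := sm_id f.2.1 f.2.2.1 f.2.2.2 (sub_self m)
    rw [← h1]
    exact (mk_self s f).symm

/-- Above degree `m` everything is degenerate: `f` is not injective, `f i = f (i + 1)` for some `i`, and
`f = (f ∘ dl i) ∘ sg i`. -/
theorem sph_deg (S : Type) {m q r : ℤ} (h : q + 1 = r) (hr : m < r) (x : (sph S m).X r) :
    ∃ (i : ℕ) (y : (sph S m).X q), x = (sph S m).s i h y := by
  rcases x with _ | ⟨s, f⟩
  · exact ⟨0, none, rfl⟩
  · obtain ⟨i, hi⟩ := sm_rep f.2.1 f.2.2.2 (by omega)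
    refine ⟨i, SMap.mk' S s (m - q) (f.1 ∘ dl i), ?_⟩
    change some (s, f) = (SMap.mk' S s (m - q) (f.1 ∘ dl i)).bind
      fun y => SMap.mk' S y.1 (m - r) (y.2.1 ∘ sg i)
    rw [bind_mk s (m - r) (sg i) (ok_dl i (by omega) _ f.2.1 f.2.2.2), sm_fac hi]
    exact (mk_self s f).symm

private theorem lin_deg (k : Type) [Field k] (S : Type) {m r : ℤ} (hr : m < r)
    (z : (lin k (sph S m)).V r) : z ∈ (lin k (sph S m)).D r := by
  obtain ⟨q, hq⟩ : ∃ q : ℤ, q + 1 = r := ⟨r - 1, by omega⟩
  induction z using Finsupp.induction_linear with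
  | zero => exact Submodule.zero_mem _
  | add y z hy hz => exact Submodule.add_mem _ hy hz
  | single x b =>
    obtain ⟨i, y, hy⟩ := sph_deg S hq hr x.1
    have h2 : (Finsupp.single x b : {y : (sph S m).X r // y ≠ (sph S m).pt r} →₀ k) =
        b • Fr.of k ((sph S m).pt r) x.1 := by
      rw [Fr.of_ne x.2, Finsupp.smul_single, smul_eq_mul, mul_one]
    have h3 : Fr.of k ((sph S m).pt r) x.1 =
        (lin k (sph S m)).s i hq (Fr.of k ((sph S m).pt q) y) := by
      rw [hy]
      exact (Fr.map_of _ ((sph S m).s_pt i hq) y).symm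
    have h4 : b • Fr.of k ((sph S m).pt r) x.1 ∈ (lin k (sph S m)).D r := by
      rw [h3]
      exact Submodule.smul_mem _ _ (LSp.s_mem_D _ hq i _)
    rw [← h2] at h4
    exact h4

/-- The homology of the wedge of spheres is concentrated in degree `m` (`LSp.N_sup_D`,
`LSp.N_inf_D`: for `r > m` there are no Moore chains). -/
theorem lin_sph_vanish (k : Type) [Field k] (S : Type) {m r : ℤ} (h : r ≠ m) :
    (lin k (sph S m)).toG.Vanish r := by
  intro z hz
  have h0 : z = 0 := by
    rcases lt_or_gt_of_ne h with h1 | h1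
    · exact Finsupp.ext fun x => absurd (sph_low S h1 x.1) x.2
    · have hN : z ∈ (lin k (sph S m)).N r := fun i q h => hz (i + 1) h
      have hb : z ∈ (lin k (sph S m)).N r ⊓ (lin k (sph S m)).D r := ⟨hN, lin_deg k S h1 z⟩
      rw [LSp.N_inf_D] at hb
      exact (Submodule.mem_bot k).1 hb
  rw [h0]
  exact zero_mem _

private theorem Fc.single_eq {R X : Type} [AddCommMonoid R] {x₀ : X} (x : {x : X // x ≠ x₀})
    (b : R) : (Finsupp.single x b : {x : X // x ≠ x₀} →₀ R) = Fc.of x₀ x.1 b :=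
  (Fc.of_ne x.2 b).symm

private def zm {A : Type} [AddCommGroup A] (a : A) : ℤ →+ A where
  toFun := fun n => n • a
  map_zero' := zero_zsmul a
  map_add' := fun m n => add_zsmul a m n

private noncomputable def zf {M : Type} [AddCommGroup M] {n : ℤ} {X : PSp} (a : Map X (EM M n))
    (q : ℤ) : Fc ℤ (X.X q) (X.pt q) →+ (EM M n).G q :=
  Fc.lift (A := (EM M n).G q) fun x => zm (a.f q x)

private theorem zf_of {M : Type} [AddCommGroup M] {n : ℤ} {X : PSp} (a : Map X (EM M n))
    (q : ℤ) (x : X.X q) (r : ℤ) : zf a q (Fc.of (X.pt q) x r) = r • a.f q x := by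
  refine (Fc.lift_of _ ?_ x r).trans rfl
  rw [a.map_pt]
  refine AddMonoidHom.ext fun t => ?_
  exact zsmul_zero t

private noncomputable def zext {M : Type} [AddCommGroup M] {n : ℤ} {X : PSp}
    (a : Map X (EM M n)) : GSp.Hom (zl X) (EM M n) where
  f := fun q => zf a q
  map_d := fun i q r h x => by
    change zf a q (Fc.map (X.d i h) x) = (EM M n).d i h (zf a r x)
    induction x using Finsupp.induction_linear with
    | zero => simp only [map_zero]
    | add y z hy hz => simp only [map_add, hy, hz]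
    | single x b =>
      rw [Fc.single_eq, Fc.map_of _ (X.d_pt i h), zf_of, zf_of, a.map_d, map_zsmul]
  map_s := fun i q r h x => by
    change zf a r (Fc.map (X.s i h) x) = (EM M n).s i h (zf a q x)
    induction x using Finsupp.induction_linear with
    | zero => simp only [map_zero]
    | add y z hy hz => simp only [map_add, hy, hz]
    | single x b =>
      rw [Fc.single_eq, Fc.map_of _ (X.s_pt i h), zf_of, zf_of, a.map_s, map_zsmul]

private noncomputable def csp (S : Type) (m : ℤ) : (sph S m).X m → (S →₀ ℤ) :=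
  fun x : Option (S × SMap (m - m)) => x.elim 0 (fun y => Finsupp.single y.1 1)

private theorem csp_pt (S : Type) (m : ℤ) : csp S m ((sph S m).pt m) = 0 := rfl

private theorem csp_mk (S : Type) (m : ℤ) (s : S) :
    csp S m (SMap.mk' S s (m - m) id) = Finsupp.single s 1 := by
  have h1 : SMap.mk' S s (m - m) id = some (s, ⟨id, monotone_id, Function.surjective_id,
      ⟨0, fun i _ => by simp⟩⟩) := dif_pos _
  rw [h1]
  rfl

private theorem csp_coc (S : Type) (m : ℤ) {r : ℤ} (h : m + 1 = r) (x : (sph S m).X r) :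
    ∃ K₀ : ℕ, ∀ K, K₀ ≤ K →
      ∑ i ∈ Finset.range K, (-1 : ℤ) ^ i • csp S m ((sph S m).d i h x) = 0 := by
  have hl : m - 1 + 1 = m := by omega
  obtain ⟨a, y, rfl⟩ := sph_deg S h (by omega) x
  refine ⟨a + 2, fun K hK => ?_⟩
  have key : ∀ i, (-1 : ℤ) ^ i • csp S m ((sph S m).d i h ((sph S m).s a h y)) =
      (if i = a then (-1 : ℤ) ^ i • csp S m y else 0) +
        (if i = a + 1 then (-1 : ℤ) ^ i • csp S m y else 0) := by
    intro i
    rcases lt_trichotomy i a with hi | hi | hi
    · obtain ⟨a', rfl⟩ : ∃ a', a = a' + 1 := ⟨a - 1, by omega⟩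
      rw [(sph S m).ds_lt (by omega) hl h, sph_low S (by omega : m - 1 < m) ((sph S m).d i hl y),
        (sph S m).s_pt, csp_pt, if_neg (by omega), if_neg (by omega)]
      simp
    · subst hi
      rw [(sph S m).ds_eq]
      simp
    · rcases eq_or_lt_of_le (Nat.succ_le_of_lt hi) with h1 | h1
      · subst h1
        rw [Nat.succ_eq_add_one, (sph S m).ds_succ]
        simp
      · obtain ⟨i', rfl⟩ : ∃ i', i = i' + 1 := ⟨i - 1, by omega⟩
        rw [(sph S m).ds_gt (by omega) hl h,
          sph_low S (by omega : m - 1 < m) ((sph S m).d i' hl y),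
          (sph S m).s_pt, csp_pt, if_neg (by omega), if_neg (by omega)]
        simp
  rw [Finset.sum_congr rfl (fun i _ => key i), Finset.sum_add_distrib, Finset.sum_ite_eq',
    Finset.sum_ite_eq', if_pos (Finset.mem_range.mpr (by omega)),
    if_pos (Finset.mem_range.mpr (by omega)), pow_succ]
  simp

private theorem exists_base (S : Type) (m : ℤ) : ∃ a : Map (sph S m) (EM (S →₀ ℤ) m),
    ∀ x, (a.f m x).1 id = csp S m x :=
  EM.exists_map (csp S m) (csp_pt S m)
    (fun i q h x => by
      rw [sph_low S (by omega : q < m) x, (sph S m).s_pt, csp_pt])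
    (fun h x => csp_coc S m h x)

/-- The class `sph S m → EM (S →₀ ℤ) m`, `(s, id) ↦ s`, extended to `zl`. -/
theorem exists_sphMap (S : Type) (m : ℤ) : ∃ c : GSp.Hom (zl (sph S m)) (EM (S →₀ ℤ) m),
    ∀ s : S, ((c.f m (Fc.of ((sph S m).pt m) (SMap.mk' S s (m - m) id) 1)).1 :
      (ℕ → ℕ) → (S →₀ ℤ)) id = Finsupp.single s 1 := by
  obtain ⟨a, ha⟩ := exists_base S m
  refine ⟨zext a, fun s => ?_⟩
  have h1 : (zext a).f m (Fc.of ((sph S m).pt m) (SMap.mk' S s (m - m) id) 1) =
      a.f m (SMap.mk' S s (m - m) id) := by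
    refine (zf_of a m _ 1).trans ?_
    exact one_zsmul _
  rw [h1]
  exact (ha _).trans (csp_mk S m s)

private theorem zl_low (S : Type) {m q : ℤ} (h : q < m) (x : (zl (sph S m)).G q) : x = 0 :=
  Finsupp.ext fun y => absurd (sph_low S h y.1) y.2

private theorem zl_deg (S : Type) {m q r : ℤ} (h : q + 1 = r) (hr : m < r)
    (x : (zl (sph S m)).G r) :
    x ∈ AddSubgroup.closure {z | ∃ (i : ℕ) (y : (zl (sph S m)).G q),
      z = (zl (sph S m)).s i h y} := by
  have key : ∀ x : Fc ℤ ((sph S m).X r) ((sph S m).pt r), (x : (zl (sph S m)).G r) ∈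
      AddSubgroup.closure {z | ∃ (i : ℕ) (y : (zl (sph S m)).G q),
        z = (zl (sph S m)).s i h y} := by
    intro x
    induction x using Finsupp.induction_linear with
    | zero => exact AddSubgroup.zero_mem _
    | add y z hy hz => exact AddSubgroup.add_mem _ hy hz
    | single x b =>
      obtain ⟨i, y, hy⟩ := sph_deg S h hr x.1
      refine AddSubgroup.subset_closure ⟨i, Fc.of ((sph S m).pt q) y b, ?_⟩
      have h1 : Fc.map (x₀ := (sph S m).pt q) (y₀ := (sph S m).pt r) ((sph S m).s i h)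
          (Fc.of ((sph S m).pt q) y b) = Fc.of ((sph S m).pt r) ((sph S m).s i h y) b :=
        Fc.map_of _ ((sph S m).s_pt i h) y b
      refine Eq.trans ?_ h1.symm
      rw [← hy]
      exact Fc.single_eq x b
  exact key x

private theorem zl_comm (S : Type) (m : ℤ) (q : ℤ) (x y : (zl (sph S m)).G q) :
    x + y = y + x := by
  have key : ∀ x y : Fc ℤ ((sph S m).X q) ((sph S m).pt q), x + y = y + x := fun x y =>
    add_comm x y
  exact key x y

/-- **`Z~[wedge of spheres]` is an Eilenberg-MacLane spectrum.**  PROOF: `zl (sph S m)` is zero below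
`m`; for `r > m` all elements are sums of degenerate ones, so `π_r = 0` (`vanish_of_deg`); in degree `m`
all elements are cycles, the boundaries vanish (`vanish_of_deg` with `q = m`), and `zl_m` is free on the
`(s, id)`; compare with `EM.vanish`, `EM.piHom_bijective`. -/
theorem sph_we (S : Type) (m : ℤ) : ∃ c : Map (zl (sph S m)).U (EM (S →₀ ℤ) m), c.WE := by
  obtain ⟨c, hc⟩ := exists_sphMap S m
  refine ⟨Map.ofHom c, fun q => ?_⟩
  by_cases hq : q = m
  · subst hq
    have hZ : ∀ x : (zl (sph S q)).G q, x ∈ (zl (sph S q)).Z q := fun x i r h =>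
      zl_low S (by omega) _
    have hB : ∀ x ∈ (zl (sph S q)).B q, x = 0 :=
      (vanish_of_deg (zl (sph S q)) (zl_comm S q) (rfl : q + 1 = q + 1)
        (fun x => zl_deg S rfl (by omega) x)).2
    -- evaluation
    let φ : Fc ℤ ((sph S q).X q) ((sph S q).pt q) →+ (S →₀ ℤ) :=
      { toFun := fun z => ((c.f q z).1 : (ℕ → ℕ) → (S →₀ ℤ)) id
        map_zero' := by
          have h1 : c.f q 0 = 0 := map_zero _
          exact congrArg (fun w : (EM (S →₀ ℤ) q).G q => w.1 id) h1
        map_add' := fun a b => by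
          have h1 : c.f q (a + b) = c.f q a + c.f q b := map_add _ _ _
          exact congrArg (fun w : (EM (S →₀ ℤ) q).G q => w.1 id) h1 }
    have hφ : ∀ s : S, ∀ n : ℤ, φ (Fc.of ((sph S q).pt q) (SMap.mk' S s (q - q) id) n) =
        Finsupp.single s n := by
      intro s n
      have h1 : Fc.of ((sph S q).pt q) (SMap.mk' S s (q - q) id) n =
          n • Fc.of ((sph S q).pt q) (SMap.mk' S s (q - q) id) (1 : ℤ) := by
        rw [← map_zsmul, smul_eq_mul, mul_one]
      rw [h1, map_zsmul]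
      have h2 : φ (Fc.of ((sph S q).pt q) (SMap.mk' S s (q - q) id) 1) = Finsupp.single s 1 :=
        hc s
      rw [h2, Finsupp.smul_single, smul_eq_mul, mul_one]
    let ψ : (S →₀ ℤ) →+ Fc ℤ ((sph S q).X q) ((sph S q).pt q) :=
      Finsupp.liftAddHom fun s => Fc.of ((sph S q).pt q) (SMap.mk' S s (q - q) id)
    have hψ : ∀ (s : S) (n : ℤ), ψ (Finsupp.single s n) =
        Fc.of ((sph S q).pt q) (SMap.mk' S s (q - q) id) n := fun s n =>
      Finsupp.liftAddHom_apply_single _ _ _
    have h1 : ∀ z, ψ (φ z) = z := by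
      refine DFunLike.congr_fun (f := ψ.comp φ) (g := AddMonoidHom.id _)
        (Fc.hom_ext fun x r => ?_)
      rcases sph_mid S q x with hx | ⟨s, hx⟩
      · have : x = (sph S q).pt q := hx
        rw [this, Fc.of_pt, map_zero, map_zero]
      · rw [hx, AddMonoidHom.comp_apply, hφ, hψ, AddMonoidHom.id_apply]
    have h2 : ∀ w, φ (ψ w) = w := by
      refine DFunLike.congr_fun (f := φ.comp ψ) (g := AddMonoidHom.id _)
        (Finsupp.addHom_ext fun s n => ?_)
      rw [AddMonoidHom.comp_apply, hψ, hφ, AddMonoidHom.id_apply]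
    have hval : ∀ z : (zl (sph S q)).Z q, EM.piHom (S →₀ ℤ) q
        ((Map.ofHom c).pi q ((zl (sph S q)).piMk q z)) = φ z.1 := fun z => rfl
    constructor
    · rw [injective_iff_map_eq_zero]
      intro x hx
      obtain ⟨z, rfl⟩ := (zl (sph S q)).piMk_surj q x
      have h3 : φ z.1 = 0 := by
        rw [← hval, hx, map_zero]
      have h4 : z.1 = 0 := by
        have h5 := h1 z.1
        rw [h3, map_zero] at h5
        exact h5.symm
      rw [piMk_eq_zero, h4]
      exact zero_mem _
    · intro y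
      obtain ⟨w, hw⟩ : ∃ w, w = EM.piHom (S →₀ ℤ) q y := ⟨_, rfl⟩
      refine ⟨(zl (sph S q)).piMk q ⟨ψ w, hZ _⟩, (EM.piHom_bijective q).1 ?_⟩
      rw [hval, ← hw]
      exact h2 w
  · have hV : (zl (sph S m)).Vanish q := by
      rcases lt_or_gt_of_ne hq with h1 | h1
      · intro z _
        rw [zl_low S h1 z]
        exact zero_mem _
      · exact (vanish_of_deg (zl (sph S m)) (zl_comm S m) (by omega : q - 1 + 1 = q)
          (fun x => zl_deg S (by omega) h1 x)).1
    have hW : (EM (S →₀ ℤ) m).Vanish q := EM.vanish hq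
    rw [vanish_iff] at hV hW
    exact ⟨fun x y _ => (hV x).trans (hV y).symm, fun y => ⟨0, (hW _).trans (hW y).symm⟩⟩

end BPN
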