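import Pool.Agent.BPN.R.Nl
import Pool.Agent.BPN.R.Gc
import Pool.Agent.BPN.R.Sph
import Pool.Agent.BPN.R.Div
import Pool.Agent.BPN.L.ModP
import Pool.Agent.BPN.T.SignD

/-!
# Rational cohomology of Eilenberg-MacLane spectra (project BPN, module R/EMz)
-/

namespace BPN

open GSp Classical

theorem EMG.coef_mem {A B : Type} [AddCommGroup A] [AddCommGroup B] (f : A →+ B) {n q : ℤ}
    {c : (ℕ → ℕ) → A} (hc : c ∈ EMG A n q) : (fun g => f (c g)) ∈ EMG B n q := by
  obtain ⟨h1, ⟨D, h2⟩, h3⟩ := hc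
  have h0 : ∀ g, f (c g) ≠ 0 → c g ≠ 0 := fun g hg h => hg (by rw [h, map_zero])
  refine ⟨fun g hg => h1 g (h0 g hg), ⟨D, fun g hg => h2 g (h0 g hg)⟩, fun g hg hs => ?_⟩
  obtain ⟨K, hK⟩ := h3 g hg hs
  refine ⟨K, fun T hT => ?_⟩
  have h4 := congrArg f (hK T hT)
  rw [map_sum, map_zero] at h4
  rw [← h4]
  exact Finset.sum_congr rfl fun i _ => (map_zsmul f _ _).symm

/-- Functoriality in the coefficients. -/
def EM.coef {A B : Type} [AddCommGroup A] [AddCommGroup B] (f : A →+ B) (n : ℤ) :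
    Hom (EM A n) (EM B n) where
  f := fun q =>
    { toFun := fun c => ⟨fun g => f (c.1 g), EMG.coef_mem f c.2⟩
      map_zero' := Subtype.ext (funext fun _ => map_zero f)
      map_add' := fun _ _ => Subtype.ext (funext fun _ => map_add f _ _) }
  map_d := fun _ _ _ _ _ => rfl
  map_s := fun _ _ _ _ _ => rfl

theorem EM.piHom_coef {A B : Type} [AddCommGroup A] [AddCommGroup B] (f : A →+ B) (n : ℤ)
    (x : (EM A n).pi n) :
    EM.piHom B n ((Map.ofHom (EM.coef f n)).pi n x) = f (EM.piHom A n x) := by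
  obtain ⟨z, rfl⟩ := (EM A n).piMk_surj n x
  rfl

/-- A spectrum with homotopy only in degree `q` is an Eilenberg-MacLane spectrum.  PROOF:
`EM.exists_fund` for `G.cover q`, `coverI_we`, `Map.WE.exists_inv`. -/
theorem exists_em (G : GSp) (q : ℤ) (hv : ∀ r, r ≠ q → G.Vanish r) {A : Type} [AddCommGroup A]
    (e : G.pi q ≃+ A) :
    ∃ c : Map G.U (EM A q), c.WE ∧ ∀ x, EM.piHom A q (c.pi q x) = e x := by
  have hI := G.coverI_we q (fun r hr => hv r (by omega))
  obtain ⟨v, hv1, hv2⟩ := hI.exists_inv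
  obtain ⟨a, ha⟩ := EM.exists_fund (G.cover_below q)
    (e.toAddMonoidHom.comp ((Map.ofHom (G.coverI q)).pi q))
  have hc : ∀ x, EM.piHom A q ((Map.comp a v).pi q x) = e x := by
    intro x
    rw [Map.pi_comp, AddMonoidHom.comp_apply, ha]
    have h1 := Map.pi_congr hv1 q
    rw [Map.pi_comp, Map.pi_id] at h1
    have h2 := DFunLike.congr_fun h1 x
    exact congrArg e h2
  refine ⟨Map.comp a v, fun r => ?_, hc⟩
  by_cases hr : r = q
  · subst hr
    have h1 : Function.Bijective (fun x => EM.piHom A r ((Map.comp a v).pi r x)) := by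
      have : (fun x => EM.piHom A r ((Map.comp a v).pi r x)) = e := funext hc
      rw [this]
      exact e.bijective
    exact (Function.Bijective.of_comp_iff' (EM.piHom_bijective (M := A) r) _).mp h1
  · have h1 := vanish_iff.mp (hv r hr)
    have h2 := vanish_iff.mp (EM.vanish (M := A) (n := q) hr)
    refine ⟨fun x y _ => (h1 x).trans (h1 y).symm, fun y => ⟨0, ?_⟩⟩
    rw [map_zero, h2 y]

/-- A map from a spectrum with homotopy only in degree `q` to `EM V q` which is zero on `π_q` is null.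
PROOF: pass to `G.cover q`; all elements of degree `q` are cycles, there are no nonzero boundaries in
`(EM V q)_q`, hence the map is `0` (`EM.map_ext`). -/
theorem em_uniq (G : GSp) (q : ℤ) (hv : ∀ r, r ≠ q → G.Vanish r) {V : Type} [AddCommGroup V]
    (a : Map G.U (EM V q)) (h : ∀ x, a.pi q x = 0) : a.Null := by
  have hI := G.coverI_we q (fun r hr => hv r (by omega))
  have hb := hI.pre_bijective (K := EM V q)
  rw [← HC.mk_eq_zero]
  apply hb.1
  rw [map_zero, HC.pre_mk, HC.mk_eq_zero]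
  have h0 : Map.pre (Map.ofHom (G.coverI q)).toHom a = 0 := by
    refine EM.map_ext fun x => ?_
    have hx : x ∈ (G.cover q).Z q := fun i r hr => G.cover_below q r (by omega) _
    have h1 := h ((Map.ofHom (G.coverI q)).pi q ((G.cover q).piMk q ⟨x, hx⟩))
    exact congrArg (EM.piHom V q) h1
  rw [h0]
  exact Map.null_zero

/-- Maps from `EM F q`, `F` free, to `EM V m`, `V` rational, `q < m`, are null.  PROOF: `sph_we`,
`Map.WE.pre_bijective`; the homology of `Z~[sph]` vanishes in degree `m` by `lin_sph_vanish`,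
`nl_vanish`, `zl_vanish`; `null_of_lin_vanish`. -/
theorem em_free_null (S : Type) {q m : ℤ} (h : q < m) {V : Type} [AddCommGroup V] [Module ℚ V]
    (a : Map (EM (S →₀ ℤ) q).U (EM V m)) : a.Null := by
  obtain ⟨c, hc⟩ := sph_we S q
  have hb := hc.pre_bijective (K := EM V m)
  rw [← HC.mk_eq_zero]
  apply hb.1
  rw [map_zero, HC.pre_mk, HC.mk_eq_zero]
  exact null_of_lin_vanish (k := ℚ) (zl (sph S q)).U
    (zl_vanish ℚ (sph S q) ⟨q, fun r hr x => sph_low S hr x⟩
      (nl_vanish (sph S q) (lin_sph_vanish ℚ S (by omega)))) _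

/-- A criterion for `θ : H → L` to be null.  PROOF: `Map.exists_fib_ext` gives `e` on the fibre with
`e fibI = Ω θ`; `e ≃ g fibP`, `fibP fibI = 0`, so `Ω θ` is null; `CE.om_inj`. -/
theorem CE.null_of_fib {k : Type} [Field k] {G H : GSp} (c : Map G.U H) (hH : H.SBB)
    (L : LSp k) (θ : Map H.U L.toG) (h0 : (Map.comp θ c).Null)
    (h1 : ∀ e : Map c.Fib.U L.toG.Om, ∃ g : Map G.U L.toG.Om,
      HC.mk e = HC.mk (Map.comp g (Map.ofHom c.fibP))) : θ.Null := by
  obtain ⟨e, he⟩ := Map.exists_fib_ext c θ h0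
  obtain ⟨g, hg⟩ := h1 e
  refine CE.om_inj hH L θ ?_
  rw [← he]
  have h2 := congrArg (HC.pre (Map.ofHom c.fibI).toHom) hg
  have h3 : Map.pre (Map.ofHom c.fibI).toHom (Map.comp g (Map.ofHom c.fibP)) = 0 := by
    refine Map.ext2 fun q x => ?_
    have h4 : c.fibP.f q (c.fibI.f q x) = 0 :=
      congrArg (fun m : Map H.Om.U G => m.f q x) c.fibP_fibI
    change g.f q (c.fibP.f q (c.fibI.f q x)) = 0
    rw [h4]
    exact g.map_pt q
  rw [HC.pre_mk, HC.pre_mk, h3, map_zero, HC.mk_eq_zero] at h2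
  exact h2

/-- The fibre of a surjection of Eilenberg-MacLane spectra of the same degree. -/
theorem em_fib {A B : Type} [AddCommGroup A] [AddCommGroup B] {q : ℤ}
    (c : Map (EM A q).U (EM B q)) (hc : Function.Surjective (c.pi q)) :
    (∀ r, r ≠ q → c.Fib.Vanish r) ∧ Function.Injective ((Map.ofHom c.fibP).pi q) := by
  have key : ∀ r (x : c.Fib.pi r), (Map.ofHom c.fibP).pi r x = 0 → x = 0 := by
    intro r x hx
    obtain ⟨y, rfl⟩ := (c.fib_exact_Fib r x).mp hx
    rw [c.fib_exact_Om]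
    by_cases hr : r + 1 = q
    · subst hr
      exact hc _
    · refine ⟨0, ?_⟩
      rw [map_zero, vanish_iff.mp (EM.vanish (M := B) (n := q) hr) (omPi (EM B q) r y)]
  refine ⟨fun r hr => vanish_iff.mpr fun x => key r x
    (vanish_iff.mp (EM.vanish (M := A) (n := q) hr) _), ?_⟩
  rw [injective_iff_map_eq_zero]
  exact key q

/-- Inductive step for `one_null`. -/
theorem one_step {q m m' : ℤ} (h : q < m) (hm : m' + 1 = m) {V : Type} [AddCommGroup V]
    [Module ℚ V]
    (hstep : ∀ (B : Type) [AddCommGroup B] (F : GSp), (∀ r, r ≠ q → F.Vanish r) →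
      ∀ p : Map F.U (EM B q), Function.Injective (p.pi q) → ∀ e : Map F.U (EM V m'),
        ∃ g : Map (EM B q).U (EM V m'), HC.mk e = HC.mk (Map.comp g p))
    (G : GSp) (hv : ∀ r, r ≠ q → G.Vanish r) (a : Map G.U (EM V m)) : a.Null := by
  obtain ⟨c0, hc0, -⟩ := exists_em G q hv (AddEquiv.refl (G.pi q))
  obtain ⟨v, hv1, hv2⟩ := hc0.exists_inv
  suffices hθ : (Map.comp a v).Null by
    have h1 := congrArg (HC.comp a) hv2
    rw [HC.comp_mk, HC.comp_mk, Map.comp_id, Map.comp_assoc] at h1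
    rw [← HC.mk_eq_zero, ← h1, HC.mk_eq_zero]
    exact hθ.comp_left c0
  let f : (G.pi q →₀ ℤ) →+ G.pi q := Finsupp.liftAddHom (fun x => zmultiplesHom _ x)
  have hf : ∀ x, f (Finsupp.single x 1) = x := fun x => by
    simp only [f, Finsupp.liftAddHom_apply_single, zmultiplesHom_apply, one_smul]
  have hc : Function.Surjective ((Map.ofHom (EM.coef f q)).pi q) := by
    intro y
    obtain ⟨x, hx⟩ := (EM.piHom_bijective (M := G.pi q →₀ ℤ) q).2
      (Finsupp.single (EM.piHom (G.pi q) q y) 1)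
    refine ⟨x, (EM.piHom_bijective q).1 ?_⟩
    rw [EM.piHom_coef, hx, hf]
  obtain ⟨hF, hI⟩ := em_fib (Map.ofHom (EM.coef f q)) hc
  refine CE.null_of_fib (Map.ofHom (EM.coef f q)) ⟨q, EM.below _ q⟩ (EML ℚ V m) (Map.comp a v)
    (em_free_null (G.pi q) h _) fun e => ?_
  obtain ⟨e', he'⟩ := Map.lift_bij (EM.toOm V hm) (EM.toOm_bijective hm) e
  obtain ⟨g', hg'⟩ := hstep (G.pi q →₀ ℤ) _ hF (Map.ofHom (Map.ofHom (EM.coef f q)).fibP) hI e'
  refine ⟨Map.post (EM.toOm V hm) g', ?_⟩
  have h1 := congrArg (HC.comp (Map.ofHom (EM.toOm V hm))) hg'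
  rw [HC.comp_mk, HC.comp_mk, Map.comp_ofHom, he'] at h1
  exact h1

/-- **Maps from a spectrum with homotopy only in degree `q` to `EM V m`, `V` rational, `q < m`, are
null.**  PROOF: induction on `m - q`, for all such spectra.  By `exists_em` the source is `EM A q`.  Let
`c : EM (A →₀ ℤ) q → EM A q` be induced by the canonical surjection; `θ c` is null by `em_free_null`;
`c.Fib` has homotopy only in degree `q`, where it is the kernel (`fib_exact_*`).  Apply
`CE.null_of_fib`: `(EM V m).Om ≅ EM V (m - 1)` (`EM.toOm`).  If `m - q ≥ 2`, `e` is null by induction.  If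
`m = q + 1`, the homomorphism `π_q Fib → V` given by `e` extends over the injection
`π_q Fib → A →₀ ℤ` (`exists_ext_div`); realise the extension by `EM.coef` and use `em_uniq`. -/
theorem one_null {q m : ℤ} (h : q < m) {V : Type} [AddCommGroup V] [Module ℚ V] (G : GSp)
    (hv : ∀ r, r ≠ q → G.Vanish r) (a : Map G.U (EM V m)) : a.Null := by
  obtain ⟨n, hn⟩ : ∃ n : ℕ, m = q + n + 1 := ⟨(m - q - 1).toNat, by omega⟩
  induction n generalizing m G with
  | zero =>
    obtain rfl : m = q + 1 := by rw [hn]; simp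
    refine one_step h rfl (fun B _ F hF p hp e => ?_) G hv a
    obtain ⟨ψ, hψ⟩ := exists_ext_div (V := V) (fun n hn v => div_of_rat n hn v)
      ((EM.piHom B q).comp (p.pi q)) ((EM.piHom_bijective q).1.comp hp)
      ((EM.piHom V q).comp (e.pi q))
    refine ⟨Map.ofHom (EM.coef ψ q), HC.mk_eq.mpr (em_uniq F q hF _ fun x => ?_)⟩
    apply (EM.piHom_bijective q).1
    rw [Map.pi_add, Map.pi_neg, map_add, map_neg, map_zero, Map.pi_comp,
      AddMonoidHom.comp_apply, EM.piHom_coef, add_neg_eq_zero]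
    exact (hψ x).symm
  | succ n ih =>
    have hm : (m - 1) + 1 = m := by omega
    refine one_step h hm (fun B _ F hF p hp e => ⟨0, ?_⟩) G hv a
    have h1 : e.Null := ih (by push_cast at hn; omega) F hF e (by push_cast at hn; omega)
    rw [HC.mk_eq_zero.mpr h1]
    symm
    rw [HC.mk_eq_zero]
    exact Map.null_zero

end BPN
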