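import Pool.Agent.BPN.R.Sp

/-!
# Rational homology of the free commutative monoid spectrum (project BPN, module R/Nl)
-/

namespace BPN

open GSp Classical

/-- The multisets of size `≤ d`. -/
noncomputable def nlF (X : PSp) (d : ℕ) : PSub (nl X).U where
  S := fun q => {m : Fc ℕ (X.X q) (X.pt q) | Fc.size m ≤ d}
  pt_mem := fun q => by
    change Fc.size (0 : Fc ℕ (X.X q) (X.pt q)) ≤ d
    rw [map_zero]
    exact Nat.zero_le d
  d_mem := fun i q r h x hx => le_trans (Fc.size_map_le (X.d i h) (X.d_pt i h) x) hx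
  s_mem := fun i q r h x hx => le_trans (Fc.size_map_le (X.s i h) (X.s_pt i h) x) hx

private theorem nl_trunc_lt {X : Type} {x₀ : X} {d : ℕ} {m : Fc ℕ X x₀}
    (h : Fc.size m ≤ d) : Fc.trunc (d + 1) m = ⟨0, Or.inl rfl⟩ := by
  unfold Fc.trunc
  rw [dif_neg (by omega)]

private theorem nl_trunc_eq {X : Type} {x₀ : X} {d : ℕ} {m : Fc ℕ X x₀}
    (h : Fc.size m = d) : (Fc.trunc d m).1 = m := by
  unfold Fc.trunc
  rw [dif_pos h]

/-- the quotient map onto the symmetric smash power -/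
private noncomputable def nlψ (X : PSp) (d : ℕ) : PSp.Hom (nlF X (d + 1)).toPSp (sp X (d + 1)) where
  f := fun q x => Fc.trunc (d + 1) x.1
  map_pt := fun q => nl_trunc_lt (m := (0 : Fc ℕ (X.X q) (X.pt q))) (by
    rw [map_zero]; exact Nat.zero_le d)
  map_d := fun i q r h x => (Fc.trunc_map_trunc (d + 1) (X.d i h) (X.d_pt i h) x.1 x.2).symm
  map_s := fun i q r h x => (Fc.trunc_map_trunc (d + 1) (X.s i h) (X.s_pt i h) x.1 x.2).symm

/-- the inclusion of the smaller filtration -/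
private noncomputable def nlφ (X : PSp) (d : ℕ) :
    PSp.Hom (nlF X d).toPSp (nlF X (d + 1)).toPSp where
  f := fun q x => ⟨x.1, le_trans x.2 (Nat.le_succ d)⟩
  map_pt := fun q => rfl
  map_d := fun i q r h x => rfl
  map_s := fun i q r h x => rfl

/-- One step of the filtration: `nlF d → nlF (d + 1) → sp (d + 1)`, `lin_vanish_ext`. -/
theorem nlF_step (X : PSp) (d : ℕ) {m : ℤ} (h : (lin ℚ (nlF X d).toPSp).toG.Vanish m)
    (h' : (lin ℚ (sp X (d + 1))).toG.Vanish m) :
    (lin ℚ (nlF X (d + 1)).toPSp).toG.Vanish m := by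
  refine lin_vanish_ext (nlφ X d) (nlψ X d) ?_ ?_ ?_ ?_ h h'
  · intro q x y hxy
    exact Subtype.ext (congrArg (fun z : (nlF X (d + 1)).toPSp.X q => z.1) hxy)
  · intro q y
    have hy : Fc.size y.1 ≤ d + 1 := by
      rcases y.2 with h1 | h1
      · rw [h1, map_zero]
        exact Nat.zero_le _
      · exact h1.le
    exact ⟨⟨y.1, hy⟩, Fc.trunc_self (d + 1) y⟩
  · intro q x
    exact nl_trunc_lt x.2
  · intro q b b' hbb
    change Fc.trunc (d + 1) b.1 = Fc.trunc (d + 1) b'.1 at hbb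
    have key : ∀ b b' : (nlF X (d + 1)).toPSp.X q,
        Fc.trunc (d + 1) b.1 = Fc.trunc (d + 1) b'.1 → Fc.size b.1 = d + 1 → b = b' := by
      intro b b' hb h1
      have e1 := congrArg Subtype.val hb
      rw [nl_trunc_eq h1] at e1
      rcases Nat.lt_or_ge (Fc.size b'.1) (d + 1) with h2 | h2
      · rw [nl_trunc_lt (Nat.le_of_lt_succ h2)] at e1
        have e2 : Fc.size b.1 = 0 := by
          rw [e1]
          exact map_zero _
        omega
      · rw [nl_trunc_eq (le_antisymm b'.2 h2)] at e1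
        exact Subtype.ext e1
    rcases Nat.lt_or_ge (Fc.size b.1) (d + 1) with h1 | h1
    · rcases Nat.lt_or_ge (Fc.size b'.1) (d + 1) with h2 | h2
      · exact Or.inr ⟨⟨⟨b.1, Nat.le_of_lt_succ h1⟩, rfl⟩, ⟨⟨b'.1, Nat.le_of_lt_succ h2⟩, rfl⟩⟩
      · exact Or.inl (key b' b hbb.symm (le_antisymm b'.2 h2)).symm
    · exact Or.inl (key b b' hbb (le_antisymm b.2 h1))

theorem nlF_vanish (X : PSp) {m : ℤ} (h : (lin ℚ X).toG.Vanish m) (d : ℕ) :
    (lin ℚ (nlF X d).toPSp).toG.Vanish m := by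
  induction d with
  | zero =>
    have hpt : ∀ (q : ℤ) (x : (nlF X 0).toPSp.X q), x = (nlF X 0).toPSp.pt q := by
      intro q x
      exact Subtype.ext (Fc.size_eq_zero (Nat.le_zero.1 x.2))
    intro z _
    have hz : z = 0 := by
      refine Finsupp.ext fun x => ?_
      exact absurd (hpt m x.1) x.2
    rw [hz]
    exact zero_mem _
  | succ d ih =>
    refine nlF_step X d ih ?_
    rcases Nat.eq_zero_or_pos d with h0 | h0
    · subst h0
      obtain ⟨φ, hφ⟩ := exists_sp_one X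
      exact lin_vanish_iso φ hφ h
    · exact sp_acyclic X (d + 1) (by omega) m

/-- **Rational homology of `N~[X]`.**  PROOF: every cycle lies in the image of `lin (nlF X d)` for
large `d` (`linMap_inj`), where it is a boundary. -/
theorem nl_vanish (X : PSp) {m : ℤ} (h : (lin ℚ X).toG.Vanish m) :
    (lin ℚ (nl X).U).toG.Vanish m := by
  intro z hz
  -- the support lies in one step of the filtration
  obtain ⟨d, hd⟩ : ∃ d : ℕ, ∀ x ∈ (show Fr ℚ ((nl X).U.X m) ((nl X).U.pt m) from z).support,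
      Fc.size (show Fc ℕ (X.X m) (X.pt m) from x.1) ≤ d := by
    refine ⟨(show Fr ℚ ((nl X).U.X m) ((nl X).U.pt m) from z).support.sup
      (fun x => Fc.size (show Fc ℕ (X.X m) (X.pt m) from x.1)), fun x hx => ?_⟩
    exact Finset.le_sup (f := fun x : {x : (nl X).U.X m // x ≠ (nl X).U.pt m} =>
      Fc.size (show Fc ℕ (X.X m) (X.pt m) from x.1)) hx
  have hinc : ∀ q, Function.Injective ((nlF X d).incl.f q) := fun q x y h => Subtype.ext h
  have hlift : ∀ z : Fr ℚ ((nl X).U.X m) ((nl X).U.pt m),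
      (∀ x ∈ z.support, Fc.size (show Fc ℕ (X.X m) (X.pt m) from x.1) ≤ d) →
      z ∈ LinearMap.range ((linMap ℚ (nlF X d).incl).f m) := by
    intro z hz
    rw [← Finsupp.sum_single z]
    refine Submodule.sum_mem _ fun x hx => ?_
    obtain ⟨w, hw⟩ : ∃ w : (nlF X d).toPSp.X m, (nlF X d).incl.f m w = x.1 :=
      ⟨⟨x.1, hz x hx⟩, rfl⟩
    refine ⟨z x • Fr.of ℚ ((nlF X d).toPSp.pt m) w, ?_⟩
    refine (((linMap ℚ (nlF X d).incl).f m).map_smul (z x) _).trans ?_
    refine (congrArg (fun w => z x • w) (linMap_of ℚ (nlF X d).incl m w)).trans ?_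
    change z x • Fr.of ℚ ((nl X).U.pt m) ((nlF X d).incl.f m w) = Finsupp.single x (z x)
    rw [hw, Fr.of_ne x.2, Finsupp.smul_single, smul_eq_mul, mul_one]
  obtain ⟨z', hz'⟩ := hlift z hd
  have hcyc : z' ∈ (lin ℚ (nlF X d).toPSp).toG.Z m := by
    intro i r h
    apply linMap_inj (k := ℚ) (nlF X d).incl r (hinc r)
    rw [map_zero]
    have e1 := (linMap ℚ (nlF X d).incl).map_d i h z'
    refine e1.trans ?_
    rw [hz']
    exact hz i h
  obtain ⟨y, hy, hy0⟩ := nlF_vanish X h d z' hcyc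
  have hB := (linMap ℚ (nlF X d).incl).toG.map_N hy
  refine ⟨_, hB, ?_⟩
  have e2 := (linMap ℚ (nlF X d).incl).map_d 0 (rfl : m + 1 = m + 1) y
  refine e2.symm.trans ?_
  have e3 : (lin ℚ (nlF X d).toPSp).d 0 (rfl : m + 1 = m + 1) y = z' := hy0
  rw [e3]
  exact hz'

end BPN
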