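import Pool.Agent.BPN.R.EMz

/-!
# Rational Hurewicz theorem (project BPN, module R/Rat)
-/

namespace BPN

open GSp

/-- The kernel of the Postnikov projection has the homotopy of `G` in degrees `≥ m` only. -/
theorem ker_postP_vanish (G : GSp) (m : ℤ) {r : ℤ} (hr : r < m ∨ G.Vanish r) :
    (ker (G.postP m)).Vanish r := by
  refine vanish_iff.mpr fun x => ?_
  have h1 : (Map.ofHom (kerIncl (G.postP m))).pi r x = 0 := by
    rcases hr with hr | hr
    · apply (G.postP_bijective m r hr).1
      rw [map_zero, exact_E _ (G.postP_surj m)]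
      exact ⟨x, rfl⟩
    · exact vanish_iff.mp hr _
  obtain ⟨y, rfl⟩ := (exact_K (G.postP m) (G.postP_surj m) rfl x).mp h1
  rw [exact_G]
  rcases lt_or_ge (r + 1) m with h2 | h2
  · exact (G.postP_bijective m (r + 1) h2).2 y
  · exact ⟨0, by rw [map_zero, vanish_iff.mp (G.post_vanish m (r + 1) h2) y]⟩

theorem ker_postP_below (G : GSp) (m : ℤ) : (ker (G.postP m)).Below m := by
  intro q hq x
  have := G.covS_normal m q
  have h1 : Cov G m q x.1 := (QuotientAddGroup.eq_zero_iff (N := G.covS m q) x.1).mp x.2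
  exact Subtype.ext ((G.cov_lt m hq x.1).mp h1)

/-- If `π_q G = 0` for `q ≥ m` then all maps `G → EM V m`, `V` rational, are null.  PROOF: let `G` be zero
below `n`.  Induction on `k` for spectra `H` (SBB) with homotopy only in degrees `n ≤ q < k`, `k ≤ m`:
`p = H.postP (k - 1)`, its kernel `H.cover (k - 1)` has homotopy only in degree `k - 1`, so the restriction
of `a` to the kernel is null (`one_null`), `a ≃ θ p` (`CE.exact_E`) and `θ` is null by induction. -/
theorem low_null (G : GSp) (hG : G.SBB) (m : ℤ) (hv : ∀ q, m ≤ q → G.Vanish q) {V : Type}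
    [AddCommGroup V] [Module ℚ V] (a : Map G.U (EM V m)) : a.Null := by
  obtain ⟨n, hn⟩ := hG
  have key : ∀ j : ℕ, n + j ≤ m → ∀ (H : GSp), H.Below n → (∀ q, n + j ≤ q → H.Vanish q) →
      ∀ a : Map H.U (EM V m), a.Null := by
    intro j
    induction j with
    | zero =>
      intro _ H hH hvH a
      refine Map.null_of_acyclic_source (fun q => ?_) a
      rcases lt_or_ge q n with hq | hq
      · exact hH.vanish hq
      · exact hvH q (by push_cast; omega)
    | succ j ih =>
      intro hj H hH hvH a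
      push_cast at hj hvH
      have h1 : (Map.comp a (Map.ofHom (kerIncl (H.postP (n + j))))).Null :=
        one_null (q := n + j) (by omega) _ (fun r hr => ker_postP_vanish H (n + j) (by
          rcases lt_or_gt_of_ne hr with h | h
          · exact Or.inl h
          · exact Or.inr (hvH r (by omega)))) _
      obtain ⟨θ, hθ⟩ := CE.exact_E (H.postP (n + j)) (H.postP_surj _) ⟨n, hH⟩ (EML ℚ V m) a h1
      have h2 : θ.Null := ih (by omega) (H.post (n + j)) (H.post_below _ _ hH)
        (fun q hq => H.post_vanish _ q hq) θ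
      exact HC.mk_eq_zero.mp (hθ.symm.trans (HC.mk_eq_zero.mpr (h2.comp_left _)))
  rcases le_total n m with h | h
  · obtain ⟨j, hj⟩ : ∃ j : ℕ, m = n + j := ⟨(m - n).toNat, by omega⟩
    exact key j hj.ge G hn (fun q hq => hv q (by omega)) a
  · refine Map.null_of_acyclic_source (fun q => ?_) a
    rcases lt_or_ge q n with hq | hq
    · exact hn.vanish hq
    · exact hv q (by omega)

/-- **Rational cohomology classes with prescribed effect on homotopy.**  PROOF: replace `E` by
`E' = E.post (j + 1)` (same `π_j`, no homotopy above `j`).  Let `p = E'.postP j`, `K = ker p` (`= E'.cover j`,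
`π_j K = π_j E'`, `K` is zero below `j`).  `EM.exists_fund` gives `K → EM V j ≅ (EM V (j + 1)).Om`; call it
`u`; `CE.exists_transgression` gives `κ : E'.post j → EM V (j + 1)` and `b : E' → P (EM V (j + 1))` over
`κ p`, equal to `u` on `K`; `κ` is null by `low_null`, `κ = dP β`; then `b - β p` lies in the kernel of `dP`,
i.e. it is a map `E' → (EM V (j + 1)).Om ≅ EM V j` equal to `u` on `K`. -/
theorem rat_exists (E : GSp) (hE : E.SBB) (j : ℤ) {V : Type} [AddCommGroup V] [Module ℚ V]
    (φ : E.pi j →+ V) : ∃ a : Map E.U (EM V j), ∀ x, EM.piHom V j (a.pi j x) = φ x := by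
  obtain ⟨n, hn⟩ := hE
  have hp0 := E.postP_bijective (j + 1) j (by omega)
  let ε := AddEquiv.ofBijective _ hp0
  have hε : ∀ x, ε.symm ((Map.ofHom (E.postP (j + 1))).pi j x) = x := ε.symm_apply_apply
  have hb' : (E.post (j + 1)).Below n := E.post_below _ _ hn
  obtain ⟨p, hp⟩ : ∃ p, p = (E.post (j + 1)).postP j := ⟨_, rfl⟩
  have hps : p.Surj := by rw [hp]; exact GSp.postP_surj _ _
  obtain ⟨u0, hu0⟩ := EM.exists_fund (G := ker p) (m := j) (by
    rw [hp]; exact ker_postP_below _ _)
    ((φ.comp ε.symm.toAddMonoidHom).comp ((Map.ofHom (kerIncl p)).pi j))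
  obtain ⟨κ, b, hb1, hb2⟩ : ∃ (κ : Map ((E.post (j + 1)).post j).U (EM V (j + 1)))
      (b : Map (E.post (j + 1)).U (EM V (j + 1)).P),
      Map.post (EM V (j + 1)).dP b = Map.comp κ (Map.ofHom p) ∧
      ∀ q (x : (ker p).G q),
        b.f q x.1 = ((Map.post (EM.toOm V (rfl : j + 1 = j + 1)) u0).f q x).1 :=
    CE.exists_transgression p hps ⟨n, hb'⟩ (EML ℚ V (j + 1))
      (Map.post (EM.toOm V (rfl : j + 1 = j + 1)) u0)
  have hκ : κ.Null := low_null _ ⟨n, GSp.post_below _ _ _ hb'⟩ (j + 1)
    (fun q hq => GSp.post_vanish _ _ q (by omega)) κ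
  obtain ⟨β, hβ⟩ := hκ
  -- the difference takes values in the loops
  obtain ⟨D, hD⟩ : ∃ D : Map (E.post (j + 1)).U (EM V (j + 1)).P,
      D = b + -(Map.comp β (Map.ofHom p)) := ⟨_, rfl⟩
  have hD0 : Map.post (EM V (j + 1)).dP D = 0 := by
    rw [hD, map_add, map_neg]
    have h1 : Map.post (EM V (j + 1)).dP (Map.comp β (Map.ofHom p)) =
        Map.comp κ (Map.ofHom p) := by
      rw [← hβ]
      rfl
    rw [h1]
    exact add_neg_eq_zero.mpr hb1
  have hDq : ∀ q x, (EM V (j + 1)).dP.f q (D.f q x) = 0 := fun q x =>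
    congrArg (fun m : Map (E.post (j + 1)).U (EM V (j + 1)) => m.f q x) hD0
  let w : Map (E.post (j + 1)).U (EM V (j + 1)).Om :=
    { f := fun q x => ⟨D.f q x, hDq q x⟩
      map_pt := fun q => Subtype.ext (D.map_pt q)
      map_d := fun i _ _ h x => Subtype.ext (D.map_d i h x)
      map_s := fun i _ _ h x => Subtype.ext (D.map_s i h x) }
  obtain ⟨a', ha'⟩ := Map.lift_bij (EM.toOm V (rfl : j + 1 = j + 1)) (EM.toOm_bijective rfl) w
  have hK : Map.comp a' (Map.ofHom (kerIncl p)) = u0 := by
    refine Map.ext2 fun q x => (EM.toOm_bijective (rfl : j + 1 = j + 1) q).1 ?_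
    have h1 : (EM.toOm V (rfl : j + 1 = j + 1)).f q (a'.f q x.1) = w.f q x.1 :=
      congrArg (fun m : Map (E.post (j + 1)).U (EM V (j + 1)).Om => m.f q x.1) ha'
    refine h1.trans (Subtype.ext ?_)
    have h2 : D.f q x.1 = b.f q x.1 := by
      rw [hD]
      change b.f q x.1 + -(β.f q (p.f q x.1)) = b.f q x.1
      have h3 : p.f q x.1 = 0 := x.2
      rw [h3]
      have h4 : β.f q (0 : ((E.post (j + 1)).post j).G q) = 0 := β.map_pt q
      rw [h4, neg_zero, add_zero]
    exact h2.trans (hb2 q x)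
  refine ⟨Map.comp a' (Map.ofHom (E.postP (j + 1))), fun x => ?_⟩
  rw [Map.pi_comp, AddMonoidHom.comp_apply]
  obtain ⟨y, hy⟩ := (exact_E p hps ((Map.ofHom (E.postP (j + 1))).pi j x)).mp (by
    have hv : ((E.post (j + 1)).post j).Vanish j := GSp.post_vanish _ _ j le_rfl
    exact vanish_iff.mp hv _)
  rw [← hy]
  have h5 := congrArg (fun m : Map (ker p).U (EM V j) => m.pi j y) hK
  simp only [Map.pi_comp, AddMonoidHom.comp_apply] at h5
  rw [h5, hu0]
  change φ (ε.symm ((Map.ofHom (kerIncl p)).pi j y)) = φ x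
  rw [hy, hε]

end BPN
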