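import Pool.Agent.BPN.R.Gen

/-!
# Symmetric smash powers (project BPN, module R/Sp)

`sp X d` consists of the multisets of size exactly `d` of elements `≠ pt` of `X` (and the base point
`0`): it is the levelwise quotient of the `d`-fold smash power of `X` by the symmetric group.  Its
rational homology vanishes for `d ≥ 2`.
-/

namespace BPN

open GSp Classical

/-- The size of a multiset. -/
noncomputable def Fc.size {X : Type} {x₀ : X} : Fc ℕ X x₀ →+ ℕ :=
  Finsupp.liftAddHom (fun _ => AddMonoidHom.id ℕ)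

private theorem sp_size_single {X : Type} {x₀ : X} (x : {x : X // x ≠ x₀}) (r : ℕ) :
    Fc.size (Finsupp.single x r : Fc ℕ X x₀) = r := by
  unfold Fc.size
  rw [Finsupp.liftAddHom_apply_single]
  rfl

theorem Fc.size_of {X : Type} {x₀ : X} {x : X} (h : x ≠ x₀) (r : ℕ) :
    Fc.size (Fc.of x₀ x r) = r := by
  rw [Fc.of_ne h]
  exact sp_size_single ⟨x, h⟩ r

private theorem sp_of_single {X : Type} {x₀ : X} (x : {x : X // x ≠ x₀}) (r : ℕ) :
    (Finsupp.single x r : Fc ℕ X x₀) = Fc.of x₀ x.1 r := by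
  rw [Fc.of_ne x.2]

private theorem sp_split {X : Type} {x₀ : X} (m : Fc ℕ X x₀) {x : {x : X // x ≠ x₀}}
    (hx : x ∈ m.support) : Finsupp.single x 1 + (m - Finsupp.single x 1) = m := by
  have h : Finsupp.single x 1 ≤ m := by
    rw [Finsupp.single_le_iff]
    exact Nat.one_le_iff_ne_zero.2 (Finsupp.mem_support_iff.1 hx)
  exact add_tsub_cancel_of_le h

private theorem sp_size_sub {X : Type} {x₀ : X} (m : Fc ℕ X x₀) {x : {x : X // x ≠ x₀}}
    (hx : x ∈ m.support) : Fc.size m = 1 + Fc.size (m - Finsupp.single x 1 : Fc ℕ X x₀) := by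
  conv_lhs => rw [← sp_split m hx]
  rw [map_add, sp_size_single]

private theorem sp_size_of_le {X : Type} {x₀ : X} (x : X) (r : ℕ) :
    Fc.size (Fc.of x₀ x r) ≤ r := by
  by_cases h : x = x₀
  · subst h
    rw [Fc.of_pt, map_zero]
    exact Nat.zero_le _
  · rw [Fc.size_of h]

theorem Fc.size_eq_zero {X : Type} {x₀ : X} {m : Fc ℕ X x₀} (h : Fc.size m = 0) : m = 0 := by
  by_contra hne
  obtain ⟨x, hx⟩ := Finsupp.support_nonempty_iff.2 hne
  have h1 := sp_size_sub m hx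
  omega

theorem Fc.size_map_le {X Y : Type} {x₀ : X} {y₀ : Y} (f : X → Y) (hf : f x₀ = y₀)
    (m : Fc ℕ X x₀) : Fc.size (Fc.map (y₀ := y₀) f m) ≤ Fc.size m := by
  induction m using Finsupp.induction_linear with
  | zero =>
    rw [map_zero, map_zero]
    exact Nat.zero_le _
  | add a b ha hb =>
    rw [map_add, map_add, map_add]
    exact Nat.add_le_add ha hb
  | single x r =>
    rw [sp_size_single, sp_of_single, Fc.map_of _ hf]
    exact sp_size_of_le _ _

/-- The size does not drop iff no element goes to the base point. -/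
theorem Fc.size_map_eq {X Y : Type} {x₀ : X} {y₀ : Y} (f : X → Y) (hf : f x₀ = y₀)
    (m : Fc ℕ X x₀) : Fc.size (Fc.map (y₀ := y₀) f m) = Fc.size m ↔
      ∀ x ∈ m.support, f x.1 ≠ y₀ := by
  constructor
  · intro h x hx hfx
    have h1 := sp_size_sub m hx
    have h2 : Fc.map (y₀ := y₀) f m = Fc.map (y₀ := y₀) f (m - Finsupp.single x 1) := by
      conv_lhs => rw [← sp_split m hx]
      rw [map_add, sp_of_single, Fc.map_of _ hf, hfx, Fc.of_pt, zero_add]
    have h3 := Fc.size_map_le (y₀ := y₀) f hf (m - Finsupp.single x 1)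
    rw [← h2] at h3
    omega
  · intro h
    have h1 : Fc.map (y₀ := y₀) f m = m.sum fun x n => Fc.of y₀ (f x.1) n := rfl
    rw [h1, map_finsuppSum]
    have h2 : Fc.size m = m.sum fun _ n => n := rfl
    rw [h2]
    exact Finsupp.sum_congr fun x hx => Fc.size_of (h x hx) _

private theorem sp_map_map {X Y Z : Type} {x₀ : X} {y₀ : Y} {z₀ : Z} (f : X → Y)
    (g : Y → Z) (hf : f x₀ = y₀) (hg : g y₀ = z₀) (m : Fc ℕ X x₀) :
    Fc.map (y₀ := z₀) g (Fc.map (y₀ := y₀) f m) = Fc.map (y₀ := z₀) (fun x => g (f x)) m := by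
  refine DFunLike.congr_fun (f := (Fc.map (x₀ := y₀) (y₀ := z₀) g).comp
    (Fc.map (x₀ := x₀) (y₀ := y₀) f)) (g := Fc.map (x₀ := x₀) (y₀ := z₀) (fun x => g (f x)))
    (Fc.hom_ext fun x r => ?_) m
  rw [AddMonoidHom.comp_apply, Fc.map_of f hf, Fc.map_of g hg,
    Fc.map_of (fun x => g (f x)) (by rw [hf, hg])]

private theorem sp_map_id {X : Type} {x₀ : X} (m : Fc ℕ X x₀) :
    Fc.map (y₀ := x₀) (fun x : X => x) m = m := by
  refine DFunLike.congr_fun (f := Fc.map (x₀ := x₀) (y₀ := x₀) (fun x : X => x))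
    (g := AddMonoidHom.id _) (Fc.hom_ext fun x r => ?_) m
  rw [Fc.map_of _ rfl]
  rfl

/-- `m` if it has size `d`, `0` otherwise. -/
noncomputable def Fc.trunc {X : Type} {x₀ : X} (d : ℕ) (m : Fc ℕ X x₀) :
    {m : Fc ℕ X x₀ // m = 0 ∨ Fc.size m = d} :=
  if h : Fc.size m = d then ⟨m, Or.inr h⟩ else ⟨0, Or.inl rfl⟩

private theorem sp_trunc_of {X : Type} {x₀ : X} {d : ℕ} {m : Fc ℕ X x₀} (h : Fc.size m = d) :
    Fc.trunc d m = ⟨m, Or.inr h⟩ := dif_pos h

private theorem sp_trunc_ne {X : Type} {x₀ : X} {d : ℕ} {m : Fc ℕ X x₀} (h : Fc.size m ≠ d) :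
    Fc.trunc d m = ⟨0, Or.inl rfl⟩ := dif_neg h

private theorem sp_trunc_zero {X : Type} {x₀ : X} (d : ℕ) :
    Fc.trunc d (0 : Fc ℕ X x₀) = ⟨0, Or.inl rfl⟩ := by
  by_cases h : Fc.size (0 : Fc ℕ X x₀) = d
  · exact sp_trunc_of h
  · exact sp_trunc_ne h

theorem Fc.trunc_self {X : Type} {x₀ : X} (d : ℕ) (m : {m : Fc ℕ X x₀ // m = 0 ∨ Fc.size m = d}) :
    Fc.trunc d m.1 = m := by
  obtain ⟨m, hm⟩ := m
  rcases hm with hm | hm
  · subst hm
    exact sp_trunc_zero d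
  · exact sp_trunc_of hm

private theorem sp_size_le {X : Type} {x₀ : X} {d : ℕ}
    (m : {m : Fc ℕ X x₀ // m = 0 ∨ Fc.size m = d}) : Fc.size m.1 ≤ d := by
  rcases m.2 with h | h
  · rw [h, map_zero]
    exact Nat.zero_le _
  · exact h.le

theorem Fc.trunc_map_trunc {X Y : Type} {x₀ : X} {y₀ : Y} (d : ℕ) (f : X → Y) (hf : f x₀ = y₀)
    (m : Fc ℕ X x₀) (hm : Fc.size m ≤ d) :
    Fc.trunc d (Fc.map (y₀ := y₀) f (Fc.trunc d m).1) = Fc.trunc d (Fc.map (y₀ := y₀) f m) := by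
  by_cases h : Fc.size m = d
  · rw [sp_trunc_of h]
  · have h1 := Fc.size_map_le (y₀ := y₀) f hf m
    rw [sp_trunc_ne h, sp_trunc_ne (by omega : Fc.size (Fc.map (y₀ := y₀) f m) ≠ d), map_zero]
    exact sp_trunc_zero d

/-- Composition of two operators after truncation. -/
theorem Fc.trunc_map_map {X Y Z : Type} {x₀ : X} {y₀ : Y} {z₀ : Z} (d : ℕ) (f : X → Y)
    (g : Y → Z) (hf : f x₀ = y₀) (hg : g y₀ = z₀)
    (m : {m : Fc ℕ X x₀ // m = 0 ∨ Fc.size m = d}) :
    Fc.trunc d (Fc.map (y₀ := z₀) g (Fc.trunc d (Fc.map (y₀ := y₀) f m.1)).1) =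
      Fc.trunc d (Fc.map (y₀ := z₀) (fun x => g (f x)) m.1) := by
  rw [Fc.trunc_map_trunc d g hg _ ((Fc.size_map_le f hf m.1).trans (sp_size_le m)),
    sp_map_map f g hf hg]

/-- The `d`-th symmetric smash power. -/
noncomputable def sp (X : PSp) (d : ℕ) : PSp where
  X := fun q => {m : Fc ℕ (X.X q) (X.pt q) // m = 0 ∨ Fc.size m = d}
  pt := fun _ => ⟨0, Or.inl rfl⟩
  d := fun i _ _ h m => Fc.trunc d (Fc.map (X.d i h) m.1)
  s := fun i _ _ h m => Fc.trunc d (Fc.map (X.s i h) m.1)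
  d_pt := fun i _ _ h => by
    rw [map_zero]
    exact sp_trunc_zero d
  s_pt := fun i _ _ h => by
    rw [map_zero]
    exact sp_trunc_zero d
  dd := fun hij _ _ _ h₁ h₂ x => by
    rw [Fc.trunc_map_map d _ _ (X.d_pt _ _) (X.d_pt _ _),
      Fc.trunc_map_map d _ _ (X.d_pt _ _) (X.d_pt _ _)]
    congr 2
    exact congrArg (fun g => Fc.map g) (funext fun x => X.dd hij h₁ h₂ x)
  ds_lt := fun hij _ _ _ h₁ h₂ x => by
    rw [Fc.trunc_map_map d _ _ (X.s_pt _ _) (X.d_pt _ _),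
      Fc.trunc_map_map d _ _ (X.d_pt _ _) (X.s_pt _ _)]
    congr 2
    exact congrArg (fun g => Fc.map g) (funext fun x => X.ds_lt hij h₁ h₂ x)
  ds_eq := fun i _ _ h x => by
    rw [Fc.trunc_map_map d _ _ (X.s_pt _ _) (X.d_pt _ _)]
    have h1 : (fun x => X.d i h (X.s i h x)) = fun x => x := funext fun x => X.ds_eq i h x
    rw [h1, sp_map_id, Fc.trunc_self]
  ds_succ := fun i _ _ h x => by
    rw [Fc.trunc_map_map d _ _ (X.s_pt _ _) (X.d_pt _ _)]
    have h1 : (fun x => X.d (i + 1) h (X.s i h x)) = fun x => x :=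
      funext fun x => X.ds_succ i h x
    rw [h1, sp_map_id, Fc.trunc_self]
  ds_gt := fun hij _ _ _ h₁ h₂ x => by
    rw [Fc.trunc_map_map d _ _ (X.s_pt _ _) (X.d_pt _ _),
      Fc.trunc_map_map d _ _ (X.d_pt _ _) (X.s_pt _ _)]
    congr 2
    exact congrArg (fun g => Fc.map g) (funext fun x => X.ds_gt hij h₁ h₂ x)
  ss := fun hij _ _ _ h₁ h₂ x => by
    rw [Fc.trunc_map_map d _ _ (X.s_pt _ _) (X.s_pt _ _),
      Fc.trunc_map_map d _ _ (X.s_pt _ _) (X.s_pt _ _)]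
    congr 2
    exact congrArg (fun g => Fc.map g) (funext fun x => X.ss hij h₁ h₂ x)
  fin := fun h x => by
    obtain ⟨n, hn⟩ := Fc.fin ℕ X h x.1
    refine ⟨n, fun i hi => ?_⟩
    rw [hn i hi]
    exact sp_trunc_zero d

/-- The first symmetric power is `X`. -/
theorem exists_sp_one (X : PSp) : ∃ φ : PSp.Hom X (sp X 1), ∀ q, Function.Bijective (φ.f q) := by
  have hnat : ∀ {A B : Type} {a₀ : A} {b₀ : B} (f : A → B) (_ : f a₀ = b₀) (x : A),
      Fc.trunc 1 (Fc.of b₀ (f x) 1) =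
        Fc.trunc 1 (Fc.map (y₀ := b₀) f (Fc.trunc 1 (Fc.of a₀ x 1)).1) := by
    intro A B a₀ b₀ f hf x
    rw [Fc.trunc_map_trunc 1 f hf _ (sp_size_of_le x 1), Fc.map_of f hf]
  refine ⟨⟨fun q x => Fc.trunc 1 (Fc.of (X.pt q) x 1), fun q => ?_, fun i q r h x => ?_,
    fun i q r h x => ?_⟩, fun q => ⟨fun x y hxy => ?_, fun m => ?_⟩⟩
  · rw [Fc.of_pt]
    exact sp_trunc_zero 1
  · exact hnat (X.d i h) (X.d_pt i h) x
  · exact hnat (X.s i h) (X.s_pt i h) x
  · have hval : ∀ z : X.X q, (Fc.trunc 1 (Fc.of (X.pt q) z 1)).1 = Fc.of (X.pt q) z 1 := by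
      intro z
      by_cases hz : z = X.pt q
      · rw [hz, Fc.of_pt, sp_trunc_zero]
      · rw [sp_trunc_of (Fc.size_of hz 1)]
    have h1 : Fc.of (X.pt q) x 1 = Fc.of (X.pt q) y 1 := by
      rw [← hval x, ← hval y]
      exact congrArg Subtype.val hxy
    by_cases hx : x = X.pt q
    · by_cases hy : y = X.pt q
      · rw [hx, hy]
      · have h2 := congrArg Fc.size h1
        rw [Fc.size_of hy, hx, Fc.of_pt, map_zero] at h2
        omega
    · by_cases hy : y = X.pt q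
      · have h2 := congrArg Fc.size h1
        rw [Fc.size_of hx, hy, Fc.of_pt, map_zero] at h2
        omega
      · rw [Fc.of_ne hx, Fc.of_ne hy] at h1
        have h2 := Finsupp.single_left_injective (one_ne_zero : (1 : ℕ) ≠ 0) h1
        exact congrArg Subtype.val h2
  · obtain ⟨m, hm⟩ := m
    by_cases h0 : m = 0
    · subst h0
      refine ⟨X.pt q, ?_⟩
      change Fc.trunc 1 (Fc.of (X.pt q) (X.pt q) 1) = _
      rw [Fc.of_pt]
      exact sp_trunc_zero 1
    · have hm1 : Fc.size m = 1 := hm.resolve_left h0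
      obtain ⟨x, hx⟩ := Finsupp.support_nonempty_iff.2 h0
      have h1 := sp_size_sub m hx
      have h2 : m - Finsupp.single x 1 = 0 := Fc.size_eq_zero (by omega)
      have h3 := sp_split m hx
      rw [h2, add_zero] at h3
      refine ⟨x.1, ?_⟩
      change Fc.trunc 1 (Fc.of (X.pt q) x.1 1) = _
      rw [← sp_of_single, h3]
      exact sp_trunc_of hm1

/-- truncated multisets -/
private abbrev SpS (d : ℕ) (X : Type) (x₀ : X) : Type :=
  {m : Fc ℕ X x₀ // m = 0 ∨ Fc.size m = d}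

/-- the empty multiset -/
private def sp0 {X : Type} (x₀ : X) (d : ℕ) : SpS d X x₀ := ⟨0, Or.inl rfl⟩

/-- points of the smash product -/
private abbrev SpM (d : ℕ) (X : Type) (x₀ : X) : Type :=
  {p : X × SpS d X x₀ // p.1 = x₀ ↔ p.2 = sp0 x₀ d}

/-- base point of the smash product -/
private def spm0 {X : Type} (x₀ : X) (d : ℕ) : SpM d X x₀ := ⟨(x₀, sp0 x₀ d), by simp⟩

/-- a function on the points of the smash product -/
private noncomputable def spF {X Y : Type} (x₀ : X) (y₀ : Y) (d : ℕ) (f : X → Y)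
    (p : SpM d X x₀) : SpM d Y y₀ :=
  nrm y₀ (sp0 y₀ d) (f p.1.1) (Fc.trunc d (Fc.map (y₀ := y₀) f p.1.2.1))

private theorem sp_nrm_left {X : Type} {x₀ : X} {d : ℕ} {x : X} (h : x = x₀) (m : SpS d X x₀) :
    nrm x₀ (sp0 x₀ d) x m = spm0 x₀ d := by
  subst h
  exact nrm_left _ _ _

private theorem sp_nrm_right {X : Type} {x₀ : X} {d : ℕ} (x : X) {m : SpS d X x₀}
    (h : m = sp0 x₀ d) : nrm x₀ (sp0 x₀ d) x m = spm0 x₀ d := by
  subst h
  exact nrm_right _ _ _

private theorem sp_nrm_gen {X : Type} {x₀ : X} {d : ℕ} {x : X} {m : SpS d X x₀} (h : x ≠ x₀)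
    (h' : m ≠ sp0 x₀ d) : (nrm x₀ (sp0 x₀ d) x m).1 = (x, m) := by
  unfold nrm
  rw [dif_neg (not_or.2 ⟨h, h'⟩)]

private theorem spF_pt {X Y : Type} {x₀ : X} {y₀ : Y} (d : ℕ) (f : X → Y) (hf : f x₀ = y₀) :
    spF x₀ y₀ d f (spm0 x₀ d) = spm0 y₀ d := sp_nrm_left hf _

private theorem spF_nrm {X Y : Type} {x₀ : X} {y₀ : Y} (d : ℕ) (f : X → Y) (hf : f x₀ = y₀)
    (x : X) (m : SpS d X x₀) : spF x₀ y₀ d f (nrm x₀ (sp0 x₀ d) x m) =
      nrm y₀ (sp0 y₀ d) (f x) (Fc.trunc d (Fc.map (y₀ := y₀) f m.1)) :=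
  nrm_nrm f (fun z : SpS d X x₀ => Fc.trunc d (Fc.map (y₀ := y₀) f z.1)) hf
    (by
      change Fc.trunc d (Fc.map (y₀ := y₀) f 0) = _
      rw [map_zero, sp_trunc_zero]
      rfl) x m

/-- naturality of the multiplication -/
private theorem sp_mul_nat {X Y : Type} {x₀ : X} {y₀ : Y} (d : ℕ) (f : X → Y) (hf : f x₀ = y₀)
    (p : SpM d X x₀) :
    Fc.trunc (d + 1) (Fc.of y₀ (spF x₀ y₀ d f p).1.1 1 + (spF x₀ y₀ d f p).1.2.1) =
      Fc.trunc (d + 1) (Fc.map (y₀ := y₀) f (Fc.trunc (d + 1) (Fc.of x₀ p.1.1 1 + p.1.2.1)).1) := by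
  obtain ⟨⟨x, m⟩, hp⟩ := p
  have hm := sp_size_le m
  have hle : Fc.size (Fc.of x₀ x 1 + m.1) ≤ d + 1 := by
    rw [map_add]
    have := sp_size_of_le (x₀ := x₀) x 1
    omega
  have hmap := Fc.size_map_le (y₀ := y₀) f hf m.1
  have hof := sp_size_of_le (x₀ := y₀) (f x) 1
  have hR : Fc.trunc (d + 1) (Fc.map (y₀ := y₀) f
      (Fc.trunc (d + 1) (Fc.of x₀ x 1 + m.1)).1) =
      Fc.trunc (d + 1) (Fc.of y₀ (f x) 1 + Fc.map (y₀ := y₀) f m.1) := by
    rw [Fc.trunc_map_trunc (d + 1) f hf _ hle, map_add, Fc.map_of f hf]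
  refine Eq.trans ?_ hR.symm
  have hpt : Fc.trunc (d + 1) (Fc.of y₀ (spm0 y₀ d).1.1 1 + (spm0 y₀ d).1.2.1) =
      ⟨0, Or.inl rfl⟩ := by
    change Fc.trunc (d + 1) (Fc.of y₀ y₀ 1 + 0) = _
    rw [Fc.of_pt, zero_add, sp_trunc_zero]
  by_cases hA : f x = y₀
  · have h1 : spF x₀ y₀ d f ⟨(x, m), hp⟩ = spm0 y₀ d := sp_nrm_left hA _
    rw [h1, hpt, hA, Fc.of_pt, zero_add, sp_trunc_ne (by omega)]
  · by_cases hB : Fc.size (Fc.map (y₀ := y₀) f m.1) = d
    · by_cases hC : Fc.map (y₀ := y₀) f m.1 = 0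
      · rw [hC, map_zero] at hB
        have h1 : m.1 = 0 := by
          rcases m.2 with h | h
          · exact h
          · exact Fc.size_eq_zero (by omega)
        have hx : x = x₀ := hp.2 (Subtype.ext h1)
        exact absurd (by rw [hx, hf]) hA
      · have h1 : Fc.trunc d (Fc.map (y₀ := y₀) f m.1) = ⟨Fc.map (y₀ := y₀) f m.1, Or.inr hB⟩ :=
          sp_trunc_of hB
        have h2 : Fc.trunc d (Fc.map (y₀ := y₀) f m.1) ≠ sp0 y₀ d := by
          rw [h1]
          intro h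
          exact hC (congrArg Subtype.val h)
        have h3 : (spF x₀ y₀ d f ⟨(x, m), hp⟩).1 = (f x, Fc.trunc d (Fc.map (y₀ := y₀) f m.1)) :=
          sp_nrm_gen hA h2
        rw [h3, h1]
    · have h1 : spF x₀ y₀ d f ⟨(x, m), hp⟩ = spm0 y₀ d := sp_nrm_right _ (sp_trunc_ne hB)
      rw [h1, hpt, sp_trunc_ne (by rw [map_add]; omega)]

/-- Multiplication `X ∧ sp d → sp (d + 1)`, `(x, M) ↦ x + M`. -/
noncomputable def spMul (X : PSp) (d : ℕ) : PSp.Hom (X.smash (sp X d)) (sp X (d + 1)) where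
  f := fun q x => Fc.trunc (d + 1) (Fc.of (X.pt q) x.1.1 1 + x.1.2.1)
  map_pt := fun q => by
    change Fc.trunc (d + 1) (Fc.of (X.pt q) (X.pt q) 1 + 0) = _
    rw [Fc.of_pt, zero_add]
    exact sp_trunc_zero (d + 1)
  map_d := fun i q r h x => sp_mul_nat d (X.d i h) (X.d_pt i h) x
  map_s := fun i q r h x => sp_mul_nat d (X.s i h) (X.s_pt i h) x

/-- the homomorphism `n ↦ n • v` -/
private noncomputable def sp_sm (k : Type) [Field k] {V : Type} [AddCommGroup V] [Module k V]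
    (v : V) : ℕ →+ V where
  toFun := fun n => (n : k) • v
  map_zero' := by rw [Nat.cast_zero, zero_smul]
  map_add' := fun a b => by rw [Nat.cast_add, add_smul]

private theorem sp_sm_zero (k : Type) [Field k] {V : Type} [AddCommGroup V] [Module k V] :
    sp_sm k (0 : V) = 0 := by
  ext
  change ((1 : ℕ) : k) • (0 : V) = 0
  rw [smul_zero]

/-- change of variables -/
private theorem sp_cov (k : Type) [Field k] {V : Type} [AddCommGroup V] [Module k V]
    {X Y : Type} {x₀ : X} {y₀ : Y} (f : X → Y) (hf : f x₀ = y₀) (G : Y → V) (hG : G y₀ = 0)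
    (m : Fc ℕ X x₀) :
    ((Fc.map (y₀ := y₀) f m).sum fun y n => (n : k) • G y.1) =
      m.sum fun x n => (n : k) • G (f x.1) := by
  refine DFunLike.congr_fun (f := (Fc.lift (x₀ := y₀) (fun y => sp_sm k (G y))).comp
    (Fc.map (x₀ := x₀) (y₀ := y₀) f)) (g := Fc.lift (x₀ := x₀) (fun x => sp_sm k (G (f x))))
    (Fc.hom_ext fun x r => ?_) m
  rw [AddMonoidHom.comp_apply, Fc.map_of f hf, Fc.lift_of _ (by rw [hG]; exact sp_sm_zero k),
    Fc.lift_of _ (by rw [hf, hG]; exact sp_sm_zero k)]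

/-- the transfer of a multiset -/
private noncomputable def sp_T (k : Type) [Field k] {X : Type} (x₀ : X) (d : ℕ)
    (m : Fc ℕ X x₀) : Fr k (SpM d X x₀) (spm0 x₀ d) :=
  m.sum fun x n => (n : k) • Fr.of k (spm0 x₀ d) (nrm x₀ (sp0 x₀ d) x.1
    (Fc.trunc d (m - Finsupp.single x 1)))

private theorem sp_T_zero (k : Type) [Field k] {X : Type} (x₀ : X) (d : ℕ) :
    sp_T k x₀ d 0 = 0 := by
  unfold sp_T
  rw [Finsupp.sum_zero_index]

private theorem sp_T_nat (k : Type) [Field k] {X Y : Type} {x₀ : X} {y₀ : Y} (d : ℕ) (f : X → Y)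
    (hf : f x₀ = y₀) (M : {m : Fc ℕ X x₀ // m = 0 ∨ Fc.size m = d + 1}) :
    sp_T k y₀ d (Fc.trunc (d + 1) (Fc.map (y₀ := y₀) f M.1)).1 =
      Fr.map (y₀ := spm0 y₀ d) (spF x₀ y₀ d f) (sp_T k x₀ d M.1) := by
  obtain ⟨m, hm⟩ := M
  change sp_T k y₀ d (Fc.trunc (d + 1) (Fc.map (y₀ := y₀) f m)).1 = Fr.map _ (sp_T k x₀ d m)
  by_cases h0 : m = 0
  · have h1 : (Fc.trunc (d + 1) (Fc.map (y₀ := y₀) f m)).1 = 0 := by
      rw [h0, map_zero, sp_trunc_zero]
    have h2 : sp_T k x₀ d m = 0 := by rw [h0, sp_T_zero]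
    rw [h1, h2, sp_T_zero, map_zero]
  have hm1 : Fc.size m = d + 1 := hm.resolve_left h0
  have hR : Fr.map (y₀ := spm0 y₀ d) (spF x₀ y₀ d f) (sp_T k x₀ d m) =
      m.sum fun x n => (n : k) • Fr.of k (spm0 y₀ d) (nrm y₀ (sp0 y₀ d) (f x.1)
          (Fc.trunc d (Fc.map (y₀ := y₀) f (m - Finsupp.single x 1)))) := by
    unfold sp_T
    rw [map_finsuppSum]
    refine Finsupp.sum_congr fun x hx => ?_
    rw [map_smul, Fr.map_of _ (spF_pt d f hf), spF_nrm d f hf]
    have h2 : Fc.size (m - Finsupp.single x 1 : Fc ℕ X x₀) = d := by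
      have := sp_size_sub m hx
      omega
    rw [sp_trunc_of h2]
  rw [hR]
  by_cases hA : ∀ x ∈ m.support, f x.1 ≠ y₀
  · have h1 := (Fc.size_map_eq (y₀ := y₀) f hf m).2 hA
    rw [sp_trunc_of (h1.trans hm1)]
    change sp_T k y₀ d (Fc.map (y₀ := y₀) f m) = _
    obtain ⟨G, hG⟩ : ∃ G : Y → Fr k (SpM d Y y₀) (spm0 y₀ d), ∀ y, G y =
        Fr.of k (spm0 y₀ d) (nrm y₀ (sp0 y₀ d) y
          (Fc.trunc d (Fc.map (y₀ := y₀) f m - Fc.of y₀ y 1))) := ⟨_, fun _ => rfl⟩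
    have h2 : sp_T k y₀ d (Fc.map (y₀ := y₀) f m) =
        (Fc.map (y₀ := y₀) f m).sum fun y n => (n : k) • G y.1 := by
      unfold sp_T
      refine Finsupp.sum_congr fun y hy => ?_
      rw [hG, sp_of_single]
    rw [h2, sp_cov k f hf G (by rw [hG, sp_nrm_left rfl, Fr.of_pt])]
    refine Finsupp.sum_congr fun x hx => ?_
    rw [hG]
    have h3 : Fc.map (y₀ := y₀) f m - Fc.of y₀ (f x.1) 1 =
        Fc.map (y₀ := y₀) f (m - Finsupp.single x 1) := by
      have h4 : Fc.map (y₀ := y₀) f m = Fc.of y₀ (f x.1) 1 +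
          Fc.map (y₀ := y₀) f (m - Finsupp.single x 1) := by
        rw [← Fc.map_of f hf, ← sp_of_single, ← map_add, sp_split m hx]
      rw [h4, add_tsub_cancel_left]
    rw [h3]
  · push Not at hA
    obtain ⟨z, hz, hfz⟩ := hA
    have h1 : Fc.size (Fc.map (y₀ := y₀) f m) ≠ d + 1 := by
      intro h
      exact (Fc.size_map_eq (y₀ := y₀) f hf m).1 (h.trans hm1.symm) z hz hfz
    rw [sp_trunc_ne h1]
    refine (sp_T_zero k y₀ d).trans (Eq.symm ?_)
    refine Finset.sum_eq_zero fun x hx => ?_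
    beta_reduce
    by_cases hfx : f x.1 = y₀
    · rw [sp_nrm_left hfx, Fr.of_pt, smul_zero]
    · have hne : x ≠ z := by
        rintro rfl
        exact hfx hfz
      have h3 : z ∈ (m - Finsupp.single x 1).support := by
        rw [Finsupp.mem_support_iff, Finsupp.tsub_apply, Finsupp.single_eq_of_ne (Ne.symm hne),
          tsub_zero]
        exact Finsupp.mem_support_iff.1 hz
      have h4 : Fc.size (m - Finsupp.single x 1 : Fc ℕ X x₀) = d := by
        have := sp_size_sub m hx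
        omega
      have h5 : Fc.size (Fc.map (y₀ := y₀) f (m - Finsupp.single x 1)) ≠ d := by
        intro h
        exact (Fc.size_map_eq (y₀ := y₀) f hf _).1 (h.trans h4.symm) z h3 hfz
      rw [sp_nrm_right _ (sp_trunc_ne h5), Fr.of_pt, smul_zero]

/-- **Transfer** `lin (sp (d + 1)) → lin (X ∧ sp d)`, `M ↦ ∑_x M x • (x, M - x)`.  PROOF: if an operator
sends an element of `M` to the base point, both sides vanish (`Fc.size_map_eq`); otherwise it preserves
sizes and the formula is natural, `(map f M) y = ∑_{f x = y} M x`. -/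
theorem exists_transfer (k : Type) [Field k] (X : PSp) (d : ℕ) :
    ∃ τ : LSp.Hom (lin k (sp X (d + 1))) (lin k (X.smash (sp X d))),
      ∀ q (M : (sp X (d + 1)).X q), τ.f q (Fr.of k ((sp X (d + 1)).pt q) M) =
        M.1.sum fun x n => (n : k) • Fr.of k ((X.smash (sp X d)).pt q)
          (nrm (X.pt q) ((sp X d).pt q) x.1 (Fc.trunc d (M.1 - Finsupp.single x 1))) := by
  have φ : ∃ φ : Map (sp X (d + 1)) (lin k (X.smash (sp X d))).toG,
      ∀ q (M : (sp X (d + 1)).X q), φ.f q M = sp_T k (X.pt q) d M.1 :=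
    ⟨⟨fun q M => sp_T k (X.pt q) d M.1, fun q => by
        change sp_T k (X.pt q) d 0 = 0
        unfold sp_T
        rw [Finsupp.sum_zero_index],
      fun i q r h M => sp_T_nat k d (X.d i h) (X.d_pt i h) M,
      fun i q r h M => sp_T_nat k d (X.s i h) (X.s_pt i h) M⟩, fun q M => rfl⟩
  obtain ⟨φ, hφ⟩ := φ
  refine ⟨φ.lin, fun q M => ?_⟩
  rw [Map.lin_of]
  exact hφ q M

/-- `spMul ∘ transfer = d + 1` for `d ≥ 1`. -/
theorem mul_transfer (k : Type) [Field k] (X : PSp) (d : ℕ) (hd : 1 ≤ d)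
    (τ : LSp.Hom (lin k (sp X (d + 1))) (lin k (X.smash (sp X d))))
    (hτ : ∀ q (M : (sp X (d + 1)).X q), τ.f q (Fr.of k ((sp X (d + 1)).pt q) M) =
        M.1.sum fun x n => (n : k) • Fr.of k ((X.smash (sp X d)).pt q)
          (nrm (X.pt q) ((sp X d).pt q) x.1 (Fc.trunc d (M.1 - Finsupp.single x 1))))
    (q : ℤ) (z : (lin k (sp X (d + 1))).V q) :
    (linMap k (spMul X d)).f q (τ.f q z) = ((d : k) + 1) • z := by
  refine DFunLike.congr_fun (f := ((linMap k (spMul X d)).f q).comp (τ.f q))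
    (g := ((d : k) + 1) • LinearMap.id) (Fr.hom_ext fun M => ?_) z
  change (linMap k (spMul X d)).f q (τ.f q (Fr.of k ((sp X (d + 1)).pt q) M)) =
    ((d : k) + 1) • Fr.of k ((sp X (d + 1)).pt q) M
  rw [hτ]
  obtain ⟨m, hm⟩ := M
  by_cases h0 : m = 0
  · subst h0
    have h1 : (⟨0, hm⟩ : (sp X (d + 1)).X q) = (sp X (d + 1)).pt q := rfl
    rw [h1, Fr.of_pt, smul_zero]
    refine Eq.trans (congrArg _ ?_) (map_zero _)
    exact Finsupp.sum_zero_index
  have hm1 : Fc.size m = d + 1 := hm.resolve_left h0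
  have h1 : ∀ x ∈ m.support, (linMap k (spMul X d)).f q ((m x : k) •
      Fr.of k ((X.smash (sp X d)).pt q)
        (nrm (X.pt q) ((sp X d).pt q) x.1 (Fc.trunc d (m - Finsupp.single x 1)))) =
      (m x : k) • Fr.of k ((sp X (d + 1)).pt q) ⟨m, hm⟩ := by
    intro x hx
    have h4 : Fc.size (m - Finsupp.single x 1 : Fc ℕ (X.X q) (X.pt q)) = d := by
      have := sp_size_sub m hx
      omega
    have h5 : Fc.trunc d (m - Finsupp.single x 1) ≠ sp0 (X.pt q) d := by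
      rw [sp_trunc_of h4]
      intro h
      have h6 : m - Finsupp.single x 1 = 0 := congrArg Subtype.val h
      rw [h6, map_zero] at h4
      omega
    have h7 : (spMul X d).f q (nrm (X.pt q) (sp0 (X.pt q) d) x.1
        (Fc.trunc d (m - Finsupp.single x 1))) = ⟨m, hm⟩ := by
      change Fc.trunc (d + 1) (Fc.of (X.pt q) (nrm (X.pt q) (sp0 (X.pt q) d) x.1
        (Fc.trunc d (m - Finsupp.single x 1))).1.1 1 + (nrm (X.pt q) (sp0 (X.pt q) d) x.1
        (Fc.trunc d (m - Finsupp.single x 1))).1.2.1) = ⟨m, hm⟩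
      rw [sp_nrm_gen x.2 h5, sp_trunc_of h4, ← sp_of_single]
      change Fc.trunc (d + 1) (Finsupp.single x 1 + (m - Finsupp.single x 1)) = _
      rw [sp_split m hx]
      exact sp_trunc_of hm1
    refine (map_smul _ _ _).trans ?_
    refine congrArg (fun v => (m x : k) • v) ?_
    refine (linMap_of k (spMul X d) q _).trans ?_
    exact congrArg _ h7
  refine (map_sum ((linMap k (spMul X d)).f q) _ m.support).trans ?_
  refine (Finset.sum_congr rfl h1).trans ?_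
  refine (Finset.sum_smul).symm.trans ?_
  refine congrArg (fun c : k => c • Fr.of k ((sp X (d + 1)).pt q) (⟨m, hm⟩ : (sp X (d + 1)).X q)) ?_
  have h2 : Fc.size m = ∑ x ∈ m.support, m x := rfl
  rw [← Nat.cast_sum, ← h2, hm1]
  push_cast
  rfl

/-- **The rational homology of the symmetric smash powers vanishes for `d ≥ 2`.** -/
theorem sp_acyclic (X : PSp) (d : ℕ) (hd : 2 ≤ d) : (lin ℚ (sp X d)).toG.Acyclic := by
  obtain ⟨e, rfl⟩ : ∃ e, d = e + 1 := ⟨d - 1, by omega⟩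
  obtain ⟨τ, hτ⟩ := exists_transfer ℚ X e
  intro q
  have hc : ((e : ℚ) + 1) ≠ 0 := by positivity
  exact LSp.vanish_of_retract τ (linMap ℚ (spMul X e)) ((e : ℚ) + 1) hc
    (fun q z => mul_transfer ℚ X e (by omega) τ hτ q z) (lin_smash_acyclic X (sp X e) q)

end BPN
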