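import Pool.Agent.BPN.L.FExt
import Pool.Agent.BPN.S.EMb

/-!
# Free abelian group spectra and free commutative monoid spectra (project BPN, module R/Zl)
-/

namespace BPN

open GSp Classical

/-- Reduced free commutative monoid (`R = ℕ`) or group (`R = ℤ`) on a pointed set. -/
abbrev Fc (R : Type) [AddCommMonoid R] (X : Type) (x₀ : X) : Type := {x : X // x ≠ x₀} →₀ R

namespace Fc

variable {R : Type} [AddCommMonoid R] {X : Type} {x₀ : X}

/-- `r` times the generator `x` (`0` for the base point). -/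
noncomputable def of (x₀ : X) (x : X) : R →+ Fc R X x₀ :=
  if h : x = x₀ then 0 else Finsupp.singleAddHom ⟨x, h⟩

@[simp] theorem of_pt (r : R) : of x₀ x₀ r = 0 := by simp [of]

theorem of_ne {x : X} (h : x ≠ x₀) (r : R) : of x₀ x r = Finsupp.single ⟨x, h⟩ r := by
  simp [of, h]

/-- Universal property. -/
noncomputable def lift {A : Type} [AddCommMonoid A] (f : X → R →+ A) : Fc R X x₀ →+ A :=
  Finsupp.liftAddHom (fun x : {x : X // x ≠ x₀} => f x.1)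

theorem lift_of {A : Type} [AddCommMonoid A] (f : X → R →+ A) (hf : f x₀ = 0) (x : X) (r : R) :
    lift f (of x₀ x r) = f x r := by
  by_cases h : x = x₀
  · subst h; simp [hf]
  · rw [of_ne h, lift, Finsupp.liftAddHom_apply_single]

theorem hom_ext {A : Type} [AddCommMonoid A] {f g : Fc R X x₀ →+ A}
    (h : ∀ x r, f (of x₀ x r) = g (of x₀ x r)) : f = g := by
  refine Finsupp.addHom_ext fun x r => ?_
  have h1 := h x.1 r
  rwa [of_ne x.2] at h1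

/-- Functoriality. -/
noncomputable def map {Y : Type} {y₀ : Y} (f : X → Y) : Fc R X x₀ →+ Fc R Y y₀ :=
  lift (fun x => of y₀ (f x))

theorem map_of {Y : Type} {y₀ : Y} (f : X → Y) (hf : f x₀ = y₀) (x : X) (r : R) :
    map (R := R) (x₀ := x₀) (y₀ := y₀) f (of x₀ x r) = of y₀ (f x) r :=
  lift_of _ (by rw [hf]; ext s; simp) x r

end Fc

section

variable (R : Type) [AddCommMonoid R] (X : PSp)

theorem Fc.dd {i j : ℕ} (hij : i ≤ j) {q r t : ℤ} (h₁ : q + 1 = r) (h₂ : r + 1 = t)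
    (x : Fc R (X.X t) (X.pt t)) :
    Fc.map (y₀ := X.pt q) (X.d i h₁) (Fc.map (y₀ := X.pt r) (X.d (j + 1) h₂) x) =
      Fc.map (y₀ := X.pt q) (X.d j h₁) (Fc.map (y₀ := X.pt r) (X.d i h₂) x) := by
  refine DFunLike.congr_fun (f := (Fc.map (X.d _ h₁)).comp (Fc.map (X.d _ h₂)))
    (g := (Fc.map (X.d _ h₁)).comp (Fc.map (X.d _ h₂))) (Fc.hom_ext fun x s => ?_) x
  simp only [AddMonoidHom.comp_apply, Fc.map_of _ (X.d_pt _ _), X.dd hij]

theorem Fc.ds_lt {i j : ℕ} (hij : i ≤ j) {q r t : ℤ} (h₁ : q + 1 = r) (h₂ : r + 1 = t)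
    (x : Fc R (X.X r) (X.pt r)) :
    Fc.map (y₀ := X.pt r) (X.d i h₂) (Fc.map (y₀ := X.pt t) (X.s (j + 1) h₂) x) =
      Fc.map (y₀ := X.pt r) (X.s j h₁) (Fc.map (y₀ := X.pt q) (X.d i h₁) x) := by
  refine DFunLike.congr_fun (f := (Fc.map (X.d _ h₂)).comp (Fc.map (X.s _ h₂)))
    (g := (Fc.map (X.s _ h₁)).comp (Fc.map (X.d _ h₁))) (Fc.hom_ext fun x s => ?_) x
  simp only [AddMonoidHom.comp_apply, Fc.map_of _ (X.d_pt _ _), Fc.map_of _ (X.s_pt _ _)]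
  rw [X.ds_lt hij h₁ h₂]

theorem Fc.ds_eq (i : ℕ) {q r : ℤ} (h : q + 1 = r) (x : Fc R (X.X q) (X.pt q)) :
    Fc.map (y₀ := X.pt q) (X.d i h) (Fc.map (y₀ := X.pt r) (X.s i h) x) = x := by
  refine DFunLike.congr_fun (f := (Fc.map (X.d i h)).comp (Fc.map (X.s i h)))
    (g := AddMonoidHom.id _) (Fc.hom_ext fun x s => ?_) x
  simp only [AddMonoidHom.comp_apply, Fc.map_of _ (X.d_pt _ _), Fc.map_of _ (X.s_pt _ _),
    X.ds_eq, AddMonoidHom.id_apply]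

theorem Fc.ds_succ (i : ℕ) {q r : ℤ} (h : q + 1 = r) (x : Fc R (X.X q) (X.pt q)) :
    Fc.map (y₀ := X.pt q) (X.d (i + 1) h) (Fc.map (y₀ := X.pt r) (X.s i h) x) = x := by
  refine DFunLike.congr_fun (f := (Fc.map (X.d (i + 1) h)).comp (Fc.map (X.s i h)))
    (g := AddMonoidHom.id _) (Fc.hom_ext fun x s => ?_) x
  simp only [AddMonoidHom.comp_apply, Fc.map_of _ (X.d_pt _ _), Fc.map_of _ (X.s_pt _ _),
    X.ds_succ, AddMonoidHom.id_apply]

theorem Fc.ds_gt {i j : ℕ} (hij : j < i) {q r t : ℤ} (h₁ : q + 1 = r) (h₂ : r + 1 = t)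
    (x : Fc R (X.X r) (X.pt r)) :
    Fc.map (y₀ := X.pt r) (X.d (i + 1) h₂) (Fc.map (y₀ := X.pt t) (X.s j h₂) x) =
      Fc.map (y₀ := X.pt r) (X.s j h₁) (Fc.map (y₀ := X.pt q) (X.d i h₁) x) := by
  refine DFunLike.congr_fun (f := (Fc.map (X.d _ h₂)).comp (Fc.map (X.s _ h₂)))
    (g := (Fc.map (X.s _ h₁)).comp (Fc.map (X.d _ h₁))) (Fc.hom_ext fun x s => ?_) x
  simp only [AddMonoidHom.comp_apply, Fc.map_of _ (X.d_pt _ _), Fc.map_of _ (X.s_pt _ _)]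
  rw [X.ds_gt hij h₁ h₂]

theorem Fc.ss {i j : ℕ} (hij : i ≤ j) {q r t : ℤ} (h₁ : q + 1 = r) (h₂ : r + 1 = t)
    (x : Fc R (X.X q) (X.pt q)) :
    Fc.map (y₀ := X.pt t) (X.s i h₂) (Fc.map (y₀ := X.pt r) (X.s j h₁) x) =
      Fc.map (y₀ := X.pt t) (X.s (j + 1) h₂) (Fc.map (y₀ := X.pt r) (X.s i h₁) x) := by
  refine DFunLike.congr_fun (f := (Fc.map (X.s _ h₂)).comp (Fc.map (X.s _ h₁)))
    (g := (Fc.map (X.s _ h₂)).comp (Fc.map (X.s _ h₁))) (Fc.hom_ext fun x s => ?_) x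
  simp only [AddMonoidHom.comp_apply, Fc.map_of _ (X.s_pt _ _), X.ss hij]

theorem Fc.fin {q r : ℤ} (h : q + 1 = r) (x : Fc R (X.X r) (X.pt r)) :
    ∃ n : ℕ, ∀ i, n ≤ i → Fc.map (y₀ := X.pt q) (X.d i h) x = 0 := by
  induction x using Finsupp.induction_linear with
  | zero => exact ⟨0, fun i _ => map_zero _⟩
  | add y z hy hz =>
    obtain ⟨n, hn⟩ := hy
    obtain ⟨m, hm⟩ := hz
    exact ⟨max n m, fun i hi => by
      rw [map_add, hn i (le_trans (le_max_left _ _) hi), hm i (le_trans (le_max_right _ _) hi),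
        add_zero]⟩
  | single x b =>
    obtain ⟨n, hn⟩ := X.fin h x.1
    refine ⟨n, fun i hi => ?_⟩
    have h2 : (Finsupp.single x b : {y : X.X r // y ≠ X.pt r} →₀ R) =
        Fc.of (X.pt r) x.1 b := by
      rw [Fc.of_ne x.2]
    rw [h2, Fc.map_of _ (X.d_pt _ _), hn i hi, Fc.of_pt]

end

/-- The free abelian group spectrum `Z~[X]`. -/
noncomputable def zl (X : PSp) : GSp where
  G := fun q => Fc ℤ (X.X q) (X.pt q)
  d := fun i _ _ h => Fc.map (X.d i h)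
  s := fun i _ _ h => Fc.map (X.s i h)
  dd := fun hij _ _ _ h₁ h₂ x => Fc.dd ℤ X hij h₁ h₂ x
  ds_lt := fun hij _ _ _ h₁ h₂ x => Fc.ds_lt ℤ X hij h₁ h₂ x
  ds_eq := fun i _ _ h x => Fc.ds_eq ℤ X i h x
  ds_succ := fun i _ _ h x => Fc.ds_succ ℤ X i h x
  ds_gt := fun hij _ _ _ h₁ h₂ x => Fc.ds_gt ℤ X hij h₁ h₂ x
  ss := fun hij _ _ _ h₁ h₂ x => Fc.ss ℤ X hij h₁ h₂ x
  fin := fun h x => Fc.fin ℤ X h x

/-- The free commutative monoid spectrum `N~[X]`. -/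
noncomputable def nl (X : PSp) : MSp where
  G := fun q => Fc ℕ (X.X q) (X.pt q)
  d := fun i _ _ h => Fc.map (X.d i h)
  s := fun i _ _ h => Fc.map (X.s i h)
  dd := fun hij _ _ _ h₁ h₂ x => Fc.dd ℕ X hij h₁ h₂ x
  ds_lt := fun hij _ _ _ h₁ h₂ x => Fc.ds_lt ℕ X hij h₁ h₂ x
  ds_eq := fun i _ _ h x => Fc.ds_eq ℕ X i h x
  ds_succ := fun i _ _ h x => Fc.ds_succ ℕ X i h x
  ds_gt := fun hij _ _ _ h₁ h₂ x => Fc.ds_gt ℕ X hij h₁ h₂ x
  ss := fun hij _ _ _ h₁ h₂ x => Fc.ss ℕ X hij h₁ h₂ x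
  fin := fun h x => Fc.fin ℕ X h x

/-- The inclusion of generators into `N~[X]`. -/
noncomputable def nl.eta (X : PSp) : PSp.Hom X (nl X).U where
  f := fun q x => Fc.of (X.pt q) x 1
  map_pt := fun q => Fc.of_pt 1
  map_d := fun i q r h x => (Fc.map_of _ (X.d_pt i h) x 1).symm
  map_s := fun i q r h x => (Fc.map_of _ (X.s_pt i h) x 1).symm

end BPN
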